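import Pool.Agent.TH342.CV.Core

/-!
# Tuples of simple critical zeros with differences in given long intervals
-/

open Complex Filter Topology Set MeasureTheory
open scoped BigOperators ComplexConjugate

namespace Pool.Agent.TH342.CV

open H370

/-- the finite set of simple critical ordinates in `(u, v]` -/
noncomputable def cs (F : ℂ → ℂ) (u v : ℝ) : Finset ℝ := by
  classical
  exact if h : {x : ℝ | u < x ∧ x ≤ v ∧ SimpleAt F x}.Finite then h.toFinset else ∅

lemma cs_card (F : ℂ → ℂ) (u v : ℝ) : (cs F u v).card = cnt F u v := by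
  classical
  unfold cs cnt
  split_ifs with h
  · exact (Set.ncard_eq_toFinset_card _ h).symm
  · rw [Finset.card_empty]
    exact (Set.Infinite.ncard h).symm

lemma cs_mem {F : ℂ → ℂ} {u v x : ℝ} (h : x ∈ cs F u v) : u < x ∧ x ≤ v ∧ SimpleAt F x := by
  classical
  unfold cs at h
  split_ifs at h with h1
  · exact (Set.Finite.mem_toFinset h1).mp h
  · exact absurd h (Finset.notMem_empty _)

lemma cnt_split {F : ℂ → ℂ} (hF : GoodL F) {u w : ℝ} (hu : 1 ≤ u) (hw : 0 ≤ w) (J : ℕ) :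
    (cnt F u (u + J * w) : ℝ) =
      ∑ j ∈ Finset.range J, (cnt F (u + j * w) (u + (j + 1) * w) : ℝ) := by
  induction J with
  | zero =>
    have : cnt F u (u + (0 : ℕ) * w) = 0 := by
      unfold cnt
      have h : {x : ℝ | u < x ∧ x ≤ u + (0 : ℕ) * w ∧ SimpleAt F x} = ∅ := by
        rw [Set.eq_empty_iff_forall_notMem]
        rintro x ⟨h1, h2, -⟩
        simp only [Nat.cast_zero, zero_mul, add_zero] at h2
        linarith
      rw [h, Set.ncard_empty]
    rw [this]
    simp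
  | succ J ih =>
    rw [Finset.sum_range_succ, ← ih]
    have hJ : (0 : ℝ) ≤ J := Nat.cast_nonneg J
    have hJw : 0 ≤ (J : ℝ) * w := mul_nonneg hJ hw
    have hun : {x : ℝ | u < x ∧ x ≤ u + ((J + 1 : ℕ) : ℝ) * w ∧ SimpleAt F x} =
        {x : ℝ | u < x ∧ x ≤ u + (J : ℝ) * w ∧ SimpleAt F x} ∪
        {x : ℝ | u + (J : ℝ) * w < x ∧ x ≤ u + ((J : ℝ) + 1) * w ∧ SimpleAt F x} := by
      ext x
      simp only [Set.mem_union, Set.mem_ofPred_eq]
      push_cast
      constructor
      · rintro ⟨h1, h2, h3⟩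
        rcases le_or_gt x (u + (J : ℝ) * w) with h | h
        · exact Or.inl ⟨h1, h, h3⟩
        · exact Or.inr ⟨h, h2, h3⟩
      · rintro (⟨h1, h2, h3⟩ | ⟨h1, h2, h3⟩)
        · refine ⟨h1, ?_, h3⟩
          have : ((J : ℝ) + 1) * w = J * w + w := by ring
          rw [this]; linarith
        · exact ⟨by linarith, h2, h3⟩
    have hd : Disjoint {x : ℝ | u < x ∧ x ≤ u + (J : ℝ) * w ∧ SimpleAt F x}
        {x : ℝ | u + (J : ℝ) * w < x ∧ x ≤ u + ((J : ℝ) + 1) * w ∧ SimpleAt F x} := by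
      rw [Set.disjoint_left]
      rintro x ⟨-, h2, -⟩ ⟨h3, -, -⟩
      linarith
    have hcard := Set.ncard_union_eq hd (simple_finite hF hu)
      (simple_finite hF (by linarith : 1 ≤ u + (J : ℝ) * w))
    unfold cnt
    rw [hun, hcard]
    push_cast
    ring

/-- the Weierstrass product inequality -/
lemma weier {ι : Type*} (s : Finset ι) (f : ι → ℝ) (h0 : ∀ i ∈ s, 0 ≤ f i)
    (h1 : ∀ i ∈ s, f i ≤ 1) :
    ∑ i ∈ s, f i - s.card + 1 ≤ ∏ i ∈ s, f i ∧ ∏ i ∈ s, f i ≤ 1 ∧ 0 ≤ ∏ i ∈ s, f i := by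
  classical
  induction s using Finset.induction_on with
  | empty => simp
  | insert a s ha ih =>
    obtain ⟨i1, i2, i3⟩ := ih (fun i hi => h0 i (Finset.mem_insert_of_mem hi))
      (fun i hi => h1 i (Finset.mem_insert_of_mem hi))
    have a0 := h0 a (Finset.mem_insert_self a s)
    have a1 := h1 a (Finset.mem_insert_self a s)
    rw [Finset.sum_insert ha, Finset.prod_insert ha, Finset.card_insert_of_notMem ha]
    refine ⟨?_, ?_, mul_nonneg a0 i3⟩
    · push_cast
      nlinarith [mul_nonneg (sub_nonneg.mpr a1) (sub_nonneg.mpr i2)]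
    · calc f a * ∏ i ∈ s, f i ≤ 1 * 1 := mul_le_mul a1 i2 i3 zero_le_one
        _ = 1 := one_mul 1

/-- the tuples: `p.1` is the ordinate in `(T, T + H]` of a simple critical zero of `F0`, `p.2 i` that
of a simple critical zero of `F i`, and `p.2 i - p.1` lies between `α i * σ` and `β i * σ` -/
def Box {n : ℕ} (F0 : ℂ → ℂ) (F : Fin n → ℂ → ℂ) (T H σ : ℝ) (α β : Fin n → ℝ) :
    Set (ℝ × (Fin n → ℝ)) :=
  {p | T < p.1 ∧ p.1 ≤ T + H ∧ SimpleAt F0 p.1 ∧ ∀ i, SimpleAt (F i) (p.2 i) ∧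
    α i * σ < p.2 i - p.1 ∧ p.2 i - p.1 < β i * σ}

lemma box_finite {n : ℕ} {F0 : ℂ → ℂ} {F : Fin n → ℂ → ℂ} (hF0 : GoodL F0)
    (hF : ∀ i, GoodL (F i)) {T H σ : ℝ} {α β : Fin n → ℝ} (hT : 1 ≤ T) (hσ : 0 ≤ σ)
    (hα : ∀ i, 0 ≤ α i) : (Box F0 F T H σ α β).Finite := by
  have h0 := simple_finite hF0 (T1 := T) (T2 := T + H) hT
  have h1 := Set.Finite.pi' (fun i => simple_finite (hF i) (T1 := T) (T2 := T + H + β i * σ) hT)
  refine (h0.prod h1).subset ?_
  rintro ⟨x, y⟩ ⟨p1, p2, p3, p4⟩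
  refine ⟨⟨p1, p2, p3⟩, fun i => ?_⟩
  obtain ⟨q1, q2, q3⟩ := p4 i
  simp only at q1 q2 q3 p1 p2
  have : 0 ≤ α i * σ := mul_nonneg (hα i) hσ
  exact ⟨by linarith, by linarith, q1⟩

/-- the disjoint boxes of cells -/
theorem box_count {n : ℕ} {F0 : ℂ → ℂ} {F : Fin n → ℂ → ℂ} {T w : ℝ} (hw : 0 < w) (N : ℕ)
    (b : Fin n → ℝ) (J : Fin n → ℕ) {Bx : Set (ℝ × (Fin n → ℝ))} (hfin : Bx.Finite)
    (hsub : ∀ k : ℕ, k < N → ∀ x0 : ℝ, T + k * w < x0 → x0 ≤ T + (k + 1) * w → SimpleAt F0 x0 →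
      ∀ x : Fin n → ℝ, (∀ i, T + b i + k * w < x i ∧ x i ≤ T + b i + k * w + J i * w ∧
        SimpleAt (F i) (x i)) → (x0, x) ∈ Bx) :
    ∑ k ∈ Finset.range N, (cnt F0 (T + k * w) (T + (k + 1) * w) : ℝ) *
      ∏ i, (cnt (F i) (T + b i + k * w) (T + b i + k * w + J i * w) : ℝ) ≤ Bx.ncard := by
  classical
  set A : ℕ → Finset (ℝ × (Fin n → ℝ)) := fun k =>
    (cs F0 (T + k * w) (T + (k + 1) * w)) ×ˢ
      Fintype.piFinset (fun i => cs (F i) (T + b i + k * w) (T + b i + k * w + J i * w)) with hA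
  have hcard : ∀ k, ((A k).card : ℝ) = (cnt F0 (T + k * w) (T + (k + 1) * w) : ℝ) *
      ∏ i, (cnt (F i) (T + b i + k * w) (T + b i + k * w + J i * w) : ℝ) := by
    intro k
    simp only [hA, Finset.card_product, Fintype.card_piFinset, cs_card]
    push_cast
    rfl
  have hdisj : ((Finset.range N : Finset ℕ) : Set ℕ).PairwiseDisjoint A := by
    intro k _ l _ hkl
    rw [Function.onFun, Finset.disjoint_left]
    rintro ⟨x, y⟩ hx hx'
    have h1 := cs_mem (Finset.mem_product.mp hx).1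
    have h2 := cs_mem (Finset.mem_product.mp hx').1
    simp only at h1 h2
    rcases lt_or_gt_of_ne hkl with h | h
    · have h3 : (k : ℝ) + 1 ≤ l := by exact_mod_cast h
      have := mul_le_mul_of_nonneg_right h3 hw.le
      linarith [h1.2.1, h2.1]
    · have h3 : (l : ℝ) + 1 ≤ k := by exact_mod_cast h
      have := mul_le_mul_of_nonneg_right h3 hw.le
      linarith [h2.2.1, h1.1]
  rw [← Finset.sum_congr rfl (fun k _ => hcard k), ← Nat.cast_sum, ← Finset.card_biUnion hdisj]
  rw [← Set.ncard_coe_finset]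
  have : ((Finset.range N).biUnion A : Set (ℝ × (Fin n → ℝ))) ⊆ Bx := by
    rintro ⟨x0, x⟩ hx
    rw [Finset.mem_coe, Finset.mem_biUnion] at hx
    obtain ⟨k, hk, hx⟩ := hx
    rw [Finset.mem_range] at hk
    obtain ⟨h1, h2⟩ := Finset.mem_product.mp hx
    have h3 := cs_mem h1
    simp only at h3
    rw [Fintype.mem_piFinset] at h2
    exact hsub k hk x0 h3.1 h3.2.1 h3.2.2 x (fun i => cs_mem (h2 i))
  exact_mod_cast Set.ncard_le_ncard this hfin

/-- the number of tuples of simple critical zeros with differences in given long intervals is at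
least a fixed proportion of the expected number -/
theorem boxes (n : ℕ) {ε : ℝ} (hε : 0 < ε) : ∃ L : ℝ, 0 < L ∧ ∃ d : ℝ, 0 < d ∧ d < 1 ∧
    ∀ (F0 : ℂ → ℂ) (F : Fin n → ℂ → ℂ), GoodL F0 → (∀ i, GoodL (F i)) → ∃ T0 : ℝ, 10 ≤ T0 ∧
      ∀ T : ℝ, T0 ≤ T → ∀ H : ℝ, T ^ (1 - d) ≤ H → H ≤ T → ∀ α β : Fin n → ℝ,
        (∀ i, 0 ≤ α i ∧ α i + L ≤ β i ∧ β i * (2 * Real.pi / Real.log T) ≤ T ^ (1 + d)) →
        (((n : ℝ) + 1) * (2 - cMTinv) - n - ε) * (∏ i, (β i - α i)) *
          (H / (2 * Real.pi) * Real.log T) ≤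
          ((Box F0 F T H (2 * Real.pi / Real.log T) α β).ncard : ℝ) := by
  classical
  have hpi := Real.pi_pos
  have hcg := cMTinv_gt_one
  have hn0 : (0 : ℝ) ≤ n := Nat.cast_nonneg n
  rcases le_or_gt (((n : ℝ) + 1) * (2 - cMTinv) - n - ε) 0 with hneg | hpos
  · refine ⟨1, one_pos, 1 / 2, by norm_num, by norm_num, fun F0 F hF0 hF => ⟨10, le_rfl, ?_⟩⟩
    intro T hT H hH1 hH2 α β hαβ
    have hlog : 0 < Real.log T := Real.log_pos (by linarith)
    have hH0 : 0 ≤ H := (Real.rpow_nonneg (by linarith) _).trans hH1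
    have h1 : 0 ≤ ∏ i, (β i - α i) := Finset.prod_nonneg fun i _ => by
      have := (hαβ i).2.1
      linarith
    have h2 : 0 ≤ H / (2 * Real.pi) * Real.log T := by positivity
    have h3 := mul_nonpos_of_nonpos_of_nonneg (mul_nonpos_of_nonpos_of_nonneg hneg h1) h2
    exact h3.trans (Nat.cast_nonneg _)
  -- the main case
  set e : ℝ := min 1 (ε / (8 * (n + 1))) with he
  have he0 : 0 < e := by rw [he]; positivity
  have he1 : e ≤ 1 := min_le_left _ _
  have he2 : ((n : ℝ) + 1) * e ≤ ε / 8 := by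
    have h1 : e ≤ ε / (8 * (n + 1)) := min_le_right _ _
    have h2 := mul_le_mul_of_nonneg_left h1 (by positivity : (0 : ℝ) ≤ n + 1)
    refine h2.trans (le_of_eq ?_)
    field_simp
  obtain ⟨g, hg0, d0, hd0, hd01, hcore⟩ := core he0 he1
  set L : ℝ := 3 * g + 2 * g / e with hL
  have hL0 : 0 < L := by rw [hL]; positivity
  have hL1 : 3 * g ≤ L := by
    have : 0 < 2 * g / e := by positivity
    rw [hL]; linarith
  have hL2 : 2 * g ≤ e * L := by
    have h1 : e * (2 * g / e) = 2 * g := by field_simp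
    have h2 : 0 ≤ e * (3 * g) := by positivity
    rw [hL, mul_add, h1]; linarith
  set d : ℝ := d0 / 2 with hd
  have hdpos : 0 < d := by rw [hd]; positivity
  have hd1 : d < 1 / 2 := by rw [hd]; linarith
  have hd0d : d0 = 2 * d := by rw [hd]; ring
  refine ⟨L, hL0, d, hdpos, by linarith, fun F0 F hF0 hF => ?_⟩
  obtain ⟨T1, hT1, hc0⟩ := hcore F0 hF0
  choose T2 hT2 hci using fun i => hcore (F i) (hF i)
  -- large `T`
  have htop : Tendsto (fun T : ℝ => T ^ d) atTop atTop := tendsto_rpow_atTop hdpos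
  obtain ⟨T3, hT3⟩ := (htop.eventually_ge_atTop 2).exists_forall_of_atTop
  have htop2 : Tendsto (fun T : ℝ => T ^ (1 - 2 * d)) atTop atTop :=
    tendsto_rpow_atTop (by linarith)
  obtain ⟨T4, hT4⟩ := (htop2.eventually_ge_atTop
    (max (g * (2 * Real.pi)) (g * (2 * Real.pi) / e))).exists_forall_of_atTop
  set TS : ℝ := ∑ i, T2 i with hTS
  refine ⟨max (max T1 TS) (max (max T3 T4) 10), (le_max_right _ _).trans (le_max_right _ _),
    fun T hTT H hH1 hH2 α β hαβ => ?_⟩
  have hTT1 : T1 ≤ T := ((le_max_left _ _).trans (le_max_left _ _)).trans hTT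
  have hTTS : TS ≤ T := ((le_max_right _ _).trans (le_max_left _ _)).trans hTT
  have hTT2 : ∀ i, T2 i ≤ T := by
    intro i
    refine le_trans ?_ hTTS
    exact Finset.single_le_sum (f := T2) (fun j _ => by linarith [hT2 j]) (Finset.mem_univ i)
  have hTd := hT3 T ((((le_max_left _ _).trans (le_max_left _ _)).trans (le_max_right _ _)).trans
    hTT)
  have hTd2 := hT4 T ((((le_max_right _ _).trans (le_max_left _ _)).trans (le_max_right _ _)).trans
    hTT)
  have hT10 : 10 ≤ T := ((le_max_right _ _).trans (le_max_right _ _)).trans hTT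
  have hT0 : 0 < T := by linarith
  have hlog1 : 1 ≤ Real.log T := by
    rw [Real.le_log_iff_exp_le hT0]
    have := Real.exp_one_lt_d9
    linarith
  have hlog : 0 < Real.log T := by linarith
  set σ : ℝ := 2 * Real.pi / Real.log T with hσ
  have hσ0 : 0 < σ := by positivity
  set w : ℝ := g * σ with hw
  have hw0 : 0 < w := by positivity
  have hwle : w ≤ g * (2 * Real.pi) := by
    rw [hw, hσ]
    apply mul_le_mul_of_nonneg_left _ hg0.le
    exact div_le_self (by positivity) hlog1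
  have hH0 : 0 < H := (Real.rpow_pos_of_pos hT0 _).trans_le hH1
  have hpd : T ^ (1 - d) = T ^ (1 - 2 * d) * T ^ d := by
    rw [← Real.rpow_add hT0]; congr 1; ring
  have hHbig : 2 * T ^ (1 - 2 * d) ≤ H := by
    refine le_trans ?_ hH1
    rw [hpd, mul_comm]
    exact mul_le_mul_of_nonneg_left hTd (Real.rpow_nonneg hT0.le _)
  have hX1 : g * (2 * Real.pi) ≤ T ^ (1 - 2 * d) := (le_max_left _ _).trans hTd2
  have hX2 : g * (2 * Real.pi) / e ≤ T ^ (1 - 2 * d) := (le_max_right _ _).trans hTd2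
  set N : ℕ := ⌊H / w⌋₊ with hN
  have hNle : (N : ℝ) * w ≤ H := by
    have := Nat.floor_le (by positivity : 0 ≤ H / w)
    rwa [← hN, le_div_iff₀ hw0] at this
  have hNge : H < ((N : ℝ) + 1) * w := by
    have := Nat.lt_floor_add_one (H / w)
    rwa [← hN, div_lt_iff₀ hw0] at this
  have hNge' : H - w ≤ N * w := by
    have : ((N : ℝ) + 1) * w = N * w + w := by ring
    linarith
  have hN1 : T ^ (1 - d0) ≤ N * w := by
    rw [hd0d]
    linarith
  have hN2 : (N : ℝ) * w ≤ T := hNle.trans hH2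
  set K : ℝ := (1 + e) * g with hK
  have hK0 : 0 < K := by rw [hK]; positivity
  have hgK : g ≤ K := by
    rw [hK]
    have : 0 ≤ e * g := by positivity
    linarith
  set b : Fin n → ℝ := fun i => α i * σ + w with hb
  have hb0 : ∀ i, 0 ≤ b i := fun i => by
    have := mul_nonneg (hαβ i).1 hσ0.le
    simp only [hb]; linarith
  set J : Fin n → ℕ := fun i => ⌊(β i - α i) / g⌋₊ - 1 with hJ
  have hfl : ∀ i, 3 ≤ ⌊(β i - α i) / g⌋₊ := by
    intro i
    apply Nat.le_floor
    rw [le_div_iff₀ hg0]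
    have := (hαβ i).2.1
    push_cast
    linarith
  have hJ1 : ∀ i, ((J i : ℝ) + 1) * g ≤ β i - α i := by
    intro i
    have h1 : (J i : ℝ) + 1 = ⌊(β i - α i) / g⌋₊ := by
      have h2 : J i + 1 = ⌊(β i - α i) / g⌋₊ := by
        have := hfl i
        simp only [hJ]; omega
      exact_mod_cast congrArg (Nat.cast : ℕ → ℝ) h2
    rw [h1, ← le_div_iff₀ hg0]
    apply Nat.floor_le
    apply div_nonneg _ hg0.le
    have := (hαβ i).2.1
    linarith
  have hJ2 : ∀ i, β i - α i - 2 * g ≤ (J i : ℝ) * g := by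
    intro i
    have h1 : (J i : ℝ) + 1 = ⌊(β i - α i) / g⌋₊ := by
      have h2 : J i + 1 = ⌊(β i - α i) / g⌋₊ := by
        have := hfl i
        simp only [hJ]; omega
      exact_mod_cast congrArg (Nat.cast : ℕ → ℝ) h2
    have h3 := Nat.lt_floor_add_one ((β i - α i) / g)
    rw [← h1, div_lt_iff₀ hg0] at h3
    have h4 : ((J i : ℝ) + 1 + 1) * g = J i * g + 2 * g := by ring
    linarith
  have hJpos : ∀ i, (1 : ℝ) ≤ J i := by
    intro i
    have h2 : 1 ≤ J i := by
      have := hfl i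
      simp only [hJ]; omega
    exact_mod_cast h2
  -- the counting
  have hcount := box_count (n := n) (F0 := F0) (F := F) (T := T) hw0 N b J
    (box_finite hF0 hF (T := T) (H := H) (σ := σ) (α := α) (β := β) (by linarith) hσ0.le
      (fun i => (hαβ i).1)) (by
    intro k hk x0 h1 h2 h3 x hx
    have hk1 : (k : ℝ) + 1 ≤ N := by exact_mod_cast hk
    have hkw := mul_le_mul_of_nonneg_right hk1 hw0.le
    have hkk : ((k : ℝ) + 1) * w = k * w + w := by ring
    have hk0 : 0 ≤ (k : ℝ) * w := by positivity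
    refine ⟨by simp only; linarith, by simp only; linarith, h3, fun i => ?_⟩
    obtain ⟨q1, q2, q3⟩ := hx i
    have hbi : b i = α i * σ + w := rfl
    refine ⟨q3, by simp only; rw [hbi] at q1; linarith, ?_⟩
    simp only
    have h4 := mul_le_mul_of_nonneg_right (hJ1 i) hσ0.le
    have h5 : ((J i : ℝ) + 1) * g * σ = J i * w + w := by rw [hw]; ring
    rw [h5] at h4
    rw [hbi] at q2
    have h6 : (β i - α i) * σ = β i * σ - α i * σ := by ring
    linarith)
  refine le_trans ?_ hcount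
  -- the truncated counts
  set f0 : ℕ → ℝ := fun k => min (cnt F0 (T + k * w) (T + (k + 1) * w) : ℝ) K with hf0
  set f : Fin n → ℕ → ℝ := fun i k => ∑ j ∈ Finset.range (J i),
    min (cnt (F i) (T + (b i + j * w) + k * w) (T + (b i + j * w) + (k + 1) * w) : ℝ) K with hf
  have hf0s : (2 - cMTinv - e) * (g * N) ≤ ∑ k ∈ Finset.range N, f0 k := by
    have h := hc0 T hTT1 0 le_rfl (Real.rpow_nonneg hT0.le _) N hN1 hN2
    simp only [add_zero] at h
    exact h
  have hfs : ∀ i, (J i : ℝ) * ((2 - cMTinv - e) * (g * N)) ≤ ∑ k ∈ Finset.range N, f i k := by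
    intro i
    simp only [hf]
    rw [Finset.sum_comm, ← nsmul_eq_mul, ← Finset.card_range (J i), ← Finset.sum_const,
      Finset.card_range]
    apply Finset.sum_le_sum
    intro j hj
    rw [Finset.mem_range] at hj
    have hj1 : (j : ℝ) + 1 ≤ J i := by exact_mod_cast hj
    have hjw : 0 ≤ (j : ℝ) * w := by positivity
    refine hci i T (hTT2 i) (b i + j * w) (add_nonneg (hb0 i) hjw) ?_ N hN1 hN2
    have h1 := mul_le_mul_of_nonneg_right (hJ1 i) hσ0.le
    have h2 := mul_le_mul_of_nonneg_right hj1 hw0.le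
    have h5 : ((J i : ℝ) + 1) * g * σ = J i * w + w := by rw [hw]; ring
    have h6 : (β i - α i) * σ = β i * σ - α i * σ := by ring
    have h7 : ((j : ℝ) + 1) * w = j * w + w := by ring
    have h8 := (hαβ i).2.2
    have h9 : T ^ (1 + d) ≤ T ^ (1 + d0) :=
      Real.rpow_le_rpow_of_exponent_le (by linarith) (by linarith)
    have hbi : b i = α i * σ + w := rfl
    rw [h5, h6] at h1
    rw [h7] at h2
    rw [hbi]
    linarith
  have hf0a : ∀ k, 0 ≤ f0 k := fun k => le_min (Nat.cast_nonneg _) hK0.le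
  have hf0b : ∀ k, f0 k ≤ K := fun k => min_le_right _ _
  have hfa : ∀ i k, 0 ≤ f i k := fun i k => Finset.sum_nonneg fun j _ =>
    le_min (Nat.cast_nonneg _) hK0.le
  have hfb : ∀ i k, f i k ≤ J i * K := by
    intro i k
    simp only [hf]
    calc _ ≤ ∑ j ∈ Finset.range (J i), K := Finset.sum_le_sum fun j _ => min_le_right _ _
      _ = J i * K := by rw [Finset.sum_const, Finset.card_range, nsmul_eq_mul]
  have hfc : ∀ i k, f i k ≤ (cnt (F i) (T + b i + k * w) (T + b i + k * w + J i * w) : ℝ) := by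
    intro i k
    have hkw : 0 ≤ (k : ℝ) * w := by positivity
    rw [cnt_split (hF i) (by linarith [hb0 i]) hw0.le]
    simp only [hf]
    apply Finset.sum_le_sum
    intro j _
    refine (min_le_left _ _).trans (le_of_eq ?_)
    congr 2 <;> ring
  have hJK0 : ∀ i, 0 < (J i : ℝ) * K := fun i => mul_pos (by linarith [hJpos i]) hK0
  -- the product inequality in a cell
  set q1 : ℝ := K * ∏ i, ((J i : ℝ) * K) with hq1
  have hq10 : 0 ≤ q1 := mul_nonneg hK0.le (Finset.prod_nonneg fun i _ => (hJK0 i).le)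
  have hcellk : ∀ k, q1 * (f0 k / K + ∑ i, f i k / (J i * K) - n) ≤
      (cnt F0 (T + k * w) (T + (k + 1) * w) : ℝ) *
      ∏ i, (cnt (F i) (T + b i + k * w) (T + b i + k * w + J i * w) : ℝ) := by
    intro k
    have h1 := weier (Finset.univ : Finset (Fin n)) (fun i => f i k / (J i * K))
      (fun i _ => div_nonneg (hfa i k) (hJK0 i).le)
      (fun i _ => (div_le_one (hJK0 i)).mpr (hfb i k))
    obtain ⟨w1, w2, w3⟩ := h1
    rw [Finset.card_univ, Fintype.card_fin] at w1
    have h0a : 0 ≤ f0 k / K := div_nonneg (hf0a k) hK0.le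
    have h0b : f0 k / K ≤ 1 := (div_le_one hK0).mpr (hf0b k)
    have h2 : f0 k / K + ∑ i, f i k / (J i * K) - n ≤ f0 k / K * ∏ i, (f i k / (J i * K)) := by
      nlinarith [mul_nonneg (sub_nonneg.mpr h0b) (sub_nonneg.mpr w2)]
    have h3 : q1 * (f0 k / K * ∏ i, (f i k / (J i * K))) = f0 k * ∏ i, f i k := by
      rw [hq1, Finset.prod_div_distrib]
      have h4 : ∏ i, ((J i : ℝ) * K) ≠ 0 := Finset.prod_ne_zero_iff.mpr fun i _ => (hJK0 i).ne'
      revert h4
      generalize ∏ i, ((J i : ℝ) * K) = Q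
      intro h4
      field_simp
    calc q1 * (f0 k / K + ∑ i, f i k / (J i * K) - n) ≤
          q1 * (f0 k / K * ∏ i, (f i k / (J i * K))) := mul_le_mul_of_nonneg_left h2 hq10
      _ = f0 k * ∏ i, f i k := h3
      _ ≤ _ := by
        apply mul_le_mul (min_le_left _ _) (Finset.prod_le_prod (fun i _ => hfa i k)
          (fun i _ => hfc i k)) (Finset.prod_nonneg fun i _ => hfa i k) (Nat.cast_nonneg _)
  refine le_trans ?_ (Finset.sum_le_sum fun k _ => hcellk k)
  rw [← Finset.mul_sum]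
  -- the sum over the cells
  set p : ℝ := 2 - cMTinv with hp
  have hp1 : p ≤ 1 := by rw [hp]; linarith
  have hsum : (((n : ℝ) + 1) * ((p - e) * (1 / (1 + e))) - n) * N ≤
      ∑ k ∈ Finset.range N, (f0 k / K + ∑ i, f i k / (J i * K) - n) := by
    rw [Finset.sum_sub_distrib, Finset.sum_add_distrib, Finset.sum_const, Finset.card_range,
      nsmul_eq_mul, Finset.sum_comm]
    have h1 : (p - e) * (1 / (1 + e)) * N ≤ ∑ k ∈ Finset.range N, f0 k / K := by
      rw [← Finset.sum_div, le_div_iff₀ hK0]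
      refine le_trans (le_of_eq ?_) hf0s
      rw [hK]
      field_simp
    have h2 : ∀ i : Fin n, (p - e) * (1 / (1 + e)) * N ≤
        ∑ k ∈ Finset.range N, f i k / (J i * K) := by
      intro i
      rw [← Finset.sum_div, le_div_iff₀ (hJK0 i)]
      refine le_trans (le_of_eq ?_) (hfs i)
      rw [hK]
      field_simp
    have h3 : (n : ℝ) * ((p - e) * (1 / (1 + e)) * N) ≤
        ∑ i : Fin n, ∑ k ∈ Finset.range N, f i k / (J i * K) := by
      calc (n : ℝ) * ((p - e) * (1 / (1 + e)) * N) =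
            ∑ _i : Fin n, (p - e) * (1 / (1 + e)) * N := by
            rw [Finset.sum_const, Finset.card_univ, Fintype.card_fin, nsmul_eq_mul]
        _ ≤ _ := Finset.sum_le_sum fun i _ => h2 i
    have h4 : (((n : ℝ) + 1) * ((p - e) * (1 / (1 + e))) - n) * N =
        (p - e) * (1 / (1 + e)) * N + n * ((p - e) * (1 / (1 + e)) * N) - N * n := by ring
    rw [h4]
    linarith
  refine le_trans ?_ (mul_le_mul_of_nonneg_left hsum hq10)
  -- the final estimates
  set q : ℝ := ((n : ℝ) + 1) * ((p - e) * (1 / (1 + e))) - n with hq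
  have hqlow : ((n : ℝ) + 1) * p - n - ε / 4 ≤ q := by
    have h1 : p - 2 * e ≤ (p - e) * (1 / (1 + e)) := by
      rw [mul_one_div, le_div_iff₀ (by linarith)]
      have h2 : p * e ≤ 1 * e := mul_le_mul_of_nonneg_right hp1 he0.le
      have h3 : 0 ≤ e * e := by positivity
      have h4 : (p - 2 * e) * (1 + e) = p - 2 * e + p * e - 2 * (e * e) := by ring
      rw [h4]; linarith
    have h5 := mul_le_mul_of_nonneg_left h1 (by positivity : (0 : ℝ) ≤ n + 1)
    rw [hq]
    have h6 : ((n : ℝ) + 1) * (p - 2 * e) = (n + 1) * p - 2 * ((n + 1) * e) := by ring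
    rw [h6] at h5
    linarith
  have hq0 : 0 ≤ q := by linarith
  have hqle : q ≤ 1 := by
    have h1 : (p - e) * (1 / (1 + e)) ≤ 1 := by
      rw [mul_one_div, div_le_one (by linarith)]
      linarith
    have h5 := mul_le_mul_of_nonneg_left h1 (by positivity : (0 : ℝ) ≤ n + 1)
    rw [hq]; linarith
  set P : ℝ := ∏ i, (β i - α i) with hP
  have hP0 : 0 ≤ P := Finset.prod_nonneg fun i _ => by
    have := (hαβ i).2.1
    linarith
  have he1' : 0 ≤ 1 - e := by linarith
  have hprod : (1 - e) ^ n * P ≤ ∏ i, ((J i : ℝ) * K) := by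
    have h1 : (1 - e) ^ n * P = ∏ i, ((1 - e) * (β i - α i)) := by
      rw [Finset.prod_mul_distrib, Finset.prod_const, Finset.card_univ, Fintype.card_fin]
    rw [h1]
    apply Finset.prod_le_prod
    · intro i _
      have := (hαβ i).2.1
      exact mul_nonneg he1' (by linarith)
    · intro i _
      have h2 : (J i : ℝ) * g ≤ J i * K := mul_le_mul_of_nonneg_left hgK (Nat.cast_nonneg _)
      have h3 := hJ2 i
      have h4 : e * L ≤ e * (β i - α i) := by
        apply mul_le_mul_of_nonneg_left _ he0.le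
        linarith [(hαβ i).2.1]
      have h5 : (1 - e) * (β i - α i) = β i - α i - e * (β i - α i) := by ring
      rw [h5]
      linarith
  have hgN : (1 - e) * (H / (2 * Real.pi) * Real.log T) ≤ g * N := by
    have h1 : H / (2 * Real.pi) * Real.log T = H / σ := by rw [hσ]; field_simp
    have h2 : H / σ - g ≤ g * N := by
      have h3 : (H - w) / σ ≤ N * w / σ := div_le_div_of_nonneg_right hNge' hσ0.le
      have h4 : (H - w) / σ = H / σ - g := by rw [hw]; field_simp
      have h5 : N * w / σ = g * N := by rw [hw]; field_simp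
      linarith
    have h6 : g ≤ e * (H / σ) := by
      rw [mul_div_assoc', le_div_iff₀ hσ0]
      rw [div_le_iff₀ he0] at hX2
      have h7 : e * (2 * T ^ (1 - 2 * d)) ≤ e * H := mul_le_mul_of_nonneg_left hHbig he0.le
      have h8 : 0 ≤ e * T ^ (1 - 2 * d) := mul_nonneg he0.le (Real.rpow_nonneg hT0.le _)
      have h9 : g * σ = w := rfl
      rw [h9]
      linarith
    rw [h1]
    have h7 : (1 - e) * (H / σ) = H / σ - e * (H / σ) := by ring
    rw [h7]
    linarith
  have hX0 : 0 ≤ H / (2 * Real.pi) * Real.log T := by positivity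
  have hbern : 1 - ((n : ℝ) + 1) * e ≤ (1 - e) ^ (n + 1) := by
    have h1 := one_add_mul_le_pow (a := -e) (by linarith) (n + 1)
    push_cast at h1
    have h2 : 1 + ((n : ℝ) + 1) * -e = 1 - ((n : ℝ) + 1) * e := by ring
    rw [h2] at h1
    have h3 : 1 + -e = 1 - e := by ring
    rwa [h3] at h1
  have hfin1 : ((n : ℝ) + 1) * p - n - ε ≤ q * (1 - e) ^ (n + 1) := by
    have h1 : q * (1 - ((n : ℝ) + 1) * e) ≤ q * (1 - e) ^ (n + 1) :=
      mul_le_mul_of_nonneg_left hbern hq0
    have h2 : q * (((n : ℝ) + 1) * e) ≤ 1 * (ε / 8) :=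
      mul_le_mul hqle he2 (by positivity) (by norm_num)
    have h3 : q * (1 - ((n : ℝ) + 1) * e) = q - q * (((n : ℝ) + 1) * e) := by ring
    rw [h3] at h1
    linarith
  calc (((n : ℝ) + 1) * p - n - ε) * P * (H / (2 * Real.pi) * Real.log T) ≤
        (q * (1 - e) ^ (n + 1)) * P * (H / (2 * Real.pi) * Real.log T) :=
        mul_le_mul_of_nonneg_right (mul_le_mul_of_nonneg_right hfin1 hP0) hX0
    _ = q * ((1 - e) ^ n * P) * ((1 - e) * (H / (2 * Real.pi) * Real.log T)) := by ring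
    _ ≤ q * (∏ i, ((J i : ℝ) * K)) * (g * N) := by
        apply mul_le_mul (mul_le_mul_of_nonneg_left hprod hq0) hgN
          (mul_nonneg he1' hX0) (mul_nonneg hq0 (Finset.prod_nonneg fun i _ => (hJK0 i).le))
    _ ≤ q * (∏ i, ((J i : ℝ) * K)) * (K * N) := by
        apply mul_le_mul_of_nonneg_left (mul_le_mul_of_nonneg_right hgK (Nat.cast_nonneg _))
        exact mul_nonneg hq0 (Finset.prod_nonneg fun i _ => (hJK0 i).le)
    _ = q1 * (q * N) := by rw [hq1]; ring

end Pool.Agent.TH342.CV
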