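import Pool.Agent.H370R2.Fin1

/-!
# Sampling the square root of the Montgomery-Taylor window
-/

open Complex Filter Topology Set MeasureTheory
open scoped BigOperators ComplexConjugate

namespace Pool.Agent.TH342.CV

open H370 H370.GramAux

/-- the transform of the square root of the window -/
noncomputable def psi (w : ℝ) : ℂ :=
  ∫ ξ in (-1 / 2 : ℝ)..(1 / 2), (Real.sqrt (g0 ξ) : ℂ) * cexp (I * w * ξ)

lemma psi_cont : Continuous psi := by
  unfold psi
  apply intervalIntegral.continuous_parametric_intervalIntegral_of_continuous'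
  have := g0_cont
  simp only [Function.uncurry_def]
  fun_prop

lemma half_lt_half : (-1 / 2 : ℝ) < 1 / 2 := by norm_num

lemma psi_coeff (y : ℝ) (n : ℤ) :
    fourierCoeffOn half_lt_half (fun ξ : ℝ => (Real.sqrt (g0 ξ) : ℂ) * cexp (I * y * ξ)) n =
      psi (y - 2 * Real.pi * n) := by
  rw [fourierCoeffOn_eq_integral]
  unfold psi
  have h1 : (1 / (1 / 2 - -1 / 2) : ℝ) = 1 := by norm_num
  rw [h1, one_smul]
  apply intervalIntegral.integral_congr
  intro ξ _
  simp only
  rw [fourier_coe_apply, smul_eq_mul]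
  have h2 : ((1 / 2 - -1 / 2 : ℝ) : ℂ) = 1 := by norm_num
  rw [h2, div_one]
  have e : cexp (I * ((y - 2 * Real.pi * n : ℝ) : ℂ) * ξ) =
      cexp (2 * Real.pi * I * ((-n : ℤ) : ℂ) * ξ) * cexp (I * y * ξ) := by
    rw [← Complex.exp_add]
    congr 1
    push_cast
    ring
  rw [e]
  ring

lemma int_g0 : ∫ ξ in (-1 / 2 : ℝ)..(1 / 2), g0 ξ = 1 := by
  have h := kap_re 0
  have h0 : kap ((0 : ℝ) : ℂ) = 1 := by rw [Complex.ofReal_zero]; exact kap_zero
  rw [h0] at h
  simpa using h.symm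

theorem parseval (y : ℝ) : HasSum (fun n : ℤ => ‖psi (y - 2 * Real.pi * n)‖ ^ 2) 1 := by
  have hc : Continuous (fun ξ : ℝ => (Real.sqrt (g0 ξ) : ℂ) * cexp (I * y * ξ)) := by
    have := g0_cont
    fun_prop
  have hL2 : MemLp (fun ξ : ℝ => (Real.sqrt (g0 ξ) : ℂ) * cexp (I * y * ξ)) 2
      (volume.restrict (Ioc (-1 / 2 : ℝ) (1 / 2))) := by
    rw [memLp_two_iff_integrable_sq_norm hc.aestronglyMeasurable]
    exact (hc.norm.pow 2).integrableOn_Ioc
  have h := hasSum_sq_fourierCoeffOn half_lt_half hL2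
  simp_rw [psi_coeff] at h
  have h1 : ((1 / 2 - -1 / 2 : ℝ)⁻¹ • ∫ x in (-1 / 2 : ℝ)..(1 / 2),
      ‖(Real.sqrt (g0 x) : ℂ) * cexp (I * y * x)‖ ^ 2) = 1 := by
    have h2 : (1 / 2 - -1 / 2 : ℝ)⁻¹ = 1 := by norm_num
    rw [h2, one_smul]
    refine Eq.trans ?_ int_g0
    apply intervalIntegral.integral_congr
    intro x hx
    rw [uIcc_of_le (by norm_num)] at hx
    simp only
    have e : ‖cexp (I * y * x)‖ = 1 := by
      have : I * (y : ℂ) * x = ((y * x : ℝ) : ℂ) * I := by push_cast; ring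
      rw [this, Complex.norm_exp_ofReal_mul_I]
    rw [norm_mul, e, mul_one, Complex.norm_real, Real.norm_of_nonneg (Real.sqrt_nonneg _),
      Real.sq_sqrt (g0_nonneg hx.1 hx.2)]
  rw [h1] at h
  exact h

/-- uniform convergence -/
theorem tail {η : ℝ} (hη : 0 < η) : ∃ R : ℕ, ∀ y : ℝ, 0 ≤ y → y ≤ 2 * Real.pi →
    1 - η ≤ ∑ n ∈ Finset.Icc (-(R : ℤ)) R, ‖psi (y - 2 * Real.pi * n)‖ ^ 2 := by
  set F : ℕ → ℝ → ℝ := fun R y => ∑ n ∈ Finset.Icc (-(R : ℤ)) R, ‖psi (y - 2 * Real.pi * n)‖ ^ 2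
    with hF
  have hcont : ∀ R, Continuous (F R) := by
    intro R
    simp only [hF]
    have := psi_cont
    fun_prop
  have hmono : ∀ y, Monotone (F · y) := by
    intro y R R' h
    simp only [hF]
    apply Finset.sum_le_sum_of_subset_of_nonneg
    · apply Finset.Icc_subset_Icc
      · have : (R : ℤ) ≤ R' := by exact_mod_cast h
        linarith
      · exact_mod_cast h
    · intro n _ _
      positivity
  have hlim : ∀ y, Tendsto (F · y) atTop (𝓝 1) := by
    intro y
    have h := (parseval y)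
    have ht : Tendsto (fun R : ℕ => Finset.Icc (-(R : ℤ)) R) atTop atTop := by
      apply Filter.tendsto_atTop_finset_of_monotone
      · intro R R' h
        apply Finset.Icc_subset_Icc
        · have : (R : ℤ) ≤ R' := by exact_mod_cast h
          linarith
        · exact_mod_cast h
      · intro n
        refine ⟨n.natAbs, ?_⟩
        rw [Finset.mem_Icc]
        constructor <;> omega
    exact h.comp ht
  have hU := Monotone.tendstoUniformlyOn_of_forall_tendsto (F := F) (f := fun _ => (1 : ℝ))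
    (s := Icc 0 (2 * Real.pi)) isCompact_Icc (fun R => (hcont R).continuousOn)
    (fun y _ => hmono y) continuousOn_const (fun y _ => hlim y)
  rw [Metric.tendstoUniformlyOn_iff] at hU
  obtain ⟨R, hR⟩ := (hU η hη).exists
  refine ⟨R, fun y h0 h1 => ?_⟩
  have := hR y ⟨h0, h1⟩
  rw [Real.dist_eq] at this
  have := (abs_lt.mp this).2
  simp only [hF] at this
  linarith

/-- the samples near `y` -/
theorem tail' {η : ℝ} (hη : 0 < η) : ∃ R : ℕ, ∀ y : ℝ, ∀ J : Finset ℤ,
    (∀ n : ℤ, |y / (2 * Real.pi) - n| ≤ R + 1 → n ∈ J) →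
    1 - η ≤ ∑ n ∈ J, ‖psi (y - 2 * Real.pi * n)‖ ^ 2 := by
  obtain ⟨R, hR⟩ := tail hη
  refine ⟨R, fun y J hJ => ?_⟩
  have hpi : 0 < 2 * Real.pi := by positivity
  set k : ℤ := ⌊y / (2 * Real.pi)⌋ with hk
  have h1 : (k : ℝ) ≤ y / (2 * Real.pi) := Int.floor_le _
  have h2 : y / (2 * Real.pi) < k + 1 := Int.lt_floor_add_one _
  have h3 := hR (y - 2 * Real.pi * k) (by
    rw [le_div_iff₀ hpi] at h1; linarith) (by
    rw [div_lt_iff₀ hpi] at h2; linarith)
  refine h3.trans ?_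
  have e : ∑ n ∈ Finset.Icc (-(R : ℤ)) R, ‖psi (y - 2 * Real.pi * k - 2 * Real.pi * n)‖ ^ 2 =
      ∑ n ∈ (Finset.Icc (-(R : ℤ)) R).image (fun n => n + k), ‖psi (y - 2 * Real.pi * n)‖ ^ 2 := by
    rw [Finset.sum_image (fun a _ b _ h => by simpa using h)]
    refine Finset.sum_congr rfl fun n _ => ?_
    congr 3
    push_cast
    ring
  rw [e]
  apply Finset.sum_le_sum_of_subset_of_nonneg
  · intro m hm
    rw [Finset.mem_image] at hm
    obtain ⟨n, hn, rfl⟩ := hm
    rw [Finset.mem_Icc] at hn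
    apply hJ
    have h4 : (-(R : ℝ)) ≤ n := by exact_mod_cast hn.1
    have h5 : (n : ℝ) ≤ R := by exact_mod_cast hn.2
    rw [abs_le]
    push_cast
    constructor <;> linarith
  · intro n _ _
    positivity

end Pool.Agent.TH342.CV
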