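import Pool.Agent.TH342.CV.LA
import Pool.Agent.TH342.CV.Fourier

/-!
# Test matrices for the points of one cell
-/

open Complex Filter Topology Set MeasureTheory ProbabilityTheory
open scoped BigOperators ComplexConjugate

namespace Pool.Agent.TH342.CV

open H370 H370.GramAux

/-- the sampling functions -/
noncomputable def uf (c : ℝ) (n : ℤ) (p : ℝ × ℝ) : ℂ :=
  cexp (I * ((2 * Real.pi * n * p.1 + c * p.2 : ℝ) : ℂ))

lemma uf_cont (c : ℝ) (n : ℤ) : Continuous (uf c n) := by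
  unfold uf
  fun_prop

lemma uf_norm (c : ℝ) (n : ℤ) (p : ℝ × ℝ) : ‖uf c n p‖ = 1 := by
  unfold uf
  rw [mul_comm, Complex.norm_exp_ofReal_mul_I]

instance : IsFiniteMeasure mu2 := by
  unfold mu2
  infer_instance

lemma uf_memLp (c : ℝ) (n : ℤ) : MemLp (uf c n) 2 mu2 :=
  MemLp.of_bound (uf_cont c n).aestronglyMeasurable 1
    (Filter.Eventually.of_forall fun p => (uf_norm c n p).le)

lemma int_exp (k : ℤ) : ∫ ξ in Ioc (-1 / 2 : ℝ) (1 / 2), cexp (I * (2 * Real.pi * k) * ξ) =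
    if k = 0 then 1 else 0 := by
  rw [← intervalIntegral.integral_of_le (by norm_num)]
  split_ifs with h
  · subst h
    simp
    norm_num
  · have hk : (I * (2 * Real.pi * k) : ℂ) ≠ 0 := by
      have hpi : (Real.pi : ℂ) ≠ 0 := by exact_mod_cast Real.pi_ne_zero
      have hk : (k : ℂ) ≠ 0 := by exact_mod_cast h
      simp [hpi, hk]
    rw [integral_exp_mul_complex hk]
    have e : cexp (I * (2 * Real.pi * k) * ((1 / 2 : ℝ) : ℂ)) =
        cexp (I * (2 * Real.pi * k) * ((-1 / 2 : ℝ) : ℂ)) := by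
      rw [Complex.exp_eq_exp_iff_exists_int]
      refine ⟨k, ?_⟩
      push_cast
      ring
    rw [e, sub_self, zero_div]

lemma uf_inner (c : ℝ) (n m : ℤ) :
    ∫ p, conj (uf c n p) * uf c m p ∂mu2 = if n = m then 1 else 0 := by
  have h1 : ∀ p : ℝ × ℝ, conj (uf c n p) * uf c m p =
      cexp (I * (2 * Real.pi * ((m - n : ℤ) : ℂ)) * p.1) * (fun _ : ℝ => (1 : ℂ)) p.2 := by
    intro p
    unfold uf
    rw [← Complex.exp_conj, ← Complex.exp_add, mul_one]
    congr 1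
    simp only [map_mul, Complex.conj_I, Complex.conj_ofReal]
    push_cast
    ring
  simp_rw [h1]
  unfold mu2
  rw [integral_prod_mul (fun ξ : ℝ => cexp (I * (2 * Real.pi * ((m - n : ℤ) : ℂ)) * ξ))
    (fun _ : ℝ => (1 : ℂ)), int_exp]
  have h2 : (m - n = 0) ↔ (n = m) := by constructor <;> intro h <;> omega
  by_cases h : n = m
  · rw [if_pos (h2.2 h), if_pos h]; simp
  · rw [if_neg (fun h' => h (h2.1 h')), if_neg h]; simp

lemma uk_inner (c Λ x : ℝ) (n : ℤ) :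
    ∫ p, conj (uf c n p) * kf Λ x p ∂mu2 =
      psi (Λ * x - 2 * Real.pi * n) * cexp (-(x - c) ^ 2 / 8) := by
  have h1 : ∀ p : ℝ × ℝ, conj (uf c n p) * kf Λ x p =
      ((Real.sqrt (g0 p.1) : ℂ) * cexp (I * ((Λ * x - 2 * Real.pi * n : ℝ) : ℂ) * p.1)) *
        cexp ((I * (x - c : ℂ)) * p.2) := by
    intro p
    unfold uf kf
    rw [← Complex.exp_conj]
    have e : cexp (conj (I * ((2 * Real.pi * n * p.1 + c * p.2 : ℝ) : ℂ))) *
        cexp (I * x * (Λ * p.1 + p.2)) =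
        cexp (I * ((Λ * x - 2 * Real.pi * n : ℝ) : ℂ) * p.1) * cexp ((I * (x - c : ℂ)) * p.2) := by
      rw [← Complex.exp_add, ← Complex.exp_add]
      congr 1
      simp only [map_mul, Complex.conj_I, Complex.conj_ofReal]
      push_cast
      ring
    linear_combination (Real.sqrt (g0 p.1) : ℂ) * e
  simp_rw [h1]
  unfold mu2
  rw [integral_prod_mul (fun ξ : ℝ => (Real.sqrt (g0 ξ) : ℂ) *
    cexp (I * ((Λ * x - 2 * Real.pi * n : ℝ) : ℂ) * ξ))
    (fun y : ℝ => cexp ((I * (x - c : ℂ)) * y))]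
  congr 1
  · unfold psi
    rw [intervalIntegral.integral_of_le (by norm_num)]
  · have := complexMGF_id_gaussianReal (μ := 0) (v := 1 / 4) (I * (x - c : ℂ))
    unfold complexMGF at this
    simp only [id] at this
    rw [this]
    congr 1
    push_cast
    rw [mul_pow, Complex.I_sq]
    ring

/-- the sampling vectors -/
noncomputable def UV (c : ℝ) (n : ℤ) : Lp ℂ 2 mu2 := (uf_memLp c n).toLp _

/-- the vectors of the points -/
noncomputable def KV (Λ : ℝ) (z : ℂ) : Lp ℂ 2 mu2 := (kf_memLp Λ z).toLp _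

lemma KV_inner (Λ : ℝ) (z w : ℂ) : inner ℂ (KV Λ z) (KV Λ w) = phi Λ (w - conj z) := by
  rw [L2.inner_def, ← kf_inner]
  apply integral_congr_ae
  unfold KV
  filter_upwards [(kf_memLp Λ z).coeFn_toLp, (kf_memLp Λ w).coeFn_toLp] with p h1 h2
  rw [h1, h2, RCLike.inner_apply, mul_comm]

lemma UV_inner (c : ℝ) (n m : ℤ) : inner ℂ (UV c n) (UV c m) = if n = m then (1 : ℂ) else 0 := by
  rw [L2.inner_def, ← uf_inner c n m]
  apply integral_congr_ae
  unfold UV
  filter_upwards [(uf_memLp c n).coeFn_toLp, (uf_memLp c m).coeFn_toLp] with p h1 h2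
  rw [h1, h2, RCLike.inner_apply, mul_comm]

lemma UK_inner (c Λ x : ℝ) (n : ℤ) : inner ℂ (UV c n) (KV Λ x) =
    psi (Λ * x - 2 * Real.pi * n) * cexp (-(x - c) ^ 2 / 8) := by
  rw [L2.inner_def, ← uk_inner]
  apply integral_congr_ae
  unfold UV KV
  filter_upwards [(uf_memLp c n).coeFn_toLp, (kf_memLp Λ x).coeFn_toLp] with p h1 h2
  rw [h1, h2, RCLike.inner_apply, mul_comm]

lemma UV_orth (c : ℝ) : Orthonormal ℂ (UV c) := by
  classical
  rw [orthonormal_iff_ite]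
  intro n m
  exact UV_inner c n m

lemma phi_real (Λ x y : ℝ) : phi Λ ((y : ℂ) - x) = (((phi Λ ((x : ℂ) - y)).re : ℝ) : ℂ) := by
  have h1 := KV_inner Λ (x : ℂ) (y : ℂ)
  have h2 := KV_inner Λ (y : ℂ) (x : ℂ)
  rw [Complex.conj_ofReal] at h1 h2
  have h3 := inner_conj_symm (𝕜 := ℂ) (KV Λ (x : ℂ)) (KV Λ (y : ℂ))
  rw [h1, h2] at h3
  have h4 : phi Λ ((x : ℂ) - y) = phi Λ ((y : ℂ) - x) := by
    rw [← phi_even, neg_sub]
  rw [h4] at h3
  rw [h4]
  exact (Complex.conj_eq_iff_re.mp h3).symm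

/-- test matrices for the points of a short interval -/
theorem cell {η : ℝ} (hη0 : 0 < η) (hη1 : η ≤ 1) : ∃ R : ℕ, ∀ Λ A w : ℝ, 0 < Λ → 0 ≤ w →
    w ^ 2 ≤ η / 2 → ∀ S : Finset ℝ, (∀ x ∈ S, A ≤ x ∧ x ≤ A + w) →
      ∃ Y : ℝ → ℝ → ℝ, (∀ v : ℝ → ℂ, ∑ x ∈ S, ∑ y ∈ S, Y x y * (conj (v x) * v y).re ≤
          ∑ x ∈ S, ‖v x‖ ^ 2) ∧
        (S.card : ℝ) - YT Λ S Y ≤ (1 + η) ^ 2 * (Λ * w / (2 * Real.pi) + 2 * R + 3) := by
  classical
  obtain ⟨R, hR⟩ := tail' (η := η / 4) (by linarith)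
  refine ⟨R, fun Λ A w hΛ hw hwη S hS => ?_⟩
  have hpi : 0 < 2 * Real.pi := by positivity
  set a : ℝ := Λ * A / (2 * Real.pi) - (R + 1) with ha
  set b : ℝ := Λ * (A + w) / (2 * Real.pi) + (R + 1) with hb
  set J : Finset ℤ := Finset.Icc ⌈a⌉ ⌊b⌋ with hJ
  have hab : a ≤ b := by
    rw [ha, hb, mul_add, add_div]
    have : 0 ≤ Λ * w / (2 * Real.pi) := by positivity
    have : (0 : ℝ) ≤ R := Nat.cast_nonneg R
    linarith
  have hcard : (J.card : ℝ) ≤ Λ * w / (2 * Real.pi) + 2 * R + 3 := by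
    rw [hJ, Int.card_Icc]
    have h1 : ((⌊b⌋ + 1 - ⌈a⌉).toNat : ℝ) ≤ max (((⌊b⌋ + 1 - ⌈a⌉ : ℤ)) : ℝ) 0 := by
      rcases le_total 0 (⌊b⌋ + 1 - ⌈a⌉) with h | h
      · have : (((⌊b⌋ + 1 - ⌈a⌉).toNat : ℤ) : ℝ) = ((⌊b⌋ + 1 - ⌈a⌉ : ℤ) : ℝ) := by
          rw [Int.toNat_of_nonneg h]
        rw [← this]
        exact le_max_left _ _
      · rw [Int.toNat_of_nonpos h]
        simp
    refine h1.trans (max_le ?_ ?_)
    · push_cast
      have h2 := Int.floor_le b
      have h3 := Int.le_ceil a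
      have : b - a = Λ * w / (2 * Real.pi) + 2 * (R + 1) := by rw [ha, hb]; ring
      linarith
    · have : 0 ≤ Λ * w / (2 * Real.pi) := by positivity
      have : (0 : ℝ) ≤ R := Nat.cast_nonneg R
      linarith
  set x : {x // x ∈ S} → Lp ℂ 2 mu2 := fun i => KV Λ ((i : ℝ) : ℂ) with hx
  set M : {x // x ∈ S} → {x // x ∈ S} → ℝ := fun i j => (phi Λ (((i : ℝ) : ℂ) - ((j : ℝ) : ℂ))).re
    with hM
  have hsamp : ∀ i : {x // x ∈ S}, 1 ≤ (1 + η) * ∑ j ∈ J, ‖inner ℂ (UV A j) (x i)‖ ^ 2 := by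
    intro i
    obtain ⟨hi1, hi2⟩ := hS i i.2
    have h1 := hR (Λ * i) J (by
      intro n hn
      rw [hJ, Finset.mem_Icc]
      rw [abs_le] at hn
      have h2 : Λ * A / (2 * Real.pi) ≤ Λ * i / (2 * Real.pi) := by
        apply div_le_div_of_nonneg_right _ hpi.le
        exact mul_le_mul_of_nonneg_left hi1 hΛ.le
      have h3 : Λ * i / (2 * Real.pi) ≤ Λ * (A + w) / (2 * Real.pi) := by
        apply div_le_div_of_nonneg_right _ hpi.le
        exact mul_le_mul_of_nonneg_left hi2 hΛ.le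
      constructor
      · rw [Int.ceil_le, ha]; linarith [hn.2]
      · rw [Int.le_floor, hb]; linarith [hn.1])
    have h2 : ∀ j : ℤ, ‖inner ℂ (UV A j) (x i)‖ ^ 2 =
        ‖psi (Λ * i - 2 * Real.pi * j)‖ ^ 2 * Real.exp (-(i - A) ^ 2 / 4) := by
      intro j
      simp only [hx]
      rw [UK_inner, norm_mul, mul_pow]
      congr 1
      have e : (-(((i : ℝ) : ℂ) - (A : ℂ)) ^ 2 / 8) = ((-((i : ℝ) - A) ^ 2 / 8 : ℝ) : ℂ) := by
        push_cast; ring
      rw [e, Complex.norm_exp_ofReal, ← Real.exp_nat_mul]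
      congr 1
      push_cast
      ring
    simp_rw [h2]
    rw [← Finset.sum_mul]
    have h3 : 1 - η / 8 ≤ Real.exp (-((i : ℝ) - A) ^ 2 / 4) := by
      have h4 := Real.add_one_le_exp (-((i : ℝ) - A) ^ 2 / 4)
      have h5 : ((i : ℝ) - A) ^ 2 ≤ w ^ 2 := pow_le_pow_left₀ (by linarith) (by linarith) 2
      linarith
    have h6 : (1 - η / 4) * (1 - η / 8) ≤
        (∑ j ∈ J, ‖psi (Λ * i - 2 * Real.pi * j)‖ ^ 2) * Real.exp (-((i : ℝ) - A) ^ 2 / 4) :=
      mul_le_mul h1 h3 (by linarith) (Finset.sum_nonneg fun _ _ => by positivity)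
    have h7 : 1 ≤ (1 + η) * ((1 - η / 4) * (1 - η / 8)) := by
      nlinarith [mul_pos hη0 hη0, mul_nonneg hη0.le (sub_nonneg.2 hη1),
        mul_nonneg (mul_pos hη0 hη0).le hη0.le]
    exact h7.trans (mul_le_mul_of_nonneg_left h6 (by linarith))
  obtain ⟨D, hD1, hD2⟩ := key x (UV A) J M (fun i j => by
      simp only [hx, hM]
      rw [KV_inner, Complex.conj_ofReal]
      exact phi_real Λ i j) (fun i => by
      simp only [hM]
      rw [sub_self, phi_zero]; simp) (UV_orth A) hη0.le hη1 hsamp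
  set Y : ℝ → ℝ → ℝ := fun p q => (if h : p ∈ S ∧ q ∈ S then D ⟨p, h.1⟩ ⟨q, h.2⟩ else 0) -
    if p = q then 1 else 0 with hY
  have hYv : ∀ i j : {x // x ∈ S}, Y i j = D i j - if (i : ℝ) = j then 1 else 0 := by
    intro i j
    simp only [hY]
    rw [dif_pos ⟨i.2, j.2⟩]
  have hdiag : ∀ i : {x // x ∈ S}, ∀ g : {x // x ∈ S} → ℝ,
      ∑ j : {x // x ∈ S}, (if (i : ℝ) = j then (1 : ℝ) else 0) * g j = g i := by
    intro i g
    rw [Finset.sum_eq_single i]
    · simp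
    · intro j _ hj
      rw [if_neg (fun h => hj (Subtype.ext h.symm)), zero_mul]
    · simp
  refine ⟨Y, fun v => ?_, ?_⟩
  · rw [← Finset.sum_coe_sort S]
    have e1 : ∀ i : {x // x ∈ S}, ∑ y ∈ S, Y i y * (conj (v i) * v y).re =
        ∑ j : {x // x ∈ S}, D i j * (conj (v i) * v j).re - ‖v i‖ ^ 2 := by
      intro i
      rw [← Finset.sum_coe_sort S]
      simp_rw [hYv, sub_mul]
      rw [Finset.sum_sub_distrib, hdiag i (fun j => (conj (v i) * v j).re)]
      congr 1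
      rw [Complex.conj_mul', ← Complex.ofReal_pow, Complex.ofReal_re]
    simp_rw [e1]
    rw [Finset.sum_sub_distrib]
    have h := hD1 (fun i => v i)
    have e2 : ∑ i : {x // x ∈ S}, ‖v i‖ ^ 2 = ∑ x ∈ S, ‖v x‖ ^ 2 :=
      Finset.sum_coe_sort S (fun x => ‖v x‖ ^ 2)
    rw [e2] at h ⊢
    linarith
  · have hcardS : (Fintype.card {x // x ∈ S} : ℝ) = S.card := by rw [Fintype.card_coe]
    have e0 : ∑ x ∈ S, ∑ y ∈ S, Y x y * ((phi Λ ((x : ℂ) - y)).re - if x = y then 1 else 0) =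
        ∑ i, ∑ j, D i j * M i j - ∑ i, D i i := by
      rw [← Finset.sum_coe_sort S, ← Finset.sum_sub_distrib]
      refine Finset.sum_congr rfl fun i _ => ?_
      rw [← Finset.sum_coe_sort S]
      have e : ∀ j : {x // x ∈ S}, Y i j * ((phi Λ (((i : ℝ) : ℂ) - ((j : ℝ) : ℂ))).re -
          if (i : ℝ) = j then 1 else 0) =
          D i j * M i j - (if (i : ℝ) = j then (1 : ℝ) else 0) * D i j := by
        intro j
        rw [hYv]
        by_cases h : (i : ℝ) = j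
        · have : i = j := Subtype.ext h
          subst this
          simp only [hM]
          rw [sub_self, phi_zero]
          simp
        · rw [if_neg h]
          simp only [hM]
          ring
      simp_rw [e]
      rw [Finset.sum_sub_distrib, hdiag i (fun j => D i j)]
    have e3 : ∑ x ∈ S, ∑ y ∈ S, (Y x y) ^ 2 =
        ∑ i, ∑ j, D i j ^ 2 - 2 * ∑ i, D i i + S.card := by
      rw [← hcardS, ← Finset.sum_coe_sort S]
      have e4 : (Fintype.card {x // x ∈ S} : ℝ) = ∑ i : {x // x ∈ S}, (1 : ℝ) := by simp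
      rw [e4, Finset.mul_sum, ← Finset.sum_sub_distrib, ← Finset.sum_add_distrib]
      refine Finset.sum_congr rfl fun i _ => ?_
      rw [← Finset.sum_coe_sort S]
      have e : ∀ j : {x // x ∈ S}, (Y i j) ^ 2 = D i j ^ 2 -
          (if (i : ℝ) = j then (1 : ℝ) else 0) * (2 * D i j) +
          (if (i : ℝ) = j then (1 : ℝ) else 0) * 1 := by
        intro j
        rw [hYv]
        split_ifs <;> ring
      simp_rw [e]
      rw [Finset.sum_add_distrib, Finset.sum_sub_distrib, hdiag i (fun j => 2 * D i j),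
        hdiag i (fun _ => 1)]
    unfold YT
    rw [e0, e3]
    rw [hcardS] at hD2
    have h4 : (1 + η) ^ 2 * (J.card : ℝ) ≤ (1 + η) ^ 2 * (Λ * w / (2 * Real.pi) + 2 * R + 3) :=
      mul_le_mul_of_nonneg_left hcard (by positivity)
    linarith

end Pool.Agent.TH342.CV
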