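import Pool.Agent.TH342.CV.Cell
import Pool.Agent.H344R2.Close
import Pool.Agent.H295R2.Iso.A
import Pool.Agent.H24R3.PairsShort2

/-!
# The measure of the neighbourhoods of the simple critical zeros
-/

open Complex Filter Topology Set MeasureTheory
open scoped BigOperators ComplexConjugate

namespace Pool.Agent.TH342.CV

open H370

/-- gluing the test matrices of the cells -/
theorem many {Λ w K : ℝ}
    (hcell : ∀ k : ℤ, ∀ S : Finset ℝ, (∀ x ∈ S, ⌊x / w⌋ = k) →
      ∃ Y : ℝ → ℝ → ℝ, (∀ v : ℝ → ℂ, ∑ x ∈ S, ∑ y ∈ S, Y x y * (conj (v x) * v y).re ≤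
          ∑ x ∈ S, ‖v x‖ ^ 2) ∧ (S.card : ℝ) - YT Λ S Y ≤ K) :
    ∀ (n : ℕ) (S : Finset ℝ), (S.image (fun x => ⌊x / w⌋)).card = n →
      ∃ Y : ℝ → ℝ → ℝ, (∀ v : ℝ → ℂ, ∑ x ∈ S, ∑ y ∈ S, Y x y * (conj (v x) * v y).re ≤
          ∑ x ∈ S, ‖v x‖ ^ 2) ∧ (S.card : ℝ) - YT Λ S Y ≤ K * n := by
  classical
  intro n
  induction n with
  | zero =>
    intro S hS
    have h1 : S = ∅ := by
      rw [Finset.card_eq_zero, Finset.image_eq_empty] at hS
      exact hS
    subst h1
    refine ⟨fun _ _ => 0, fun v => by simp, ?_⟩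
    simp [YT]
  | succ n ih =>
    intro S hS
    obtain ⟨k, hk⟩ : (S.image (fun x => ⌊x / w⌋)).Nonempty := by
      rw [← Finset.card_pos, hS]; omega
    set A := S.filter (fun x => ⌊x / w⌋ = k) with hA
    set B := S.filter (fun x => ¬ ⌊x / w⌋ = k) with hB
    have hAB : Disjoint B A := by
      rw [disjoint_comm]; exact Finset.disjoint_filter_filter_not S S _
    have hun : B ∪ A = S := by
      rw [Finset.union_comm]; exact Finset.filter_union_filter_not_eq _ S
    have hBc : (B.image (fun x => ⌊x / w⌋)).card = n := by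
      have e : B.image (fun x => ⌊x / w⌋) = (S.image (fun x => ⌊x / w⌋)).erase k := by
        ext j
        simp only [Finset.mem_image, Finset.mem_erase, hB, Finset.mem_filter]
        constructor
        · rintro ⟨x, ⟨h1, h2⟩, rfl⟩
          exact ⟨h2, x, h1, rfl⟩
        · rintro ⟨h1, x, h2, rfl⟩
          exact ⟨x, ⟨h2, h1⟩, rfl⟩
      rw [e, Finset.card_erase_of_mem hk, hS]
      omega
    obtain ⟨YB, hYB, hYBc⟩ := ih B hBc
    obtain ⟨YA, hYA, hYAc⟩ := hcell k A (fun x hx => (Finset.mem_filter.mp hx).2)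
    obtain ⟨Y, hY, hYT⟩ := H344.glue Λ B A hAB YB YA hYB hYA
    rw [hun] at hY hYT
    refine ⟨Y, hY, ?_⟩
    rw [hYT]
    have hc : (S.card : ℝ) = B.card + A.card := by
      rw [← hun, Finset.card_union_of_disjoint hAB]; push_cast; ring
    rw [hc]
    push_cast
    linarith

/-- the union of the cells preceding the occupied ones -/
lemma cells_volume {w T H : ℝ} (hw : 0 < w) (S : Finset ℝ) (hS : ∀ x ∈ S, T < x ∧ x ≤ T + H) :
    ENNReal.ofReal (((S.image (fun x => ⌊x / w⌋)).card - 2) * w) ≤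
      volume {t : ℝ | T < t ∧ t < T + H ∧ ∃ x ∈ S, t < x ∧ x < t + 2 * w} := by
  classical
  set I := S.image (fun x => ⌊x / w⌋) with hI
  set K := I.filter (fun k : ℤ => T < ((k : ℝ) - 1) * w) with hK
  have hcard : (I.card : ℝ) - 2 ≤ K.card := by
    have hsub : I ⊆ K ∪ {⌊T / w⌋, ⌊T / w⌋ + 1} := by
      intro k hk
      rw [Finset.mem_union]
      by_cases h : T < ((k : ℝ) - 1) * w
      · left
        rw [hK, Finset.mem_filter]
        exact ⟨hk, h⟩
      · right
        rw [hI, Finset.mem_image] at hk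
        obtain ⟨x, hx, rfl⟩ := hk
        have h1 := (hS x hx).1
        have h2 : x / w < ⌊x / w⌋ + 1 := Int.lt_floor_add_one _
        have h3 : T / w < x / w := div_lt_div_of_pos_right h1 hw
        have h4 : ((⌊x / w⌋ : ℝ) - 1) ≤ T / w := by
          rw [le_div_iff₀ hw]; exact not_lt.mp h
        have h5 : ((⌊T / w⌋ : ℤ) : ℝ) ≤ T / w := Int.floor_le _
        have h6 : T / w < ⌊T / w⌋ + 1 := Int.lt_floor_add_one _
        have h7 : ⌊T / w⌋ < ⌊x / w⌋ + 1 := by
          have : ((⌊T / w⌋ : ℤ) : ℝ) < ((⌊x / w⌋ + 1 : ℤ) : ℝ) := by push_cast; linarith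
          exact_mod_cast this
        have h8 : ⌊x / w⌋ - 1 < ⌊T / w⌋ + 1 := by
          have : ((⌊x / w⌋ - 1 : ℤ) : ℝ) < ((⌊T / w⌋ + 1 : ℤ) : ℝ) := by push_cast; linarith
          exact_mod_cast this
        rw [Finset.mem_insert, Finset.mem_singleton]
        omega
    have h1 := (Finset.card_le_card hsub).trans (Finset.card_union_le _ _)
    have h2 : ({⌊T / w⌋, ⌊T / w⌋ + 1} : Finset ℤ).card ≤ 2 := Finset.card_le_two
    have h3 : (I.card : ℝ) ≤ K.card + 2 := by exact_mod_cast h1.trans (by omega)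
    linarith
  have hvol : volume (⋃ k ∈ K, Ico (((k : ℝ) - 1) * w) ((k : ℝ) * w)) =
      ENNReal.ofReal (K.card * w) := by
    rw [measure_biUnion_finset]
    · have : ∀ k ∈ K, volume (Ico (((k : ℝ) - 1) * w) ((k : ℝ) * w)) = ENNReal.ofReal w := by
        intro k _
        rw [Real.volume_Ico]
        congr 1
        ring
      rw [Finset.sum_congr rfl this, Finset.sum_const, nsmul_eq_mul, ENNReal.ofReal_mul (by positivity),
        ENNReal.ofReal_natCast]
    · intro i _ j _ hij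
      simp only [Function.onFun]
      rw [Set.disjoint_left]
      rintro t ⟨h1, h2⟩ ⟨h3, h4⟩
      apply hij
      have h5 : ((i : ℝ) - 1) < j := lt_of_mul_lt_mul_right (h1.trans_lt h4) hw.le
      have h6 : ((j : ℝ) - 1) < i := lt_of_mul_lt_mul_right (h3.trans_lt h2) hw.le
      have h7 : i - 1 < j := by exact_mod_cast (by push_cast; exact h5 : ((i - 1 : ℤ) : ℝ) < j)
      have h8 : j - 1 < i := by exact_mod_cast (by push_cast; exact h6 : ((j - 1 : ℤ) : ℝ) < i)
      omega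
    · intro k _
      exact measurableSet_Ico
  calc ENNReal.ofReal (((I.card : ℝ) - 2) * w) ≤ ENNReal.ofReal (K.card * w) :=
        ENNReal.ofReal_le_ofReal (mul_le_mul_of_nonneg_right hcard hw.le)
    _ = volume (⋃ k ∈ K, Ico (((k : ℝ) - 1) * w) ((k : ℝ) * w)) := hvol.symm
    _ ≤ _ := by
        apply measure_mono
        intro t ht
        simp only [Set.mem_iUnion] at ht
        obtain ⟨k, hk, h1, h2⟩ := ht
        rw [hK, Finset.mem_filter] at hk
        obtain ⟨hkI, hkT⟩ := hk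
        rw [hI, Finset.mem_image] at hkI
        obtain ⟨x, hx, rfl⟩ := hkI
        have h3 : ((⌊x / w⌋ : ℤ) : ℝ) ≤ x / w := Int.floor_le _
        have h4 : x / w < ⌊x / w⌋ + 1 := Int.lt_floor_add_one _
        rw [le_div_iff₀ hw] at h3
        rw [div_lt_iff₀ hw] at h4
        have h5 := (hS x hx).2
        refine ⟨by linarith, by linarith, x, hx, by linarith, by nlinarith⟩

/-- `x` is the ordinate of a simple zero of `F` on the critical line -/
def SimpleAt (F : ℂ → ℂ) (x : ℝ) : Prop :=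
  F (1 / 2 + x * I) = 0 ∧ analyticOrderNatAt F (1 / 2 + x * I) = 1

lemma SF_simple {F : ℂ → ℂ} (hF : GoodL F) {U1 U2 : ℝ} (hU : 1 ≤ U1) {x : ℝ}
    (hx : x ∈ SF F U1 U2) : SimpleAt F x := by
  have h2 := H344.mem_SF.mp hx
  have h3 := (mem_Zf hF hU).mp h2.1
  have e : (1 / 2 + I * (x : ℂ)) = 1 / 2 + x * I := by ring
  rw [e] at h2 h3
  exact ⟨h3.2.2.2.2, h2.2⟩

lemma poly1 {ε : ℝ} (hε : 0 < ε) (hε1 : ε ≤ 1) : (1 + ε / 24) ^ 3 ≤ 1 + ε / 6 := by
  nlinarith [mul_pos hε hε, mul_pos (mul_pos hε hε) hε, mul_nonneg hε.le (sub_nonneg.2 hε1),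
    mul_nonneg (mul_pos hε hε).le (sub_nonneg.2 hε1)]

lemma poly2 {ε p : ℝ} (hε : 0 < ε) (hp : p ≤ 1) : (1 + ε / 6) * (p - ε / 2) ≤ p - ε / 4 := by
  nlinarith [mul_nonneg hε.le (sub_nonneg.2 hp), mul_pos hε hε]

theorem cover {ε : ℝ} (hε : 0 < ε) : ∃ G : ℝ, 0 < G ∧ ∃ d : ℝ, 0 < d ∧ d < 1 ∧
    ∀ F : ℂ → ℂ, GoodL F → ∃ T0 : ℝ, 10 ≤ T0 ∧ ∀ T : ℝ, T0 ≤ T → ∀ H : ℝ,
      T ^ (1 - d) ≤ H → H ≤ T →
      ENNReal.ofReal ((2 - cMTinv - ε) * H) ≤
        volume {t : ℝ | T < t ∧ t < T + H ∧ ∃ x : ℝ, t < x ∧ x < t + G * (2 * Real.pi / Real.log T) ∧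
          x ≤ T + H ∧ SimpleAt F x} := by
  classical
  have hpi := Real.pi_pos
  have hcg := cMTinv_gt_one
  wlog hε1 : ε ≤ 1 with Hw
  · obtain ⟨G, hG, d, hd0, hd1, h⟩ := Hw one_pos hpi hcg le_rfl
    refine ⟨G, hG, d, hd0, hd1, fun F hF => ?_⟩
    obtain ⟨T0, hT0, hT⟩ := h F hF
    refine ⟨T0, hT0, fun T h1 H h2 h3 => le_trans (ENNReal.ofReal_le_ofReal ?_) (hT T h1 H h2 h3)⟩
    have hH : 0 ≤ H := le_trans (Real.rpow_nonneg (by linarith) _) h2
    exact mul_le_mul_of_nonneg_right (by linarith) hH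
  -- parameters
  set η : ℝ := ε / 24 with hη
  have hη0 : 0 < η := by rw [hη]; positivity
  have hη1 : η ≤ 1 := by rw [hη]; linarith
  obtain ⟨R, hR⟩ := cell hη0 hη1
  have hR0 : (0 : ℝ) ≤ R := Nat.cast_nonneg R
  set g : ℝ := (2 * R + 3) * 24 / ε with hg
  have hg0 : 0 < g := by rw [hg]; positivity
  have hgε : 2 * R + 3 = g * (ε / 24) := by rw [hg]; field_simp
  -- choice of the exponent
  obtain ⟨ρ, hρ0, hρ⟩ : ∃ ρ : ℝ, 0 < ρ ∧ ∀ θ : ℝ, |θ - 1| < ρ → H295Iso.c0 θ ≤ cMTinv + ε / 8 := by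
    have hcont := H295Iso.c0_cont (h := 1) one_pos
    have h1 : ∀ᶠ x in 𝓝 (1 : ℝ), H295Iso.c0 x < H295Iso.c0 1 + ε / 8 :=
      hcont.eventually (gt_mem_nhds (by linarith))
    rw [Metric.eventually_nhds_iff] at h1
    obtain ⟨ρ, hρ0, hρ⟩ := h1
    refine ⟨ρ, hρ0, fun θ hθ => ?_⟩
    have := hρ (y := θ) (by rw [Real.dist_eq]; exact hθ)
    rw [Pool.Agent.H24R3.PairsShort.c0_one] at this
    exact this.le
  set d : ℝ := min (ρ / 3) (1 / 4) with hd
  have hd0 : 0 < d := by rw [hd]; positivity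
  have hd1 : d ≤ 1 / 4 := min_le_right _ _
  have hd2 : d ≤ ρ / 3 := min_le_left _ _
  have hcθ : H295Iso.c0 (1 - d - d) ≤ cMTinv + ε / 8 := by
    apply hρ
    rw [show 1 - d - d - 1 = -(2 * d) by ring, abs_neg, abs_of_pos (by linarith)]
    linarith
  refine ⟨2 * g, by positivity, d, hd0, by linarith, fun F hF => ?_⟩
  set η' : ℝ := ε / 200 with hη'
  have hη'0 : 0 < η' := by rw [hη']; positivity
  obtain ⟨T1, hT1, hPC⟩ := H295Iso.pairShort hF (1 - d) d η' hd0 (by linarith) (by linarith) hη'0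
  -- large `T`
  have htop : Tendsto (fun T : ℝ => T ^ (1 - d)) atTop atTop := tendsto_rpow_atTop (by linarith)
  obtain ⟨T2, hT2⟩ := (htop.eventually_ge_atTop (max (16 * g * (2 * Real.pi) / ε) 3)).exists_forall_of_atTop
  obtain ⟨T3, hT3⟩ := (Real.tendsto_log_atTop.eventually_ge_atTop
    (max 1 (g * (2 * Real.pi) / (η / 2)))).exists_forall_of_atTop
  refine ⟨max (max T1 T2) (max T3 10), (le_max_right _ _).trans (le_max_right _ _),
    fun T hTT H hH hHT => ?_⟩
  have hTT1 : T1 ≤ T := ((le_max_left _ _).trans (le_max_left _ _)).trans hTT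
  have hTT2 := hT2 T (((le_max_right _ _).trans (le_max_left _ _)).trans hTT)
  have hTT3 := hT3 T (((le_max_left _ _).trans (le_max_right _ _)).trans hTT)
  have hT10 : 10 ≤ T := ((le_max_right _ _).trans (le_max_right _ _)).trans hTT
  have hHK : 16 * g * (2 * Real.pi) / ε ≤ H := ((le_max_left _ _).trans hTT2).trans hH
  have hH3 : 3 ≤ H := ((le_max_right _ _).trans hTT2).trans hH
  have hlog1 : 1 ≤ Real.log T := (le_max_left _ _).trans hTT3
  have hlog : 0 < Real.log T := by linarith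
  have hlogg : g * (2 * Real.pi) / (η / 2) ≤ Real.log T := (le_max_right _ _).trans hTT3
  obtain ⟨U1, U2, hU1, hU1', hU2, hU2', hNN, hQQ⟩ := hPC T hTT1 H hH hHT
  set σ : ℝ := 2 * Real.pi / Real.log T with hσ
  have hσ0 : 0 < σ := by positivity
  set M : ℝ := H / (2 * Real.pi) * Real.log T with hM
  have hM0 : 0 < M := by positivity
  have hMσ : M * σ = H := by rw [hM, hσ]; field_simp
  have hM1 : H * Real.log T / (2 * Real.pi) = M := by rw [hM]; ring
  have hM2 : H * Real.log T = 2 * Real.pi * M := by rw [hM]; field_simp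
  rw [hM1] at hNN hQQ
  rw [hM2] at hNN
  have hU : 1 ≤ U1 := by linarith
  set Λ : ℝ := (1 - d - d) * Real.log T with hΛ
  have hΛ0 : 0 < Λ := mul_pos (by linarith) hlog
  set w : ℝ := g * σ with hw
  have hw0 : 0 < w := by positivity
  have hwη : w ^ 2 ≤ η / 2 := by
    have h1 : w ≤ η / 2 := by
      rw [hw, hσ, mul_div_assoc', div_le_iff₀ hlog]
      rw [div_le_iff₀ (by positivity)] at hlogg
      linarith
    have h2 : η / 2 ≤ 1 := by linarith
    calc w ^ 2 = w * w := sq w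
      _ ≤ (η / 2) * 1 := mul_le_mul h1 (h1.trans h2) hw0.le (by linarith)
      _ = η / 2 := mul_one _
  have hΛw : Λ * w / (2 * Real.pi) ≤ g := by
    have : Λ * w / (2 * Real.pi) = (1 - d - d) * g := by
      rw [hΛ, hw, hσ]; field_simp
    rw [this]
    exact mul_le_of_le_one_left hg0.le (by linarith)
  set K : ℝ := (1 + η) ^ 2 * (g + (2 * R + 3)) with hK
  have hcell : ∀ k : ℤ, ∀ S : Finset ℝ, (∀ x ∈ S, ⌊x / w⌋ = k) →
      ∃ Y : ℝ → ℝ → ℝ, (∀ v : ℝ → ℂ, ∑ x ∈ S, ∑ y ∈ S, Y x y * (conj (v x) * v y).re ≤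
          ∑ x ∈ S, ‖v x‖ ^ 2) ∧ (S.card : ℝ) - YT Λ S Y ≤ K := by
    intro k S hS
    obtain ⟨Y, hY, hYc⟩ := hR Λ (k * w) w hΛ0 hw0.le hwη S (by
      intro x hx
      have h := hS x hx
      have h3 : ((⌊x / w⌋ : ℤ) : ℝ) ≤ x / w := Int.floor_le _
      have h4 : x / w < ⌊x / w⌋ + 1 := Int.lt_floor_add_one _
      rw [h] at h3 h4
      rw [le_div_iff₀ hw0] at h3
      rw [div_lt_iff₀ hw0] at h4
      exact ⟨h3, by linarith⟩)
    refine ⟨Y, hY, hYc.trans ?_⟩
    rw [hK]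
    apply mul_le_mul_of_nonneg_left _ (by positivity)
    linarith
  set S := SF F U1 U2 with hS
  set m : ℕ := (S.image (fun x => ⌊x / w⌋)).card with hm
  obtain ⟨Y, hY, hYc⟩ := many hcell m S rfl
  have htr := (trace_zeros hF hU Λ Y hY).1
  rw [Ns_card hF hU, ← hS] at htr
  -- lower bound for the number of occupied cells
  have h2 := (abs_le.mp hNN).1
  have hpi4 := Real.pi_lt_d2
  have hmK : (2 - cMTinv - ε / 4) * M ≤ K * m := by
    have h9 : M * (H295Iso.c0 (1 - d - d) + η') ≤ M * (cMTinv + ε / 8 + η') :=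
      mul_le_mul_of_nonneg_left (by linarith) hM0.le
    have h11 : η' * (2 * Real.pi * M) ≤ ε / 25 * M := by
      have : η' * (2 * Real.pi * M) = (η' * (2 * Real.pi)) * M := by ring
      rw [this]
      apply mul_le_mul_of_nonneg_right _ hM0.le
      rw [hη']
      norm_num at hpi4
      have := mul_le_mul_of_nonneg_left hpi4.le hε.le
      linarith
    have h12 : M * (cMTinv + ε / 8 + η') = cMTinv * M + (ε / 8) * M + (ε / 200) * M := by
      rw [hη']; ring
    have h13 : (2 - cMTinv - ε / 4) * M = 2 * M - cMTinv * M - (ε / 4) * M := by ring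
    have h14 : (ε / 4) * M = (ε / 8) * M + (ε / 200) * M + 2 * ((ε / 25) * M) + (1 / 25) * (ε * M)
        := by ring
    have h15 : ε / 25 * M = (ε / 25) * M := rfl
    have h16 : 0 ≤ ε * M := by positivity
    rw [h13]
    linarith
  -- `K ≤ (1 + ε / 6) g`
  have hKg : K ≤ (1 + ε / 6) * g := by
    rw [hK, hgε, hη]
    have h1 : (1 + ε / 24) ^ 2 * (g + g * (ε / 24)) = (1 + ε / 24) ^ 3 * g := by ring
    rw [h1]
    exact mul_le_mul_of_nonneg_right (poly1 hε hε1) hg0.le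
  have hm0 : (0 : ℝ) ≤ m := Nat.cast_nonneg m
  have hmg : (2 - cMTinv - ε / 4) * M ≤ (1 + ε / 6) * (m * g) := by
    have := mul_le_mul_of_nonneg_right hKg hm0
    have e : (1 + ε / 6) * g * m = (1 + ε / 6) * (m * g) := by ring
    rw [e] at this
    exact hmK.trans this
  have hfin : (2 - cMTinv - ε) * H ≤ ((m : ℝ) - 2) * w := by
    by_cases hneg : 2 - cMTinv - ε ≤ 0 ∧ 2 ≤ (m : ℝ)
    · have h1 : (2 - cMTinv - ε) * H ≤ 0 := mul_nonpos_of_nonpos_of_nonneg hneg.1 (by linarith)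
      have h2 : 0 ≤ ((m : ℝ) - 2) * w := mul_nonneg (by linarith [hneg.2]) hw0.le
      linarith
    · -- main case
      have h2w : 2 * w ≤ ε / 8 * H := by
        have h1 : w ≤ g * (2 * Real.pi) := by
          rw [hw, hσ]
          apply mul_le_mul_of_nonneg_left _ hg0.le
          rw [div_le_iff₀ hlog]
          exact le_mul_of_one_le_right (by positivity) hlog1
        rw [div_le_iff₀ hε] at hHK
        linarith
      have hmw : (m : ℝ) * w = (m * g) * σ := by rw [hw]; ring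
      have h3 : (2 - cMTinv - ε / 4) * H ≤ (1 + ε / 6) * (m * w) := by
        have h4 := mul_le_mul_of_nonneg_right hmg hσ0.le
        have e1 : (2 - cMTinv - ε / 4) * M * σ = (2 - cMTinv - ε / 4) * H := by
          rw [mul_assoc, hMσ]
        have e2 : (1 + ε / 6) * (m * g) * σ = (1 + ε / 6) * (m * w) := by rw [hmw]; ring
        rw [e1, e2] at h4
        exact h4
      have hH0 : 0 < H := by linarith
      have hp1 : 2 - cMTinv ≤ 1 := by linarith
      have h5 : (2 - cMTinv - ε / 2) * H ≤ m * w := by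
        have h6 : (1 + ε / 6) * ((2 - cMTinv - ε / 2) * H) ≤ (1 + ε / 6) * (m * w) := by
          refine le_trans ?_ h3
          have : (1 + ε / 6) * (2 - cMTinv - ε / 2) ≤ 2 - cMTinv - ε / 4 := poly2 hε hp1
          calc (1 + ε / 6) * ((2 - cMTinv - ε / 2) * H) = ((1 + ε / 6) * (2 - cMTinv - ε / 2)) * H := by
                ring
            _ ≤ _ := mul_le_mul_of_nonneg_right this hH0.le
        exact le_of_mul_le_mul_left h6 (by linarith)
      have e3 : (2 - cMTinv - ε) * H = (2 - cMTinv - ε / 2) * H - ε / 2 * H := by ring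
      have e4 : ((m : ℝ) - 2) * w = m * w - 2 * w := by ring
      have e5 : 0 < ε * H := by positivity
      rw [e3, e4]
      linarith
  refine (ENNReal.ofReal_le_ofReal hfin).trans ((cells_volume hw0 S (T := T) (H := H) (by
    intro x hx
    have := SF_mem hF hU hx
    exact ⟨by linarith [this.1], by linarith [this.2]⟩)).trans (measure_mono ?_))
  rintro t ⟨h1, h2, x, hx, h3, h4⟩
  have h5 := SF_mem hF hU hx
  refine ⟨h1, h2, x, h3, ?_, by linarith [h5.2], SF_simple hF hU hx⟩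
  have e : 2 * w = 2 * g * σ := by rw [hw]; ring
  rw [← e]
  exact h4

end Pool.Agent.TH342.CV
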