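import Pool.Agent.TH342.CV.Cover

/-!
# Simultaneous occurrence of simple critical zeros in several windows
-/

open Complex Filter Topology Set MeasureTheory
open scoped BigOperators ComplexConjugate ENNReal

namespace Pool.Agent.TH342.CV

open H370

/-- sets of large measure have many common points -/
theorem popular {α : Type*} [MeasurableSpace α] (μ : Measure α) {I : Set α} (hI : MeasurableSet I)
    {m k : ℕ} (hkm : k ≤ m) (A : Fin m → Set α) (hA : ∀ i, MeasurableSet (A i))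
    (hAI : ∀ i, A i ⊆ I) :
    ∑ i, μ (A i) ≤ k * μ I + ((m - k : ℕ) : ℝ≥0∞) *
      μ {t | t ∈ I ∧ k + 1 ≤ {i | t ∈ A i}.ncard} := by
  classical
  set B : Set α := {t | t ∈ I ∧ k + 1 ≤ {i | t ∈ A i}.ncard} with hB
  have hc : ∀ t, {i | t ∈ A i}.ncard = ∑ i, (if t ∈ A i then 1 else 0) := by
    intro t
    rw [Set.ncard_eq_toFinset_card', Finset.sum_boole, Set.toFinset_ofPred]
    rfl
  have hBm : MeasurableSet B := by
    have e0 : B = I ∩ {t | k + 1 ≤ {i | t ∈ A i}.ncard} := by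
      ext t; rfl
    rw [e0]
    apply hI.inter
    have h1 : Measurable (fun t => ∑ i, (if t ∈ A i then (1 : ℕ) else 0)) := by
      apply Finset.measurable_sum
      intro i _
      exact Measurable.ite (hA i) measurable_const measurable_const
    have h2 : {t | k + 1 ≤ {i | t ∈ A i}.ncard} =
        (fun t => ∑ i, (if t ∈ A i then (1 : ℕ) else 0)) ⁻¹' (Set.Ici (k + 1)) := by
      ext t
      simp only [Set.mem_ofPred_eq, Set.mem_preimage, Set.mem_Ici]
      rw [hc]
    rw [h2]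
    exact h1 measurableSet_Ici
  have e1 : ∑ i, μ (A i) = ∫⁻ t, ∑ i, (A i).indicator (fun _ => (1 : ℝ≥0∞)) t ∂μ := by
    rw [lintegral_finsetSum]
    · exact Finset.sum_congr rfl fun i _ => by
        rw [lintegral_indicator_const (hA i), one_mul]
    · intro i _
      exact measurable_const.indicator (hA i)
  have e2 : (k : ℝ≥0∞) * μ I + ((m - k : ℕ) : ℝ≥0∞) * μ B =
      ∫⁻ t, (I.indicator (fun _ => (k : ℝ≥0∞)) t + B.indicator (fun _ => ((m - k : ℕ) : ℝ≥0∞)) t)
        ∂μ := by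
    rw [lintegral_add_left (measurable_const.indicator hI), lintegral_indicator_const hI,
      lintegral_indicator_const hBm]
  rw [e1, e2]
  apply lintegral_mono
  intro t
  simp only
  have e3 : ∑ i, (A i).indicator (fun _ => (1 : ℝ≥0∞)) t = (({i | t ∈ A i}.ncard : ℕ) : ℝ≥0∞) := by
    rw [hc]
    push_cast
    exact Finset.sum_congr rfl fun i _ => by simp [Set.indicator_apply]
  rw [e3]
  have hle : {i | t ∈ A i}.ncard ≤ m := by
    have := Set.ncard_le_card {i | t ∈ A i}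
    simpa using this
  by_cases ht : t ∈ I
  · rw [Set.indicator_of_mem ht]
    by_cases h : k + 1 ≤ {i | t ∈ A i}.ncard
    · rw [Set.indicator_of_mem (show t ∈ B from ⟨ht, h⟩)]
      have : {i | t ∈ A i}.ncard ≤ k + (m - k) := by omega
      exact_mod_cast this
    · rw [Set.indicator_of_notMem (fun h' : t ∈ B => h h'.2), add_zero]
      have : {i | t ∈ A i}.ncard ≤ k := by omega
      exact_mod_cast this
  · have : {i | t ∈ A i} = ∅ := by
      ext i
      simp only [Set.mem_ofPred_eq, Set.mem_empty_iff_false, iff_false]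
      exact fun h => ht (hAI i h)
    rw [this]
    simp

/-- the window of length `r` to the right of `t` contains a simple critical zero of `F` -/
def Hit (F : ℂ → ℂ) (r t : ℝ) : Prop := ∃ x : ℝ, t < x ∧ x < t + r ∧ SimpleAt F x

lemma hit_open (F : ℂ → ℂ) (r a : ℝ) : IsOpen {t : ℝ | Hit F r (t + a)} := by
  have : {t : ℝ | Hit F r (t + a)} = ⋃ x ∈ {x : ℝ | SimpleAt F x}, Ioo (x - a - r) (x - a) := by
    ext t
    simp only [Hit, Set.mem_ofPred_eq, Set.mem_iUnion, Set.mem_Ioo, exists_prop]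
    constructor
    · rintro ⟨x, h1, h2, h3⟩
      exact ⟨x, h3, by linarith, by linarith⟩
    · rintro ⟨x, h3, h1, h2⟩
      exact ⟨x, by linarith, by linarith, h3⟩
  rw [this]
  exact isOpen_biUnion fun x _ => isOpen_Ioo

/-- the covering theorem, uniformly for shifts -/
theorem cover_shift {ε : ℝ} (hε : 0 < ε) : ∃ G : ℝ, 0 < G ∧ ∃ d : ℝ, 0 < d ∧ d < 1 ∧
    ∀ F : ℂ → ℂ, GoodL F → ∃ T0 : ℝ, 10 ≤ T0 ∧ ∀ T : ℝ, T0 ≤ T → ∀ H : ℝ,
      T ^ (1 - d) ≤ H → H ≤ T → ∀ a : ℝ, 0 ≤ a → a ≤ T ^ (1 + d) →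
      ENNReal.ofReal ((2 - cMTinv - ε) * H) ≤
        volume {t : ℝ | T < t ∧ t < T + H ∧ ∃ x : ℝ, t + a < x ∧
          x < t + a + G * (2 * Real.pi / Real.log T) ∧ x ≤ T + a + H ∧ SimpleAt F x} := by
  obtain ⟨G, hG, d0, hd0, hd1, h⟩ := cover hε
  refine ⟨G, hG, d0 / 4, by linarith, by linarith, fun F hF => ?_⟩
  obtain ⟨T1, hT1, hT⟩ := h F hF
  set d := d0 / 4 with hd
  have hd0' : 0 < d := by rw [hd]; linarith
  have hd1' : d < 1 / 4 := by rw [hd]; linarith
  have htop : Tendsto (fun T : ℝ => T ^ d) atTop atTop := tendsto_rpow_atTop hd0'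
  obtain ⟨T2, hT2⟩ := (htop.eventually_ge_atTop 2).exists_forall_of_atTop
  refine ⟨max T1 T2, hT1.trans (le_max_left _ _), fun T hTT H hH hHT a ha haT => ?_⟩
  have hTT1 : T1 ≤ T := (le_max_left _ _).trans hTT
  have hTd := hT2 T ((le_max_right _ _).trans hTT)
  have hT10 : 10 ≤ T := hT1.trans hTT1
  have hT0 : 0 < T := by linarith
  have hlogT : 0 < Real.log T := Real.log_pos (by linarith)
  have hpi := Real.pi_pos
  -- the shifted interval
  have hTa : T + a ≤ T ^ (1 + 2 * d) := by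
    have h1 : T ≤ T ^ (1 + d) := by
      conv_lhs => rw [← Real.rpow_one T]
      exact Real.rpow_le_rpow_of_exponent_le (by linarith) (by linarith)
    have h2 : T ^ (1 + 2 * d) = T ^ (1 + d) * T ^ d := by
      rw [← Real.rpow_add hT0]; congr 1; ring
    rw [h2]
    have h3 : 0 ≤ T ^ (1 + d) := Real.rpow_nonneg hT0.le _
    nlinarith
  have hpow : (T + a) ^ (1 - d0) ≤ H := by
    refine le_trans ?_ hH
    calc (T + a) ^ (1 - d0) ≤ (T ^ (1 + 2 * d)) ^ (1 - d0) :=
          Real.rpow_le_rpow (by linarith) hTa (by linarith)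
      _ = T ^ ((1 + 2 * d) * (1 - d0)) := by rw [← Real.rpow_mul hT0.le]
      _ ≤ T ^ (1 - d) := by
          apply Real.rpow_le_rpow_of_exponent_le (by linarith)
          have : d0 = 4 * d := by rw [hd]; ring
          rw [this]
          nlinarith
  have key := hT (T + a) (by linarith) H hpow (by linarith)
  refine key.trans ?_
  have hlog : Real.log T ≤ Real.log (T + a) := Real.log_le_log hT0 (by linarith)
  have hGσ : G * (2 * Real.pi / Real.log (T + a)) ≤ G * (2 * Real.pi / Real.log T) := by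
    apply mul_le_mul_of_nonneg_left _ hG.le
    exact div_le_div_of_nonneg_left (by positivity) hlogT hlog
  have hsub : {t : ℝ | T + a < t ∧ t < T + a + H ∧ ∃ x : ℝ, t < x ∧
      x < t + G * (2 * Real.pi / Real.log (T + a)) ∧ x ≤ T + a + H ∧ SimpleAt F x} ⊆
      (fun t => t - a) ⁻¹' {t : ℝ | T < t ∧ t < T + H ∧ ∃ x : ℝ, t + a < x ∧
          x < t + a + G * (2 * Real.pi / Real.log T) ∧ x ≤ T + a + H ∧ SimpleAt F x} := by
    rintro t ⟨h1, h2, x, h3, h4, h5, h6⟩
    refine ⟨by linarith, by linarith, x, by linarith, by linarith, h5, h6⟩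
  refine (measure_mono hsub).trans (le_of_eq ?_)
  have := (measurePreserving_sub_right volume a).measure_preimage_emb
    (MeasurableEquiv.subRight a).measurableEmbedding
    {t : ℝ | T < t ∧ t < T + H ∧ ∃ x : ℝ, t + a < x ∧
          x < t + a + G * (2 * Real.pi / Real.log T) ∧ x ≤ T + a + H ∧ SimpleAt F x}
  exact this

/-- the joint theorem -/
theorem joint {m k : ℕ} (hk : (k : ℝ) < (2 - cMTinv) * m) {ε : ℝ} (hε : 0 < ε) :
    ∃ G : ℝ, 0 < G ∧ ∃ d : ℝ, 0 < d ∧ d < 1 ∧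
    ∀ F : Fin m → ℂ → ℂ, (∀ i, GoodL (F i)) → ∃ T0 : ℝ, 10 ≤ T0 ∧ ∀ T : ℝ, T0 ≤ T → ∀ H : ℝ,
      T ^ (1 - d) ≤ H → H ≤ T → ∀ a : Fin m → ℝ, (∀ i, 0 ≤ a i ∧ a i ≤ T ^ (1 + d)) →
      ENNReal.ofReal ((((2 - cMTinv) * m - k) / (m - k) - ε) * H) ≤
        volume {t : ℝ | t ∈ Ioo T (T + H) ∧ k + 1 ≤
          {i | t ∈ {t : ℝ | T < t ∧ t < T + H ∧ ∃ x : ℝ, t + a i < x ∧
            x < t + a i + G * (2 * Real.pi / Real.log T) ∧ x ≤ T + a i + H ∧
              SimpleAt (F i) x}}.ncard} := by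
  classical
  have hc1 := cMTinv_gt_one
  have hk0 : (0 : ℝ) ≤ k := Nat.cast_nonneg k
  have hkm : (k : ℝ) < m := by
    have hm0 : (0 : ℝ) ≤ m := Nat.cast_nonneg m
    nlinarith
  have hkm' : k < m := by exact_mod_cast hkm
  have hm0 : (0 : ℝ) < m := lt_of_le_of_lt hk0 hkm
  have hmk : (0 : ℝ) < m - k := by linarith
  obtain ⟨G, hG, d, hd0, hd1, h⟩ := cover_shift (ε := ε * (m - k) / m) (by positivity)
  refine ⟨G, hG, d, hd0, hd1, fun F hF => ?_⟩
  choose T1 hT1 hT using fun i => h (F i) (hF i)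
  have hne : (Finset.univ : Finset (Fin m)).Nonempty :=
    ⟨⟨k, hkm'⟩, Finset.mem_univ _⟩
  refine ⟨Finset.univ.sup' hne T1, (hT1 ⟨k, hkm'⟩).trans (Finset.le_sup' T1 (Finset.mem_univ _)),
    fun T hTT H hH hHT a ha => ?_⟩
  have hTi : ∀ i, T1 i ≤ T := fun i => (Finset.le_sup' T1 (Finset.mem_univ i)).trans hTT
  have hT10 : 10 ≤ T := (hT1 ⟨k, hkm'⟩).trans (hTi _)
  have hH0 : 0 < H := lt_of_lt_of_le (Real.rpow_pos_of_pos (by linarith) _) hH
  set A : Fin m → Set ℝ := fun i => {t : ℝ | T < t ∧ t < T + H ∧ ∃ x : ℝ, t + a i < x ∧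
            x < t + a i + G * (2 * Real.pi / Real.log T) ∧ x ≤ T + a i + H ∧
              SimpleAt (F i) x} with hA
  have hAI : ∀ i, A i ⊆ Ioo T (T + H) := fun i t ht => ⟨ht.1, ht.2.1⟩
  have hAm : ∀ i, MeasurableSet (A i) := by
    intro i
    have e : A i = Ioo T (T + H) ∩ ⋃ x ∈ {x : ℝ | x ≤ T + a i + H ∧ SimpleAt (F i) x},
        Ioo (x - a i - G * (2 * Real.pi / Real.log T)) (x - a i) := by
      ext t
      simp only [hA, Set.mem_ofPred_eq, Set.mem_inter_iff, Set.mem_iUnion, Set.mem_Ioo, exists_prop]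
      constructor
      · rintro ⟨h1, h2, x, h3, h4, h5, h6⟩
        exact ⟨⟨h1, h2⟩, x, ⟨h5, h6⟩, by linarith, by linarith⟩
      · rintro ⟨⟨h1, h2⟩, x, ⟨h5, h6⟩, h3, h4⟩
        exact ⟨h1, h2, x, by linarith, by linarith, h5, h6⟩
    rw [e]
    exact measurableSet_Ioo.inter (isOpen_biUnion fun x _ => isOpen_Ioo).measurableSet
  have hpop := popular volume (I := Ioo T (T + H)) measurableSet_Ioo hkm'.le A hAm hAI
  set V := volume {t : ℝ | t ∈ Ioo T (T + H) ∧ k + 1 ≤ {i | t ∈ A i}.ncard} with hV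
  have hVfin : V ≠ ⊤ := by
    have : V ≤ volume (Ioo T (T + H)) := measure_mono fun t ht => ht.1
    rw [Real.volume_Ioo] at this
    exact (this.trans_lt ENNReal.ofReal_lt_top).ne
  have hlow : ENNReal.ofReal (m * ((2 - cMTinv - ε * (m - k) / m) * H)) ≤ ∑ i, volume (A i) := by
    have h1 : ∀ i ∈ (Finset.univ : Finset (Fin m)),
        ENNReal.ofReal ((2 - cMTinv - ε * (m - k) / m) * H) ≤ volume (A i) := fun i _ =>
      hT i T (hTi i) H hH hHT (a i) (ha i).1 (ha i).2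
    have h2 := Finset.sum_le_sum h1
    rw [Finset.sum_const, Finset.card_univ, Fintype.card_fin, nsmul_eq_mul] at h2
    rw [ENNReal.ofReal_mul hm0.le, ENNReal.ofReal_natCast]
    exact h2
  have h3 := hlow.trans hpop
  have e1 : (k : ℝ≥0∞) * volume (Ioo T (T + H)) + ((m - k : ℕ) : ℝ≥0∞) * V =
      ENNReal.ofReal (k * H + (m - k) * V.toReal) := by
    rw [ENNReal.ofReal_add (by positivity) (by positivity), ENNReal.ofReal_mul hk0,
      ENNReal.ofReal_mul hmk.le, ENNReal.ofReal_toReal hVfin, ENNReal.ofReal_natCast,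
      Real.volume_Ioo, show T + H - T = H by ring]
    congr 2
    rw [← Nat.cast_sub hkm'.le, ENNReal.ofReal_natCast]
  rw [e1, ENNReal.ofReal_le_ofReal_iff (by positivity)] at h3
  rw [← ENNReal.ofReal_toReal hVfin]
  apply ENNReal.ofReal_le_ofReal
  have e2 : (m : ℝ) * ((2 - cMTinv - ε * (m - k) / m) * H) =
      ((2 - cMTinv) * m - ε * (m - k)) * H := by
    field_simp
  rw [e2] at h3
  have e3 : (((2 - cMTinv) * m - k) / (m - k) - ε) * H =
      (((2 - cMTinv) * m - ε * (m - k)) * H - k * H) / (m - k) := by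
    field_simp
    ring
  rw [e3, div_le_iff₀ hmk]
  linarith

end Pool.Agent.TH342.CV
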