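import Pool.Agent.H370R2.Fin1

/-!
# A test matrix for unit vectors close to the span of a small orthonormal system

If `x_1, …, x_n` are unit vectors with a real Gram matrix `M`, all of which are within `η` of the
span of an orthonormal system `U_j`, `j ∈ J`, then there is a real matrix `D ≤ 2` with
`2 n - 2 tr (D M) + tr (D²) ≤ (1 + η)² |J|`.
-/

open scoped BigOperators ComplexConjugate

namespace Pool.Agent.TH342.CV

open H370

variable {E : Type*} [NormedAddCommGroup E] [InnerProductSpace ℂ E]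

/-- the scalar inequality -/
lemma scal {l b : ℝ} (hb : b ≤ 2) :
    2 * l - 2 * (min l 2) * l + (min l 2) ^ 2 ≤ 2 * l - 2 * l * b + b ^ 2 := by
  rcases le_total l 2 with h | h
  · rw [min_eq_left h]
    nlinarith [sq_nonneg (l - b)]
  · rw [min_eq_right h]
    nlinarith [mul_nonneg (sub_nonneg.2 hb) (by linarith : (0 : ℝ) ≤ 2 * l - 2 - b)]

theorem key {ι κ : Type*} [Fintype ι] [DecidableEq ι] (x : ι → E) (U : κ → E) (J : Finset κ)
    (M : ι → ι → ℝ) (hM : ∀ i j, inner ℂ (x i) (x j) = (M i j : ℂ)) (h1 : ∀ i, M i i = 1)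
    (hU : Orthonormal ℂ U) {η : ℝ} (hη0 : 0 ≤ η) (hη : η ≤ 1)
    (hx : ∀ i, 1 ≤ (1 + η) * ∑ j ∈ J, ‖inner ℂ (U j) (x i)‖ ^ 2) :
    ∃ D : ι → ι → ℝ,
      (∀ v : ι → ℂ, ∑ i, ∑ j, D i j * (conj (v i) * v j).re ≤ 2 * ∑ i, ‖v i‖ ^ 2) ∧
      2 * (Fintype.card ι : ℝ) - 2 * ∑ i, ∑ j, D i j * M i j + ∑ i, ∑ j, D i j ^ 2 ≤
        (1 + η) ^ 2 * J.card := by
  classical
  obtain ⟨e, lam, f, hl0, hf1, hfo, hef, hlam, hlam2, hlam1⟩ := spectral_family x
  set μ : ι → ℝ := fun a => min (lam a) 2 with hμ
  set C : ι → ι → ℂ := fun i j => ∑ a, (μ a : ℂ) * ((e a) i * conj ((e a) j)) with hC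
  have hMs : ∀ i j, M j i = M i j := by
    intro i j
    have h := inner_conj_symm (𝕜 := ℂ) (x i) (x j)
    rw [hM, hM, Complex.conj_ofReal] at h
    exact_mod_cast h
  have hnx : ∀ i, ‖x i‖ ^ 2 = 1 := by
    intro i
    have h := inner_self_eq_norm_sq_to_K (𝕜 := ℂ) (x i)
    rw [hM, h1] at h
    have h2 : ((‖x i‖ ^ 2 : ℝ) : ℂ) = ((1 : ℝ) : ℂ) := by
      rw [h]; push_cast; rfl
    exact Complex.ofReal_injective h2
  have hlamn : ∑ a, lam a = (Fintype.card ι : ℝ) := by
    rw [hlam1]
    simp [hnx]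
  refine ⟨fun i j => (C i j).re, fun v => ?_, ?_⟩
  · -- feasibility
    have hq : ∀ w : ι → ℂ, (∑ i, ∑ j, conj (w i) * C i j * w j) =
        ∑ a, (μ a : ℂ) * (‖∑ i, conj ((e a) i) * w i‖ ^ 2 : ℝ) := by
      intro w
      have e1 : ∀ a, ((‖∑ i, conj ((e a) i) * w i‖ ^ 2 : ℝ) : ℂ) =
          ∑ i, ∑ j, conj (w i) * ((e a) i * conj ((e a) j)) * w j := by
        intro a
        rw [← Complex.normSq_eq_norm_sq, Complex.normSq_eq_conj_mul_self, map_sum,
          Finset.sum_mul_sum]
        refine Finset.sum_congr rfl fun i _ => Finset.sum_congr rfl fun j _ => ?_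
        simp only [map_mul, Complex.conj_conj]
        ring
      simp_rw [e1]
      have e2 : ∀ a, (μ a : ℂ) * ∑ i, ∑ j, conj (w i) * ((e a) i * conj ((e a) j)) * w j =
          ∑ i, ∑ j, (μ a : ℂ) * (conj (w i) * ((e a) i * conj ((e a) j)) * w j) := by
        intro a
        rw [Finset.mul_sum]
        exact Finset.sum_congr rfl fun i _ => Finset.mul_sum _ _ _
      simp_rw [e2]
      conv_rhs => rw [Finset.sum_comm]
      refine Finset.sum_congr rfl fun i _ => ?_
      conv_rhs => rw [Finset.sum_comm]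
      refine Finset.sum_congr rfl fun j _ => ?_
      simp only [hC]
      rw [Finset.mul_sum, Finset.sum_mul]
      refine Finset.sum_congr rfl fun a _ => ?_
      ring
    have hle : ∀ w : ι → ℂ, (∑ i, ∑ j, conj (w i) * C i j * w j).re ≤ 2 * ∑ i, ‖w i‖ ^ 2 := by
      intro w
      rw [hq w]
      rw [Complex.re_sum]
      have h2 : ∑ a, ‖∑ i, conj ((e a) i) * w i‖ ^ 2 = ∑ i, ‖w i‖ ^ 2 := frob' e w
      rw [← h2, Finset.mul_sum]
      refine Finset.sum_le_sum fun a _ => ?_
      rw [Complex.re_ofReal_mul, Complex.ofReal_re]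
      exact mul_le_mul_of_nonneg_right (min_le_right _ _) (by positivity)
    have hA := hle v
    have hB := hle (fun i => conj (v i))
    have e3 : ∑ i, ∑ j, (C i j).re * (conj (v i) * v j).re =
        ((∑ i, ∑ j, conj (v i) * C i j * v j).re +
          (∑ i, ∑ j, conj (conj (v i)) * C i j * conj (v j)).re) / 2 := by
      simp only [Complex.re_sum]
      rw [← Finset.sum_add_distrib, Finset.sum_div]
      refine Finset.sum_congr rfl fun i _ => ?_
      rw [← Finset.sum_add_distrib, Finset.sum_div]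
      refine Finset.sum_congr rfl fun j _ => ?_
      simp only [Complex.mul_re, Complex.mul_im, Complex.conj_re, Complex.conj_im]
      ring
    rw [e3]
    simp only [RCLike.norm_conj] at hB
    linarith
  · -- the value
    have hDM : ∑ i, ∑ j, (C i j).re * M i j = ∑ a, μ a * lam a := by
      have e1 : ∀ a, lam a = (∑ i, ∑ j, conj ((e a) i) * (M i j : ℂ) * (e a) j).re := by
        intro a
        have := hlam a
        simp_rw [hM] at this
        rw [← this, Complex.ofReal_re]
      have e2 : ∀ a, μ a * lam a = ∑ i, ∑ j, μ a * (conj ((e a) i) * (M i j : ℂ) * (e a) j).re := by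
        intro a
        conv_lhs => rw [e1 a]
        rw [Complex.re_sum, Finset.mul_sum]
        refine Finset.sum_congr rfl fun i _ => ?_
        rw [Complex.re_sum, Finset.mul_sum]
      simp_rw [e2]
      conv_rhs => rw [Finset.sum_comm]
      refine Finset.sum_congr rfl fun i _ => ?_
      conv_rhs => rw [Finset.sum_comm]
      refine Finset.sum_congr rfl fun j _ => ?_
      simp only [hC]
      rw [Complex.re_sum, Finset.sum_mul]
      refine Finset.sum_congr rfl fun a _ => ?_
      rw [Complex.re_ofReal_mul]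
      simp only [Complex.mul_re, Complex.mul_im, Complex.conj_re, Complex.conj_im,
        Complex.ofReal_re, Complex.ofReal_im]
      ring
    have hD2 : ∑ i, ∑ j, (C i j).re ^ 2 ≤ ∑ a, μ a ^ 2 := by
      have e1 : ∀ i j, (C i j).re ^ 2 ≤ ‖C i j‖ ^ 2 := by
        intro i j
        rw [← sq_abs]
        exact pow_le_pow_left₀ (abs_nonneg _) (Complex.abs_re_le_norm _) 2
      refine (Finset.sum_le_sum fun i _ => Finset.sum_le_sum fun j _ => e1 i j).trans ?_
      -- Frobenius norm through the basis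
      have h := frob e C
      rw [← h]
      have e2 : ∀ a k, ∑ j, C k j * (e a) j = (μ a : ℂ) * (e a) k := by
        intro a k
        simp only [hC]
        simp_rw [Finset.sum_mul]
        rw [Finset.sum_comm]
        have e3 : ∀ b, ∑ j, (μ b : ℂ) * ((e b) k * conj ((e b) j)) * (e a) j =
            (μ b : ℂ) * (e b) k * inner ℂ (e b) (e a) := by
          intro b
          rw [euc_inner, Finset.mul_sum]
          refine Finset.sum_congr rfl fun j _ => ?_
          ring
        simp_rw [e3]
        rw [Finset.sum_eq_single a]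
        · rw [e.inner_eq_one, mul_one]
        · intro b _ hb
          rw [e.inner_eq_zero hb, mul_zero]
        · simp
      simp_rw [e2]
      refine Finset.sum_le_sum fun a _ => ?_
      have h2 : ∑ k, ‖(μ a : ℂ) * (e a) k‖ ^ 2 = μ a ^ 2 * ∑ k, ‖(e a) k‖ ^ 2 := by
        rw [Finset.mul_sum]
        refine Finset.sum_congr rfl fun k _ => ?_
        rw [norm_mul, mul_pow, Complex.norm_real, Real.norm_eq_abs, sq_abs]
      rw [h2, ← EuclideanSpace.norm_sq_eq, e.norm_eq_one]
      simp
    set b : ι → ℝ := fun a => (1 + η) * ∑ j ∈ J, ‖inner ℂ (U j) (f a)‖ ^ 2 with hb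
    have hb0 : ∀ a, 0 ≤ b a := fun a => by
      simp only [hb]; positivity
    have hb1 : ∀ a, b a ≤ 1 + η := by
      intro a
      have h := hU.sum_inner_products_le (s := J) (f a)
      have h2 : ‖f a‖ ^ 2 ≤ 1 := by
        have := hf1 a
        have h0 := norm_nonneg (f a)
        nlinarith
      simp only [hb]
      calc (1 + η) * ∑ j ∈ J, ‖inner ℂ (U j) (f a)‖ ^ 2 ≤ (1 + η) * 1 :=
            mul_le_mul_of_nonneg_left (h.trans h2) (by linarith)
        _ = 1 + η := by ring
    -- the sum of the `lam b`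
    have hlb : ∑ a, lam a ≤ ∑ a, lam a * b a := by
      have e1 : ∀ j, ∑ a, lam a * ‖inner ℂ (U j) (f a)‖ ^ 2 = ∑ i, ‖inner ℂ (U j) (x i)‖ ^ 2 := by
        intro j
        have h := frob e (fun (_ : Unit) i => inner ℂ (U j) (x i))
        simp only [Finset.univ_unique, Finset.sum_singleton] at h
        rw [← h]
        refine Finset.sum_congr rfl fun a _ => ?_
        have h2 : ∑ i, inner ℂ (U j) (x i) * (e a) i = (Real.sqrt (lam a) : ℂ) *
            inner ℂ (U j) (f a) := by
          rw [← inner_smul_right, ← hef a, inner_sum]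
          refine Finset.sum_congr rfl fun i _ => ?_
          rw [inner_smul_right, mul_comm]
        rw [h2, norm_mul, mul_pow, Complex.norm_real, Real.norm_of_nonneg (Real.sqrt_nonneg _),
          Real.sq_sqrt (hl0 a)]
      have e2 : ∑ a, lam a * b a = ∑ i, (1 + η) * ∑ j ∈ J, ‖inner ℂ (U j) (x i)‖ ^ 2 := by
        have : ∀ a, lam a * b a = (1 + η) * ∑ j ∈ J, lam a * ‖inner ℂ (U j) (f a)‖ ^ 2 := by
          intro a
          simp only [hb]
          rw [← Finset.mul_sum]
          ring
        simp_rw [this]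
        rw [← Finset.mul_sum, ← Finset.mul_sum, Finset.sum_comm]
        congr 1
        rw [Finset.sum_comm (s := Finset.univ) (t := J)]
        exact Finset.sum_congr rfl fun j _ => e1 j
      rw [e2, hlamn]
      have : (Fintype.card ι : ℝ) = ∑ i : ι, (1 : ℝ) := by simp
      rw [this]
      exact Finset.sum_le_sum fun i _ => hx i
    have hbb : ∑ a, b a ^ 2 ≤ (1 + η) ^ 2 * J.card := by
      have e1 : ∑ a, b a ≤ (1 + η) * J.card := by
        simp only [hb]
        rw [← Finset.mul_sum, Finset.sum_comm]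
        apply mul_le_mul_of_nonneg_left _ (by linarith)
        have : (J.card : ℝ) = ∑ j ∈ J, (1 : ℝ) := by simp
        rw [this]
        refine Finset.sum_le_sum fun j _ => ?_
        have h := bessel_le f hfo hf1 (U j)
        rw [hU.norm_eq_one] at h
        have e2 : ∀ a, ‖inner ℂ (U j) (f a)‖ = ‖inner ℂ (f a) (U j)‖ := fun a => norm_inner_symm _ _
        simp_rw [e2]
        linarith
      calc ∑ a, b a ^ 2 ≤ ∑ a, (1 + η) * b a := by
            refine Finset.sum_le_sum fun a _ => ?_
            rw [sq]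
            exact mul_le_mul_of_nonneg_right (hb1 a) (hb0 a)
        _ = (1 + η) * ∑ a, b a := by rw [Finset.mul_sum]
        _ ≤ (1 + η) * ((1 + η) * J.card) := mul_le_mul_of_nonneg_left e1 (by linarith)
        _ = (1 + η) ^ 2 * J.card := by ring
    have hsum : ∑ a, (2 * lam a - 2 * μ a * lam a + μ a ^ 2) ≤
        ∑ a, (2 * lam a - 2 * lam a * b a + b a ^ 2) :=
      Finset.sum_le_sum fun a _ => scal ((hb1 a).trans (by linarith))
    simp only [Finset.sum_add_distrib, Finset.sum_sub_distrib] at hsum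
    have e1 : ∑ a, 2 * lam a = 2 * (Fintype.card ι : ℝ) := by rw [← Finset.mul_sum, hlamn]
    have e2 : ∑ a, 2 * μ a * lam a = 2 * ∑ a, μ a * lam a := by
      rw [Finset.mul_sum]; exact Finset.sum_congr rfl fun a _ => by ring
    have e3 : ∑ a, 2 * lam a * b a = 2 * ∑ a, lam a * b a := by
      rw [Finset.mul_sum]; exact Finset.sum_congr rfl fun a _ => by ring
    rw [e1, e2, e3] at hsum
    rw [hDM]
    linarith

end Pool.Agent.TH342.CV
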