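import Pool.Agent.TH342.CV.Boxes

/-!
# Tuples of distinct simple critical zeros, of any length, with differences in long intervals
-/

open Complex Filter Topology Set MeasureTheory
open scoped BigOperators ComplexConjugate

namespace Pool.Agent.TH342.CV

open H370

/-- injective choices from finite sets -/
lemma inj_choices {α : Type*} [DecidableEq α] : ∀ (n : ℕ) (A : Fin n → Finset α),
    ∏ i, ((A i).card - n) ≤ ((Fintype.piFinset A).filter Function.Injective).card := by
  classical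
  intro n
  induction n with
  | zero =>
    intro A
    rw [Finset.univ_eq_empty, Finset.prod_empty, Nat.one_le_iff_ne_zero, ← Nat.pos_iff_ne_zero,
      Finset.card_pos]
    refine ⟨fun i => i.elim0, ?_⟩
    rw [Finset.mem_filter]
    exact ⟨Fintype.mem_piFinset.mpr fun i => i.elim0, fun i => i.elim0⟩
  | succ n ih =>
    intro A
    set S : Finset (Σ _ : α, (Fin n → α)) := (A 0).sigma fun x =>
      (Fintype.piFinset (fun i : Fin n => (A i.succ).erase x)).filter Function.Injective with hS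
    have h1 : S.card ≤ ((Fintype.piFinset A).filter Function.Injective).card := by
      apply Finset.card_le_card_of_injOn
        (fun y : (Σ _ : α, (Fin n → α)) => (Fin.cons y.1 y.2 : Fin (n + 1) → α))
      · rintro ⟨x, g⟩ hx
        rw [Finset.mem_coe, hS, Finset.mem_sigma, Finset.mem_filter, Fintype.mem_piFinset] at hx
        obtain ⟨hx1, hx2, hx3⟩ := hx
        simp only at hx1 hx2 hx3
        rw [Finset.mem_coe, Finset.mem_filter, Fintype.mem_piFinset]
        refine ⟨fun i => ?_, ?_⟩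
        · refine Fin.cases ?_ (fun j => ?_) i
          · simpa using hx1
          · simpa using Finset.mem_of_mem_erase (hx2 j)
        · rw [Fin.cons_injective_iff]
          refine ⟨?_, hx3⟩
          rintro ⟨j, hj⟩
          exact Finset.ne_of_mem_erase (hx2 j) hj
      · rintro ⟨x, g⟩ _ ⟨x', g'⟩ _ h
        simp only at h
        have h0 := congrFun h 0
        simp only [Fin.cons_zero] at h0
        have h2 : g = g' := by
          ext j
          have := congrFun h j.succ
          simpa using this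
        rw [h0, h2]
    refine le_trans ?_ h1
    rw [hS, Finset.card_sigma]
    have h2 : ∀ x ∈ A 0, ∏ i : Fin n, ((A i.succ).card - (n + 1)) ≤
        ((Fintype.piFinset (fun i : Fin n => (A i.succ).erase x)).filter
          Function.Injective).card := by
      intro x _
      refine le_trans ?_ (ih _)
      apply Finset.prod_le_prod' 
      intro i _
      have := Finset.pred_card_le_card_erase (s := A i.succ) (a := x)
      omega
    refine le_trans ?_ (Finset.sum_le_sum h2)
    rw [Finset.sum_const, smul_eq_mul, Fin.prod_univ_succ]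
    exact Nat.mul_le_mul_right _ (Nat.sub_le _ _)

/-- the tuples: `p.1` is the ordinate in `(T, T + H]` of a simple critical zero of `F0`, the `p.2 i`
are distinct, `p.2 i` is the ordinate of a simple critical zero of `F i`, and `p.2 i - p.1` lies
between `α i * σ` and `β i * σ` -/
def Lev {n : ℕ} (F0 : ℂ → ℂ) (F : Fin n → ℂ → ℂ) (T H σ : ℝ) (α β : Fin n → ℝ) :
    Set (ℝ × (Fin n → ℝ)) :=
  {p | T < p.1 ∧ p.1 ≤ T + H ∧ SimpleAt F0 p.1 ∧ Function.Injective p.2 ∧
    ∀ i, SimpleAt (F i) (p.2 i) ∧ α i * σ < p.2 i - p.1 ∧ p.2 i - p.1 < β i * σ}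

lemma lev_finite {n : ℕ} {F0 : ℂ → ℂ} {F : Fin n → ℂ → ℂ} (hF0 : GoodL F0)
    (hF : ∀ i, GoodL (F i)) {T H σ : ℝ} {α β : Fin n → ℝ} (hT : 1 ≤ T) (hσ : 0 ≤ σ)
    (hα : ∀ i, 0 ≤ α i) : (Lev F0 F T H σ α β).Finite := by
  refine (box_finite hF0 hF (T := T) (H := H) (σ := σ) (α := α) (β := β) hT hσ hα).subset ?_
  rintro p ⟨h1, h2, h3, -, h5⟩
  exact ⟨h1, h2, h3, h5⟩

/-- the disjoint families of choices in cells -/
theorem lev_count {n : ℕ} {F0 : ℂ → ℂ} {F : Fin n → ℂ → ℂ} {T w : ℝ} (hw : 0 < w) (N : ℕ)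
    (b : Fin n → ℝ) (J : Fin n → ℕ) {Bx : Set (ℝ × (Fin n → ℝ))} (hfin : Bx.Finite)
    (hsub : ∀ k : ℕ, k < N → ∀ x0 : ℝ, T + k * w < x0 → x0 ≤ T + (k + 1) * w → SimpleAt F0 x0 →
      ∀ x : Fin n → ℝ, Function.Injective x → (∀ i, T + b i + k * w < x i ∧
        x i ≤ T + b i + k * w + J i * w ∧ SimpleAt (F i) (x i)) → (x0, x) ∈ Bx) :
    ∑ k ∈ Finset.range N, (cnt F0 (T + k * w) (T + (k + 1) * w) : ℝ) *
      ∏ i, ((cnt (F i) (T + b i + k * w) (T + b i + k * w + J i * w) - n : ℕ) : ℝ) ≤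
      Bx.ncard := by
  classical
  set A : ℕ → Finset (ℝ × (Fin n → ℝ)) := fun k =>
    (cs F0 (T + k * w) (T + (k + 1) * w)) ×ˢ
      ((Fintype.piFinset (fun i => cs (F i) (T + b i + k * w)
        (T + b i + k * w + J i * w))).filter Function.Injective) with hA
  have hcard : ∀ k : ℕ, (cnt F0 (T + k * w) (T + (k + 1) * w) : ℝ) *
      ∏ i, ((cnt (F i) (T + b i + k * w) (T + b i + k * w + J i * w) - n : ℕ) : ℝ) ≤
      ((A k).card : ℝ) := by
    intro k
    have h1 := inj_choices n (fun i => cs (F i) (T + b i + k * w) (T + b i + k * w + J i * w))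
    simp only [cs_card] at h1
    simp only [hA, Finset.card_product, cs_card]
    push_cast
    apply mul_le_mul_of_nonneg_left _ (Nat.cast_nonneg _)
    exact_mod_cast h1
  have hdisj : ((Finset.range N : Finset ℕ) : Set ℕ).PairwiseDisjoint A := by
    intro k _ l _ hkl
    rw [Function.onFun, Finset.disjoint_left]
    rintro ⟨x, y⟩ hx hx'
    have h1 := cs_mem (Finset.mem_product.mp hx).1
    have h2 := cs_mem (Finset.mem_product.mp hx').1
    simp only at h1 h2
    rcases lt_or_gt_of_ne hkl with h | h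
    · have h3 : (k : ℝ) + 1 ≤ l := by exact_mod_cast h
      have := mul_le_mul_of_nonneg_right h3 hw.le
      linarith [h1.2.1, h2.1]
    · have h3 : (l : ℝ) + 1 ≤ k := by exact_mod_cast h
      have := mul_le_mul_of_nonneg_right h3 hw.le
      linarith [h2.2.1, h1.1]
  refine (Finset.sum_le_sum fun k _ => hcard k).trans ?_
  rw [← Nat.cast_sum, ← Finset.card_biUnion hdisj]
  rw [← Set.ncard_coe_finset]
  have : ((Finset.range N).biUnion A : Set (ℝ × (Fin n → ℝ))) ⊆ Bx := by
    rintro ⟨x0, x⟩ hx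
    rw [Finset.mem_coe, Finset.mem_biUnion] at hx
    obtain ⟨k, hk, hx⟩ := hx
    rw [Finset.mem_range] at hk
    obtain ⟨h1, h2⟩ := Finset.mem_product.mp hx
    have h3 := cs_mem h1
    simp only at h3
    rw [Finset.mem_filter, Fintype.mem_piFinset] at h2
    exact hsub k hk x0 h3.1 h3.2.1 h3.2.2 x h2.2 (fun i => cs_mem (h2.1 i))
  exact_mod_cast Set.ncard_le_ncard this hfin

/-- an inequality for products with multiplicities -/
lemma prod_mult {n r m : ℕ} (c : Fin n → Fin r)
    (hc : ∀ j, (Finset.univ.filter (fun i => c i = j)).card ≤ m) (hm : 1 ≤ m) {x : ℝ}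
    (hx0 : 0 ≤ x) (hx1 : x ≤ 1) {Y : Fin r → ℝ} (hY0 : ∀ j, 0 ≤ Y j) (hY1 : ∀ j, Y j ≤ 1) :
    (max 0 (x + ∑ j, Y j - r)) ^ m ≤ x * ∏ i, Y (c i) := by
  classical
  have h1 := weier (Finset.univ : Finset (Fin r)) Y (fun j _ => hY0 j) (fun j _ => hY1 j)
  obtain ⟨w1, w2, w3⟩ := h1
  rw [Finset.card_univ, Fintype.card_fin] at w1
  have h2 : x + ∑ j, Y j - r ≤ x * ∏ j, Y j := by
    nlinarith [mul_nonneg (sub_nonneg.mpr hx1) (sub_nonneg.mpr w2)]
  have h3 : max 0 (x + ∑ j, Y j - r) ≤ x * ∏ j, Y j := max_le (mul_nonneg hx0 w3) h2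
  have h4 : ∏ i, Y (c i) = ∏ j, Y j ^ (Finset.univ.filter (fun i => c i = j)).card := by
    rw [← Finset.prod_fiberwise (s := Finset.univ) (g := c)]
    refine Finset.prod_congr rfl fun j _ => ?_
    rw [Finset.prod_congr rfl (g := fun _ => Y j) (fun i hi => by
      rw [(Finset.mem_filter.mp hi).2]), Finset.prod_const]
  calc (max 0 (x + ∑ j, Y j - r)) ^ m ≤ (x * ∏ j, Y j) ^ m :=
        pow_le_pow_left₀ (le_max_left _ _) h3 m
    _ = x ^ m * ∏ j, Y j ^ m := by rw [mul_pow, Finset.prod_pow]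
    _ ≤ x * ∏ j, Y j ^ (Finset.univ.filter (fun i => c i = j)).card := by
        apply mul_le_mul (pow_le_of_le_one hx0 hx1 (by omega)) _
          (Finset.prod_nonneg fun j _ => pow_nonneg (hY0 j) _) hx0
        exact Finset.prod_le_prod (fun j _ => pow_nonneg (hY0 j) _)
          (fun j _ => pow_le_pow_of_le_one (hY0 j) (hY1 j) (hc j))
    _ = x * ∏ i, Y (c i) := by rw [h4]

/-- the number of tuples of distinct simple critical zeros with differences in given long intervals,
at `r` places, is at least a fixed proportion of the expected number -/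
theorem levels {n r m : ℕ} (c : Fin n → Fin r)
    (hc : ∀ j, (Finset.univ.filter (fun i => c i = j)).card ≤ m) (hm : 1 ≤ m) {ε : ℝ} (hε : 0 < ε)
    (hεr : ε ≤ ((r : ℝ) + 1) * (2 - cMTinv) - r) :
    ∃ L : ℝ, 0 < L ∧ ∃ d : ℝ, 0 < d ∧ d < 1 ∧
    ∀ (F0 : ℂ → ℂ) (F : Fin r → ℂ → ℂ), GoodL F0 → (∀ j, GoodL (F j)) → ∃ T0 : ℝ, 10 ≤ T0 ∧
      ∀ T : ℝ, T0 ≤ T → ∀ H : ℝ, T ^ (1 - d) ≤ H → H ≤ T → ∀ α β : Fin r → ℝ,
        (∀ j, 0 ≤ α j ∧ α j + L ≤ β j ∧ β j * (2 * Real.pi / Real.log T) ≤ T ^ (1 + d)) →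
        (((r : ℝ) + 1) * (2 - cMTinv) - r - ε) ^ m * (∏ i, (β (c i) - α (c i))) *
          (H / (2 * Real.pi) * Real.log T) ≤
          ((Lev F0 (fun i => F (c i)) T H (2 * Real.pi / Real.log T) (fun i => α (c i))
            (fun i => β (c i))).ncard : ℝ) := by
  classical
  have hpi := Real.pi_pos
  have hcg := cMTinv_gt_one
  have hn0 : (0 : ℝ) ≤ n := Nat.cast_nonneg n
  have hr0 : (0 : ℝ) ≤ r := Nat.cast_nonneg r
  set Bs : ℝ := ((r : ℝ) + 1) * (2 - cMTinv) - r with hBs
  -- the main case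
  set e : ℝ := min 1 (ε / (24 * (n + r + 1))) with he
  have he0 : 0 < e := by rw [he]; positivity
  have he1 : e ≤ 1 := min_le_left _ _
  have he2 : ((n : ℝ) + r + 1) * e ≤ ε / 24 := by
    have h1 : e ≤ ε / (24 * (n + r + 1)) := min_le_right _ _
    have h2 := mul_le_mul_of_nonneg_left h1 (by positivity : (0 : ℝ) ≤ n + r + 1)
    refine h2.trans (le_of_eq ?_)
    field_simp
  have hne : ((n : ℝ) + 1) * e ≤ ε / 24 := by
    have : 0 ≤ (r : ℝ) * e := by positivity
    have h2 : ((n : ℝ) + r + 1) * e = (n + 1) * e + r * e := by ring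
    linarith
  have hre : ((r : ℝ) + 1) * e ≤ ε / 24 := by
    have : 0 ≤ (n : ℝ) * e := by positivity
    have h2 : ((n : ℝ) + r + 1) * e = (r + 1) * e + n * e := by ring
    linarith
  obtain ⟨g, hg0, d0, hd0, hd01, hcore⟩ := core he0 he1
  set L : ℝ := 3 * g + 2 * g / e + n / e with hL
  have hL0 : 0 < L := by rw [hL]; positivity
  have hL1 : 3 * g ≤ L := by
    have : 0 < 2 * g / e := by positivity
    have h2 : 0 ≤ (n : ℝ) / e := by positivity
    rw [hL]; linarith
  have hL2 : 2 * g ≤ e * L := by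
    have h1 : e * (2 * g / e) = 2 * g := by field_simp
    have h2 : 0 ≤ e * (3 * g) := by positivity
    have h3 : 0 ≤ e * (n / e) := by positivity
    rw [hL, mul_add, mul_add, h1]; linarith
  have hL3 : (n : ℝ) ≤ e * (L - 2 * g) := by
    have h1 : e * (n / e) = n := by field_simp
    have h2 : 0 ≤ e * (g + 2 * g / e) := by positivity
    have h3 : L - 2 * g = (g + 2 * g / e) + n / e := by rw [hL]; ring
    rw [h3, mul_add, h1]; linarith
  set d : ℝ := d0 / 2 with hd
  have hdpos : 0 < d := by rw [hd]; positivity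
  have hd1 : d < 1 / 2 := by rw [hd]; linarith
  have hd0d : d0 = 2 * d := by rw [hd]; ring
  refine ⟨L, hL0, d, hdpos, by linarith, fun F0 F hF0 hF => ?_⟩
  obtain ⟨T1, hT1, hc0⟩ := hcore F0 hF0
  choose T2 hT2 hci using fun i => hcore (F i) (hF i)
  -- large `T`
  have htop : Tendsto (fun T : ℝ => T ^ d) atTop atTop := tendsto_rpow_atTop hdpos
  obtain ⟨T3, hT3⟩ := (htop.eventually_ge_atTop 2).exists_forall_of_atTop
  have htop2 : Tendsto (fun T : ℝ => T ^ (1 - 2 * d)) atTop atTop :=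
    tendsto_rpow_atTop (by linarith)
  obtain ⟨T4, hT4⟩ := (htop2.eventually_ge_atTop
    (max (g * (2 * Real.pi)) (g * (2 * Real.pi) / e))).exists_forall_of_atTop
  set TS : ℝ := ∑ i, T2 i with hTS
  refine ⟨max (max T1 TS) (max (max T3 T4) 10), (le_max_right _ _).trans (le_max_right _ _),
    fun T hTT H hH1 hH2 α β hαβ => ?_⟩
  have hTT1 : T1 ≤ T := ((le_max_left _ _).trans (le_max_left _ _)).trans hTT
  have hTTS : TS ≤ T := ((le_max_right _ _).trans (le_max_left _ _)).trans hTT
  have hTT2 : ∀ i, T2 i ≤ T := by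
    intro i
    refine le_trans ?_ hTTS
    exact Finset.single_le_sum (f := T2) (fun j _ => by linarith [hT2 j]) (Finset.mem_univ i)
  have hTd := hT3 T ((((le_max_left _ _).trans (le_max_left _ _)).trans (le_max_right _ _)).trans
    hTT)
  have hTd2 := hT4 T ((((le_max_right _ _).trans (le_max_left _ _)).trans (le_max_right _ _)).trans
    hTT)
  have hT10 : 10 ≤ T := ((le_max_right _ _).trans (le_max_right _ _)).trans hTT
  have hT0 : 0 < T := by linarith
  have hlog1 : 1 ≤ Real.log T := by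
    rw [Real.le_log_iff_exp_le hT0]
    have := Real.exp_one_lt_d9
    linarith
  have hlog : 0 < Real.log T := by linarith
  set σ : ℝ := 2 * Real.pi / Real.log T with hσ
  have hσ0 : 0 < σ := by positivity
  set w : ℝ := g * σ with hw
  have hw0 : 0 < w := by positivity
  have hwle : w ≤ g * (2 * Real.pi) := by
    rw [hw, hσ]
    apply mul_le_mul_of_nonneg_left _ hg0.le
    exact div_le_self (by positivity) hlog1
  have hH0 : 0 < H := (Real.rpow_pos_of_pos hT0 _).trans_le hH1
  have hpd : T ^ (1 - d) = T ^ (1 - 2 * d) * T ^ d := by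
    rw [← Real.rpow_add hT0]; congr 1; ring
  have hHbig : 2 * T ^ (1 - 2 * d) ≤ H := by
    refine le_trans ?_ hH1
    rw [hpd, mul_comm]
    exact mul_le_mul_of_nonneg_left hTd (Real.rpow_nonneg hT0.le _)
  have hX1 : g * (2 * Real.pi) ≤ T ^ (1 - 2 * d) := (le_max_left _ _).trans hTd2
  have hX2 : g * (2 * Real.pi) / e ≤ T ^ (1 - 2 * d) := (le_max_right _ _).trans hTd2
  have hTpos2 : 0 < T ^ (1 - 2 * d) := Real.rpow_pos_of_pos hT0 _
  set N : ℕ := ⌊H / w⌋₊ with hN
  have hNle : (N : ℝ) * w ≤ H := by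
    have := Nat.floor_le (by positivity : 0 ≤ H / w)
    rwa [← hN, le_div_iff₀ hw0] at this
  have hNge : H < ((N : ℝ) + 1) * w := by
    have := Nat.lt_floor_add_one (H / w)
    rwa [← hN, div_lt_iff₀ hw0] at this
  have hNge' : H - w ≤ N * w := by
    have : ((N : ℝ) + 1) * w = N * w + w := by ring
    linarith
  have hN1 : T ^ (1 - d0) ≤ N * w := by
    rw [hd0d]
    linarith
  have hN2 : (N : ℝ) * w ≤ T := hNle.trans hH2
  have hNpos : 0 < N := by
    rcases Nat.eq_zero_or_pos N with h | h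
    · rw [h] at hN1
      rw [hd0d] at hN1
      simp only [Nat.cast_zero, zero_mul] at hN1
      linarith
    · exact h
  have hNr : (0 : ℝ) < N := by exact_mod_cast hNpos
  set K : ℝ := (1 + e) * g with hK
  have hK0 : 0 < K := by rw [hK]; positivity
  have hgK : g ≤ K := by
    rw [hK]
    have : 0 ≤ e * g := by positivity
    linarith
  set b : Fin r → ℝ := fun i => α i * σ + w with hb
  have hb0 : ∀ i, 0 ≤ b i := fun i => by
    have := mul_nonneg (hαβ i).1 hσ0.le
    simp only [hb]; linarith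
  set J : Fin r → ℕ := fun i => ⌊(β i - α i) / g⌋₊ - 1 with hJ
  have hfl : ∀ i, 3 ≤ ⌊(β i - α i) / g⌋₊ := by
    intro i
    apply Nat.le_floor
    rw [le_div_iff₀ hg0]
    have := (hαβ i).2.1
    push_cast
    linarith
  have hJ1 : ∀ i, ((J i : ℝ) + 1) * g ≤ β i - α i := by
    intro i
    have h1 : (J i : ℝ) + 1 = ⌊(β i - α i) / g⌋₊ := by
      have h2 : J i + 1 = ⌊(β i - α i) / g⌋₊ := by
        have := hfl i
        simp only [hJ]; omega
      exact_mod_cast congrArg (Nat.cast : ℕ → ℝ) h2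
    rw [h1, ← le_div_iff₀ hg0]
    apply Nat.floor_le
    apply div_nonneg _ hg0.le
    have := (hαβ i).2.1
    linarith
  have hJ2 : ∀ i, β i - α i - 2 * g ≤ (J i : ℝ) * g := by
    intro i
    have h1 : (J i : ℝ) + 1 = ⌊(β i - α i) / g⌋₊ := by
      have h2 : J i + 1 = ⌊(β i - α i) / g⌋₊ := by
        have := hfl i
        simp only [hJ]; omega
      exact_mod_cast congrArg (Nat.cast : ℕ → ℝ) h2
    have h3 := Nat.lt_floor_add_one ((β i - α i) / g)
    rw [← h1, div_lt_iff₀ hg0] at h3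
    have h4 : ((J i : ℝ) + 1 + 1) * g = J i * g + 2 * g := by ring
    linarith
  have hJpos : ∀ i, (1 : ℝ) ≤ J i := by
    intro i
    have h2 : 1 ≤ J i := by
      have := hfl i
      simp only [hJ]; omega
    exact_mod_cast h2
  have hJK0 : ∀ i, 0 < (J i : ℝ) * K := fun i => mul_pos (by linarith [hJpos i]) hK0
  have hJKn : ∀ i, (n : ℝ) ≤ e * ((J i : ℝ) * K) := by
    intro i
    refine hL3.trans (mul_le_mul_of_nonneg_left ?_ he0.le)
    have h1 : (J i : ℝ) * g ≤ J i * K := mul_le_mul_of_nonneg_left hgK (Nat.cast_nonneg _)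
    have h2 := hJ2 i
    have h3 := (hαβ i).2.1
    linarith
  -- the counting
  have hcount := lev_count (n := n) (F0 := F0) (F := fun i => F (c i)) (T := T) hw0 N
    (fun i => b (c i)) (fun i => J (c i))
    (lev_finite hF0 (fun i => hF (c i)) (T := T) (H := H) (σ := σ) (α := fun i => α (c i))
      (β := fun i => β (c i)) (by linarith) hσ0.le (fun i => (hαβ (c i)).1)) (by
    intro k hk x0 h1 h2 h3 x hxi hx
    have hk1 : (k : ℝ) + 1 ≤ N := by exact_mod_cast hk
    have hkw := mul_le_mul_of_nonneg_right hk1 hw0.le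
    have hkk : ((k : ℝ) + 1) * w = k * w + w := by ring
    have hk0 : 0 ≤ (k : ℝ) * w := by positivity
    refine ⟨by simp only; linarith, by simp only; linarith, h3, hxi, fun i => ?_⟩
    obtain ⟨q1, q2, q3⟩ := hx i
    have hbi : b (c i) = α (c i) * σ + w := rfl
    refine ⟨q3, by simp only; rw [hbi] at q1; linarith, ?_⟩
    simp only
    have h4 := mul_le_mul_of_nonneg_right (hJ1 (c i)) hσ0.le
    have h5 : ((J (c i) : ℝ) + 1) * g * σ = J (c i) * w + w := by rw [hw]; ring
    rw [h5] at h4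
    rw [hbi] at q2
    have h6 : (β (c i) - α (c i)) * σ = β (c i) * σ - α (c i) * σ := by ring
    linarith)
  refine le_trans ?_ hcount
  -- the truncated counts
  set f0 : ℕ → ℝ := fun k => min (cnt F0 (T + k * w) (T + (k + 1) * w) : ℝ) K with hf0
  set f : Fin r → ℕ → ℝ := fun i k => ∑ j ∈ Finset.range (J i),
    min (cnt (F i) (T + (b i + j * w) + k * w) (T + (b i + j * w) + (k + 1) * w) : ℝ) K with hf
  have hf0s : (2 - cMTinv - e) * (g * N) ≤ ∑ k ∈ Finset.range N, f0 k := by
    have h := hc0 T hTT1 0 le_rfl (Real.rpow_nonneg hT0.le _) N hN1 hN2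
    simp only [add_zero] at h
    exact h
  have hfs : ∀ i, (J i : ℝ) * ((2 - cMTinv - e) * (g * N)) ≤ ∑ k ∈ Finset.range N, f i k := by
    intro i
    simp only [hf]
    rw [Finset.sum_comm, ← nsmul_eq_mul, ← Finset.card_range (J i), ← Finset.sum_const,
      Finset.card_range]
    apply Finset.sum_le_sum
    intro j hj
    rw [Finset.mem_range] at hj
    have hj1 : (j : ℝ) + 1 ≤ J i := by exact_mod_cast hj
    have hjw : 0 ≤ (j : ℝ) * w := by positivity
    refine hci i T (hTT2 i) (b i + j * w) (add_nonneg (hb0 i) hjw) ?_ N hN1 hN2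
    have h1 := mul_le_mul_of_nonneg_right (hJ1 i) hσ0.le
    have h2 := mul_le_mul_of_nonneg_right hj1 hw0.le
    have h5 : ((J i : ℝ) + 1) * g * σ = J i * w + w := by rw [hw]; ring
    have h6 : (β i - α i) * σ = β i * σ - α i * σ := by ring
    have h7 : ((j : ℝ) + 1) * w = j * w + w := by ring
    have h8 := (hαβ i).2.2
    have h9 : T ^ (1 + d) ≤ T ^ (1 + d0) :=
      Real.rpow_le_rpow_of_exponent_le (by linarith) (by linarith)
    have hbi : b i = α i * σ + w := rfl
    rw [h5, h6] at h1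
    rw [h7] at h2
    rw [hbi]
    linarith
  have hf0a : ∀ k, 0 ≤ f0 k := fun k => le_min (Nat.cast_nonneg _) hK0.le
  have hf0b : ∀ k, f0 k ≤ K := fun k => min_le_right _ _
  have hfa : ∀ i k, 0 ≤ f i k := fun i k => Finset.sum_nonneg fun j _ =>
    le_min (Nat.cast_nonneg _) hK0.le
  have hfb : ∀ i k, f i k ≤ J i * K := by
    intro i k
    simp only [hf]
    calc _ ≤ ∑ j ∈ Finset.range (J i), K := Finset.sum_le_sum fun j _ => min_le_right _ _
      _ = J i * K := by rw [Finset.sum_const, Finset.card_range, nsmul_eq_mul]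
  have hfc : ∀ i k, f i k ≤ (cnt (F i) (T + b i + k * w) (T + b i + k * w + J i * w) : ℝ) := by
    intro i k
    have hkw : 0 ≤ (k : ℝ) * w := by positivity
    rw [cnt_split (hF i) (by linarith [hb0 i]) hw0.le]
    simp only [hf]
    apply Finset.sum_le_sum
    intro j _
    refine (min_le_left _ _).trans (le_of_eq ?_)
    congr 2 <;> ring
  -- the counts, diminished by `n`
  set y : Fin r → ℕ → ℝ := fun i k => max 0 (f i k - n) / (J i * K) with hy
  have hy0 : ∀ i k, 0 ≤ y i k := fun i k => div_nonneg (le_max_left _ _) (hJK0 i).le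
  have hy1 : ∀ i k, y i k ≤ 1 := by
    intro i k
    simp only [hy]
    rw [div_le_one (hJK0 i)]
    exact max_le (hJK0 i).le (by linarith [hfb i k])
  have hyc : ∀ i k, (J i : ℝ) * K * y i k ≤
      ((cnt (F i) (T + b i + k * w) (T + b i + k * w + J i * w) - n : ℕ) : ℝ) := by
    intro i k
    simp only [hy]
    rw [mul_div_cancel₀ _ (hJK0 i).ne']
    apply max_le (Nat.cast_nonneg _)
    have h1 := hfc i k
    have h2 : (cnt (F i) (T + b i + k * w) (T + b i + k * w + J i * w) : ℝ) ≤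
        ((cnt (F i) (T + b i + k * w) (T + b i + k * w + J i * w) - n : ℕ) : ℝ) + n := by
      have h3 : cnt (F i) (T + b i + k * w) (T + b i + k * w + J i * w) ≤
          (cnt (F i) (T + b i + k * w) (T + b i + k * w + J i * w) - n) + n := by omega
      exact_mod_cast h3
    linarith
  -- the product inequality in a cell
  set q1 : ℝ := K * ∏ i, ((J (c i) : ℝ) * K) with hq1
  have hq10 : 0 ≤ q1 := mul_nonneg hK0.le (Finset.prod_nonneg fun i _ => (hJK0 (c i)).le)
  set u : ℕ → ℝ := fun k => max 0 (f0 k / K + ∑ j, y j k - r) with hu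
  have hu0 : ∀ k, 0 ≤ u k := fun k => le_max_left _ _
  have hcellk : ∀ k, q1 * u k ^ m ≤
      (cnt F0 (T + k * w) (T + (k + 1) * w) : ℝ) *
      ∏ i, ((cnt (F (c i)) (T + b (c i) + k * w) (T + b (c i) + k * w + J (c i) * w) - n : ℕ) : ℝ) := by
    intro k
    have h1 := prod_mult c hc hm (x := f0 k / K) (div_nonneg (hf0a k) hK0.le)
      ((div_le_one hK0).mpr (hf0b k)) (Y := fun j => y j k) (fun j => hy0 j k) (fun j => hy1 j k)
    calc q1 * u k ^ m ≤ q1 * (f0 k / K * ∏ i, y (c i) k) := mul_le_mul_of_nonneg_left h1 hq10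
      _ = f0 k * ∏ i, ((J (c i) : ℝ) * K * y (c i) k) := by
        rw [hq1, Finset.prod_mul_distrib (f := fun i => (J (c i) : ℝ) * K)
          (g := fun i => y (c i) k)]
        have : K ≠ 0 := hK0.ne'
        field_simp
      _ ≤ _ := by
        apply mul_le_mul (min_le_left _ _) (Finset.prod_le_prod (fun i _ =>
          mul_nonneg (hJK0 (c i)).le (hy0 (c i) k)) (fun i _ => hyc (c i) k))
          (Finset.prod_nonneg fun i _ => mul_nonneg (hJK0 (c i)).le (hy0 (c i) k))
          (Nat.cast_nonneg _)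
  refine le_trans ?_ (Finset.sum_le_sum fun k _ => hcellk k)
  rw [← Finset.mul_sum]
  -- the sum over the cells
  set p : ℝ := 2 - cMTinv with hp
  have hp1 : p ≤ 1 := by rw [hp]; linarith
  set Q : ℝ := Bs - ε / 8 with hQ
  have hQ0 : 0 < Q := by rw [hQ]; linarith
  have hP : p - 2 * e ≤ (p - e) * (1 / (1 + e)) := by
    rw [mul_one_div, le_div_iff₀ (by linarith)]
    have h2 : p * e ≤ 1 * e := mul_le_mul_of_nonneg_right hp1 he0.le
    have h3 : 0 ≤ e * e := by positivity
    have h4 : (p - 2 * e) * (1 + e) = p - 2 * e + p * e - 2 * (e * e) := by ring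
    rw [h4]; linarith
  have hsum : Q * N ≤ ∑ k ∈ Finset.range N, u k := by
    have h0 : ∑ k ∈ Finset.range N, (f0 k / K + ∑ j, y j k - r) ≤ ∑ k ∈ Finset.range N, u k :=
      Finset.sum_le_sum fun k _ => le_max_right _ _
    refine le_trans ?_ h0
    rw [Finset.sum_sub_distrib, Finset.sum_add_distrib, Finset.sum_const, Finset.card_range,
      nsmul_eq_mul, Finset.sum_comm]
    have h1 : (p - 2 * e) * N ≤ ∑ k ∈ Finset.range N, f0 k / K := by
      rw [← Finset.sum_div, le_div_iff₀ hK0]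
      refine le_trans ?_ hf0s
      have h2 : (p - e) * (g * N) = (p - e) * (1 / (1 + e)) * (N * K) := by
        rw [hK]
        field_simp
      rw [h2]
      have h3 := mul_le_mul_of_nonneg_right hP (by positivity : 0 ≤ (N : ℝ) * K)
      linarith
    have h2 : ∀ i : Fin r, (p - 3 * e) * N ≤ ∑ k ∈ Finset.range N, y i k := by
      intro i
      simp only [hy]
      rw [← Finset.sum_div, le_div_iff₀ (hJK0 i)]
      have h3 : ∑ k ∈ Finset.range N, (f i k - n) ≤ ∑ k ∈ Finset.range N, max 0 (f i k - n) :=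
        Finset.sum_le_sum fun k _ => le_max_right _ _
      refine le_trans ?_ h3
      rw [Finset.sum_sub_distrib, Finset.sum_const, Finset.card_range, nsmul_eq_mul]
      have h4 := hfs i
      have h5 : (J i : ℝ) * ((p - e) * (g * N)) = (p - e) * (1 / (1 + e)) * (N * (J i * K)) := by
        rw [hK]
        field_simp
      rw [h5] at h4
      have h6 := mul_le_mul_of_nonneg_right hP (by positivity : 0 ≤ (N : ℝ) * (J i * K))
      have h7 := mul_le_mul_of_nonneg_left (hJKn i) hNr.le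
      linarith
    have h3 : (r : ℝ) * ((p - 3 * e) * N) ≤ ∑ i : Fin r, ∑ k ∈ Finset.range N, y i k := by
      calc (r : ℝ) * ((p - 3 * e) * N) = ∑ _i : Fin r, (p - 3 * e) * N := by
            rw [Finset.sum_const, Finset.card_univ, Fintype.card_fin, nsmul_eq_mul]
        _ ≤ _ := Finset.sum_le_sum fun i _ => h2 i
    have h4 : Q * N ≤ (p - 2 * e) * N + r * ((p - 3 * e) * N) - N * r := by
      have h5 : (p - 2 * e) * N + r * ((p - 3 * e) * N) - N * r =
          (Bs - 2 * e - 3 * (r * e)) * N := by rw [hBs, hp]; ring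
      rw [h5]
      apply mul_le_mul_of_nonneg_right _ hNr.le
      have h6 : ((r : ℝ) + 1) * e = r * e + e := by ring
      have h7 : 0 ≤ (r : ℝ) * e := by positivity
      rw [hQ]
      linarith
    linarith
  -- Jensen
  have hjen : N * Q ^ m ≤ ∑ k ∈ Finset.range N, u k ^ m := by
    obtain ⟨m', rfl⟩ : ∃ m', m = m' + 1 := ⟨m - 1, by omega⟩
    have h1 := pow_sum_div_card_le_sum_pow (s := Finset.range N) (f := u) (fun k _ => hu0 k) m'
    refine le_trans ?_ h1
    rw [Finset.card_range, le_div_iff₀ (by positivity)]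
    calc (N : ℝ) * Q ^ (m' + 1) * N ^ m' = (Q * N) ^ (m' + 1) := by ring
      _ ≤ _ := pow_le_pow_left₀ (by positivity) hsum _
  refine le_trans ?_ (mul_le_mul_of_nonneg_left hjen hq10)
  -- the final estimates
  set P : ℝ := ∏ i, (β (c i) - α (c i)) with hPP
  have hP0 : 0 ≤ P := Finset.prod_nonneg fun i _ => by
    have := (hαβ (c i)).2.1
    linarith
  have he1' : 0 ≤ 1 - e := by linarith
  have hprod : (1 - e) ^ n * P ≤ ∏ i, ((J (c i) : ℝ) * K) := by
    have h1 : (1 - e) ^ n * P = ∏ i, ((1 - e) * (β (c i) - α (c i))) := by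
      rw [Finset.prod_mul_distrib, Finset.prod_const, Finset.card_univ, Fintype.card_fin]
    rw [h1]
    apply Finset.prod_le_prod
    · intro i _
      have := (hαβ (c i)).2.1
      exact mul_nonneg he1' (by linarith)
    · intro i _
      have h2 : (J (c i) : ℝ) * g ≤ J (c i) * K := mul_le_mul_of_nonneg_left hgK (Nat.cast_nonneg _)
      have h3 := hJ2 (c i)
      have h4 : e * L ≤ e * (β (c i) - α (c i)) := by
        apply mul_le_mul_of_nonneg_left _ he0.le
        linarith [(hαβ (c i)).2.1]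
      have h5 : (1 - e) * (β (c i) - α (c i)) = β (c i) - α (c i) - e * (β (c i) - α (c i)) := by
        ring
      rw [h5]
      linarith
  have hgN : (1 - e) * (H / (2 * Real.pi) * Real.log T) ≤ g * N := by
    have h1 : H / (2 * Real.pi) * Real.log T = H / σ := by rw [hσ]; field_simp
    have h2 : H / σ - g ≤ g * N := by
      have h3 : (H - w) / σ ≤ N * w / σ := div_le_div_of_nonneg_right hNge' hσ0.le
      have h4 : (H - w) / σ = H / σ - g := by rw [hw]; field_simp
      have h5 : N * w / σ = g * N := by rw [hw]; field_simp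
      linarith
    have h6 : g ≤ e * (H / σ) := by
      rw [mul_div_assoc', le_div_iff₀ hσ0]
      rw [div_le_iff₀ he0] at hX2
      have h7 : e * (2 * T ^ (1 - 2 * d)) ≤ e * H := mul_le_mul_of_nonneg_left hHbig he0.le
      have h8 : 0 ≤ e * T ^ (1 - 2 * d) := mul_nonneg he0.le (Real.rpow_nonneg hT0.le _)
      have h9 : g * σ = w := rfl
      rw [h9]
      linarith
    rw [h1]
    have h7 : (1 - e) * (H / σ) = H / σ - e * (H / σ) := by ring
    rw [h7]
    linarith
  have hX0 : 0 ≤ H / (2 * Real.pi) * Real.log T := by positivity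
  have hbern : 1 - ((n : ℝ) + 1) * e ≤ (1 - e) ^ (n + 1) := by
    have h1 := one_add_mul_le_pow (a := -e) (by linarith) (n + 1)
    push_cast at h1
    have h2 : 1 + ((n : ℝ) + 1) * -e = 1 - ((n : ℝ) + 1) * e := by ring
    rw [h2] at h1
    have h3 : 1 + -e = 1 - e := by ring
    rwa [h3] at h1
  have hBs1 : Bs ≤ 1 := by
    have h5 := mul_le_mul_of_nonneg_left hp1 (by positivity : (0 : ℝ) ≤ r + 1)
    rw [hBs]; linarith
  have hfin1 : (Bs - ε) ^ m ≤ Q ^ m * (1 - e) ^ (n + 1) := by
    obtain ⟨m', rfl⟩ : ∃ m', m = m' + 1 := ⟨m - 1, by omega⟩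
    have h0 : 0 ≤ Bs - ε := by linarith
    have h1 : (Bs - ε) ^ m' ≤ Q ^ m' := pow_le_pow_left₀ h0 (by rw [hQ]; linarith) _
    have h2 : Bs - ε ≤ Q * (1 - e) ^ (n + 1) := by
      have h3 : Q * (1 - ((n : ℝ) + 1) * e) ≤ Q * (1 - e) ^ (n + 1) :=
        mul_le_mul_of_nonneg_left hbern hQ0.le
      have h4 : Q * (((n : ℝ) + 1) * e) ≤ 1 * (ε / 24) :=
        mul_le_mul (by rw [hQ]; linarith) hne (by positivity) (by norm_num)
      have h5 : Q * (1 - ((n : ℝ) + 1) * e) = Q - Q * (((n : ℝ) + 1) * e) := by ring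
      rw [h5] at h3
      rw [hQ] at h3 h4 ⊢
      linarith
    calc (Bs - ε) ^ (m' + 1) = (Bs - ε) ^ m' * (Bs - ε) := pow_succ _ _
      _ ≤ Q ^ m' * (Q * (1 - e) ^ (n + 1)) := mul_le_mul h1 h2 h0 (by positivity)
      _ = Q ^ (m' + 1) * (1 - e) ^ (n + 1) := by ring
  calc (Bs - ε) ^ m * P * (H / (2 * Real.pi) * Real.log T) ≤
        (Q ^ m * (1 - e) ^ (n + 1)) * P * (H / (2 * Real.pi) * Real.log T) :=
        mul_le_mul_of_nonneg_right (mul_le_mul_of_nonneg_right hfin1 hP0) hX0
    _ = Q ^ m * ((1 - e) ^ n * P) * ((1 - e) * (H / (2 * Real.pi) * Real.log T)) := by ring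
    _ ≤ Q ^ m * (∏ i, ((J (c i) : ℝ) * K)) * (g * N) := by
        have hQm : 0 ≤ Q ^ m := pow_nonneg hQ0.le _
        apply mul_le_mul (mul_le_mul_of_nonneg_left hprod hQm) hgN
          (mul_nonneg he1' hX0) (mul_nonneg hQm (Finset.prod_nonneg fun i _ => (hJK0 (c i)).le))
    _ ≤ Q ^ m * (∏ i, ((J (c i) : ℝ) * K)) * (K * N) := by
        have hQm : 0 ≤ Q ^ m := pow_nonneg hQ0.le _
        apply mul_le_mul_of_nonneg_left (mul_le_mul_of_nonneg_right hgK (Nat.cast_nonneg _))
        exact mul_nonneg hQm (Finset.prod_nonneg fun i _ => (hJK0 (c i)).le)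
    _ = q1 * (N * Q ^ m) := by rw [hq1]; ring

end Pool.Agent.TH342.CV
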