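import Pool.Agent.TH342.CV.Two
import Pool.Agent.H370R2.DirGood

/-!
# Pairs of simple critical zeros of two L-functions
-/

open Filter Topology Complex Set MeasureTheory

namespace Pool.Agent.TH342.CV

open H370

/-- the pairs `(x, y)` of ordinates of simple critical zeros, `x` of `F` in `(T, T + H]` and `y` of
`G`, with `y - x` between `α` and `β` times `2π / log T` -/
def PP (F G : ℂ → ℂ) (T H α β : ℝ) : Set (ℝ × ℝ) :=
  {z | T < z.1 ∧ z.1 ≤ T + H ∧ SimpleAt F z.1 ∧ SimpleAt G z.2 ∧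
    α < (z.2 - z.1) * Real.log T / (2 * Real.pi) ∧
    (z.2 - z.1) * Real.log T / (2 * Real.pi) < β}

lemma conv1 {T u α : ℝ} (hT : 1 < T) :
    α * (2 * Real.pi / Real.log T) < u ↔ α < u * Real.log T / (2 * Real.pi) := by
  have hlog : 0 < Real.log T := Real.log_pos hT
  have hpi := Real.pi_pos
  rw [lt_div_iff₀ (by positivity), mul_div_assoc', div_lt_iff₀ hlog]

lemma conv2 {T u α : ℝ} (hT : 1 < T) :
    u < α * (2 * Real.pi / Real.log T) ↔ u * Real.log T / (2 * Real.pi) < α := by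
  have hlog : 0 < Real.log T := Real.log_pos hT
  have hpi := Real.pi_pos
  rw [div_lt_iff₀ (by positivity), mul_div_assoc', lt_div_iff₀ hlog]

lemma PP_finite {F G : ℂ → ℂ} (hF : GoodL F) (hG : GoodL G) {T H α β : ℝ} (hT : 2 ≤ T)
    (hα : 0 ≤ α) : (PP F G T H α β).Finite := by
  have h0 := simple_finite hF (T1 := T) (T2 := T + H) (by linarith)
  have h1 := simple_finite hG (T1 := T) (T2 := T + H + β * (2 * Real.pi / Real.log T)) (by linarith)
  refine (h0.prod h1).subset ?_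
  rintro ⟨x, y⟩ ⟨p1, p2, p3, p4, p5, p6⟩
  simp only at p1 p2 p3 p4 p5 p6
  have hlog : 0 < Real.log T := Real.log_pos (by linarith)
  have hpi := Real.pi_pos
  rw [← conv1 (by linarith)] at p5
  rw [← conv2 (by linarith)] at p6
  have h2 : 0 ≤ α * (2 * Real.pi / Real.log T) := by positivity
  exact ⟨⟨p1, p2, p3⟩, ⟨by simp only; linarith, by simp only; linarith, p4⟩⟩

/-- a sum of cardinalities of disjoint subsets -/
lemma sum_ncard_le {ι : Type*} {B : Set ι} (hB : B.Finite) (A : ℕ → Set ι) (k : ℕ)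
    (hA : ∀ j, j < k → A j ⊆ B) (hd : ∀ i j, i < j → j < k → Disjoint (A i) (A j)) :
    ∑ j ∈ Finset.range k, (A j).ncard ≤ B.ncard := by
  classical
  set f : ℕ → Finset ι := fun j => if h : (A j).Finite then h.toFinset else ∅ with hf
  have hfc : ∀ j, (A j).ncard = (f j).card := by
    intro j
    simp only [hf]
    split_ifs with h
    · exact Set.ncard_eq_toFinset_card _ h
    · rw [Finset.card_empty]; exact Set.Infinite.ncard h
  have hfm : ∀ j x, x ∈ f j → x ∈ A j := by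
    intro j x hx
    simp only [hf] at hx
    split_ifs at hx with h
    · exact (Set.Finite.mem_toFinset h).mp hx
    · exact absurd hx (Finset.notMem_empty _)
  rw [Finset.sum_congr rfl (fun j _ => hfc j), ← Finset.card_biUnion]
  · rw [← Set.ncard_coe_finset]
    apply Set.ncard_le_ncard _ hB
    intro x hx
    rw [Finset.mem_coe, Finset.mem_biUnion] at hx
    obtain ⟨j, hj, hx⟩ := hx
    exact hA j (Finset.mem_range.mp hj) (hfm j x hx)
  · intro i hi j hj hij
    rw [Function.onFun, Finset.disjoint_left]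
    intro x hx hx'
    rw [Finset.mem_coe, Finset.mem_range] at hi hj
    rcases lt_or_gt_of_ne hij with h | h
    · exact Set.disjoint_left.mp (hd i j h hj) (hfm i x hx) (hfm j x hx')
    · exact Set.disjoint_left.mp (hd j i h hi) (hfm j x hx') (hfm i x hx)

/-- long windows -/
theorem long_windows {ε : ℝ} (hε : 0 < ε) : ∃ L : ℝ, 0 < L ∧ ∃ d : ℝ, 0 < d ∧ d < 1 ∧
    ∀ F G : ℂ → ℂ, GoodL F → GoodL G → ∃ T0 : ℝ, 10 ≤ T0 ∧
      ∀ T : ℝ, T0 ≤ T → ∀ H : ℝ, T ^ (1 - d) ≤ H → H ≤ T → ∀ α β : ℝ,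
        0 ≤ α → α + L ≤ β → β * (2 * Real.pi / Real.log T) ≤ T ^ (1 + d) →
        (2 * (2 - cMTinv) - 1 - ε) * (β - α) * (H / (2 * Real.pi) * Real.log T) ≤
          ((PP F G T H α β).ncard : ℝ) := by
  obtain ⟨L, hL, d, hd0, hd1, h⟩ := boxes 1 hε
  refine ⟨L, hL, d, hd0, hd1, fun F G hF hG => ?_⟩
  obtain ⟨T0, hT0, hT⟩ := h F (fun _ => G) hF (fun _ => hG)
  refine ⟨T0, hT0, fun T hTT H hH hHT α β hα hαβ hβ => ?_⟩
  have key := hT T hTT H hH hHT (fun _ => α) (fun _ => β) (fun _ => ⟨hα, hαβ, hβ⟩)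
  have hT10 : 10 ≤ T := hT0.trans hTT
  rw [Fin.prod_univ_one] at key
  have e : ((1 : ℕ) : ℝ) + 1 = 2 := by norm_num
  rw [e, Nat.cast_one] at key
  refine key.trans ?_
  have hfin := PP_finite hF hG (H := H) (β := β) (by linarith : 2 ≤ T) hα
  have hsub : Box F (fun _ : Fin 1 => G) T H (2 * Real.pi / Real.log T) (fun _ => α) (fun _ => β) ⊆
      (fun z : ℝ × ℝ => (z.1, fun _ : Fin 1 => z.2)) '' PP F G T H α β := by
    rintro ⟨x, y⟩ ⟨h1, h2, h3, h4⟩
    obtain ⟨h5, h6, h7⟩ := h4 0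
    simp only at h1 h2 h3 h5 h6 h7
    refine ⟨(x, y 0), ⟨h1, h2, h3, h5, ?_, ?_⟩, ?_⟩
    · exact (conv1 (by linarith)).mp h6
    · exact (conv2 (by linarith)).mp h7
    · simp only [Prod.mk.injEq, true_and]
      funext i
      rw [Subsingleton.elim i 0]
  have h1 := Set.ncard_le_ncard hsub (hfin.image _)
  have h2 := Set.ncard_image_le (f := fun z : ℝ × ℝ => (z.1, fun _ : Fin 1 => z.2)) hfin
  exact_mod_cast h1.trans h2

/-- short windows -/
theorem short_windows {L ν δ c : ℝ} (hT : Pool.Agent.W201.Tier L ν δ c) :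
    ∃ d : ℝ, 0 < d ∧ d < 1 ∧ ∀ F G : ℂ → ℂ, GoodL F → GoodL G → ∃ T0 : ℝ, 10 ≤ T0 ∧
      ∀ T : ℝ, T0 ≤ T → ∀ H : ℝ, T ^ (1 - d) ≤ H → H ≤ T → ∀ α β : ℝ,
        0 ≤ α → L ≤ β - α → β * (2 * Real.pi / Real.log T) ≤ T ^ (1 + d) →
        c / L * (β - α) * (H / (2 * Real.pi) * Real.log T) ≤
          ((PP F G T H α β).ncard : ℝ) := by
  classical
  obtain ⟨d, hd0, hd1, h⟩ := two_main hT
  refine ⟨d, hd0, hd1, fun F G hF hG => ?_⟩
  obtain ⟨T0, hT0, hT'⟩ := h F G hF hG
  refine ⟨T0, hT0, fun T hTT H hH hHT α β hα hαβ hβ => ?_⟩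
  have hT10 : 10 ≤ T := hT0.trans hTT
  have hlog : 0 < Real.log T := Real.log_pos (by linarith)
  have hpi := Real.pi_pos
  have hL0 := hT.L0
  have hc0 := hT.c0
  set σ : ℝ := 2 * Real.pi / Real.log T with hσ
  have hσ0 : 0 < σ := by positivity
  have hH0 : 0 ≤ H := (Real.rpow_nonneg (by linarith) _).trans hH
  set M : ℝ := H / (2 * Real.pi) * Real.log T with hM
  have hM0 : 0 ≤ M := by positivity
  have hfin := PP_finite hF hG (H := H) (β := β) (by linarith : 2 ≤ T) hα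
  set k := ⌊(β - α) / L⌋₊ with hk
  have h1 : 1 ≤ (β - α) / L := by rw [le_div_iff₀ hL0]; linarith
  have hk1 : 1 ≤ k := by
    rw [hk]; exact Nat.le_floor (by exact_mod_cast h1)
  have hk1' : (1 : ℝ) ≤ k := by exact_mod_cast hk1
  have h2 : (k : ℝ) ≤ (β - α) / L := Nat.floor_le (by linarith)
  have h3 : (β - α) / L < k + 1 := Nat.lt_floor_add_one _
  rw [le_div_iff₀ hL0] at h2
  have hwin : ∀ j : ℕ, j < k → 2 * c * M ≤
      ((PP F G T H (α + j * L) (α + (j + 1) * L)).ncard : ℝ) := by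
    intro j hj
    have hj0 : (0 : ℝ) ≤ j := Nat.cast_nonneg j
    have hj1 : (j : ℝ) + 1 ≤ k := by exact_mod_cast hj
    have hj2 : ((j : ℝ) + 1) * L ≤ k * L := mul_le_mul_of_nonneg_right hj1 hL0.le
    have hjL : ((j : ℝ) + 1) * L = j * L + L := by ring
    have hjL0 : 0 ≤ (j : ℝ) * L := by positivity
    have ha0 : 0 ≤ (α + j * L) * σ := by positivity
    have haT : (α + j * L) * σ ≤ T ^ (1 + d) := by
      refine le_trans (mul_le_mul_of_nonneg_right ?_ hσ0.le) hβ
      linarith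
    refine (hT' T hTT H hH hHT _ ha0 haT).trans ?_
    have hfinj := PP_finite hF hG (H := H) (β := α + (j + 1) * L) (by linarith : 2 ≤ T)
      (by positivity : 0 ≤ α + j * L)
    have hsub : Part F G T H ((α + j * L) * σ) ((α + j * L) * σ + L * σ) ⊆
        Prod.fst '' PP F G T H (α + j * L) (α + (j + 1) * L) := by
      rintro x ⟨p1, p2, p3, y, p4, p5, p6⟩
      refine ⟨(x, y), ⟨p1, p2, p3, p4, ?_, ?_⟩, rfl⟩
      · exact (conv1 (by linarith)).mp p5
      · have e : (α + j * L) * σ + L * σ = (α + (j + 1) * L) * σ := by ring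
        rw [e] at p6
        exact (conv2 (by linarith)).mp p6
    have q1 := Set.ncard_le_ncard hsub (hfinj.image _)
    have q2 := Set.ncard_image_le (f := Prod.fst) hfinj
    exact_mod_cast q1.trans q2
  have hsum := sum_ncard_le hfin (fun j : ℕ => PP F G T H (α + j * L) (α + (j + 1) * L)) k
    (by
      intro j hj
      rintro ⟨x, y⟩ ⟨p1, p2, p3, p4, p5, p6⟩
      have hj0 : (0 : ℝ) ≤ j := Nat.cast_nonneg j
      have hj1 : (j : ℝ) + 1 ≤ k := by exact_mod_cast hj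
      have hj2 : ((j : ℝ) + 1) * L ≤ k * L := mul_le_mul_of_nonneg_right hj1 hL0.le
      have hjL0 : 0 ≤ (j : ℝ) * L := by positivity
      exact ⟨p1, p2, p3, p4, lt_of_le_of_lt (by linarith) p5, lt_of_lt_of_le p6 (by linarith)⟩)
    (by
      intro i j hij hj
      rw [Set.disjoint_left]
      rintro ⟨x, y⟩ ⟨-, -, -, -, -, p6⟩ ⟨-, -, -, -, q5, -⟩
      have hj1 : (i : ℝ) + 1 ≤ j := by exact_mod_cast hij
      have hj2 : ((i : ℝ) + 1) * L ≤ j * L := mul_le_mul_of_nonneg_right hj1 hL0.le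
      linarith)
  have hsum' : (k : ℝ) * (2 * c * M) ≤ ((PP F G T H α β).ncard : ℝ) := by
    have q1 : ∑ j ∈ Finset.range k, (2 * c * M) ≤
        ∑ j ∈ Finset.range k, ((PP F G T H (α + j * L) (α + (j + 1) * L)).ncard : ℝ) :=
      Finset.sum_le_sum fun j hj => hwin j (Finset.mem_range.mp hj)
    rw [Finset.sum_const, Finset.card_range, nsmul_eq_mul] at q1
    refine q1.trans ?_
    exact_mod_cast hsum
  refine le_trans ?_ hsum'
  have e : c / L * (β - α) * M = ((β - α) / L) * (c * M) := by ring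
  have e2 : (k : ℝ) * (2 * c * M) = (2 * k) * (c * M) := by ring
  rw [e, e2]
  exact mul_le_mul_of_nonneg_right (by linarith) (by positivity)

end Pool.Agent.TH342.CV
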