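import Pool.Agent.TH342.CV.Joint

/-!
# Counting the tuples
-/

open Complex Filter Topology Set MeasureTheory
open scoped BigOperators ComplexConjugate ENNReal

namespace Pool.Agent.TH342.CV

open H370

/-- the tuples of simple critical zeros `x i` of `F i` in the shifted intervals with
`x i - a i` within `r` of each other -/
def Tup {m : ℕ} (F : Fin m → ℂ → ℂ) (T H : ℝ) (a : Fin m → ℝ) (r : ℝ) : Set (Fin m → ℝ) :=
  {x | (∀ i, T + a i < x i ∧ x i ≤ T + a i + H ∧ SimpleAt (F i) (x i)) ∧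
    ∀ i j, |(x i - a i) - (x j - a j)| < r}

lemma simple_finite {F : ℂ → ℂ} (hF : GoodL F) {T1 T2 : ℝ} (hT : 1 ≤ T1) :
    {x : ℝ | T1 < x ∧ x ≤ T2 ∧ SimpleAt F x}.Finite := by
  refine Set.Finite.of_finite_image (f := fun x : ℝ => (1 / 2 + x * I : ℂ))
    ((zset_finite hF T1 T2 hT).subset ?_) ?_
  · rintro s ⟨x, hx, rfl⟩
    have h1 : (1 / 2 + (x : ℂ) * I).re = 1 / 2 := by simp
    have h2 : (1 / 2 + (x : ℂ) * I).im = x := by simp
    refine ⟨?_, ?_, ?_, ?_, hx.2.2.1⟩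
    · simp only [h1]; norm_num
    · simp only [h1]; norm_num
    · simp only [h2]; exact hx.1
    · simp only [h2]; exact hx.2.1
  · intro x _ y _ hxy
    have := congrArg Complex.im hxy
    simpa using this

lemma tup_finite {m : ℕ} {F : Fin m → ℂ → ℂ} (hF : ∀ i, GoodL (F i)) {T H : ℝ} {a : Fin m → ℝ}
    (hT : 1 ≤ T) (ha : ∀ i, 0 ≤ a i) (r : ℝ) : (Tup F T H a r).Finite := by
  have h := Set.Finite.pi' (fun i => simple_finite (hF i) (T1 := T + a i) (T2 := T + a i + H)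
    (by linarith [ha i]))
  refine h.subset ?_
  intro x hx i
  exact hx.1 i

/-- many tuples -/
theorem tuples {m : ℕ} {F : Fin m → ℂ → ℂ} (hF : ∀ i, GoodL (F i)) {T H : ℝ} {a : Fin m → ℝ}
    (hT : 1 ≤ T) (ha : ∀ i, 0 ≤ a i) {r v : ℝ} (hr : 0 < r) (hm : 0 < m)
    (hV : ENNReal.ofReal v ≤ volume {t : ℝ | t ∈ Ioo T (T + H) ∧ m ≤
          {i | t ∈ {t : ℝ | T < t ∧ t < T + H ∧ ∃ x : ℝ, t + a i < x ∧
            x < t + a i + r ∧ x ≤ T + a i + H ∧ SimpleAt (F i) x}}.ncard}) :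
    v / r ≤ ((Tup F T H a r).ncard : ℝ) := by
  classical
  have hfin := tup_finite hF (H := H) hT ha r
  set Z := hfin.toFinset with hZ
  set i0 : Fin m := ⟨0, hm⟩ with hi0
  have hcov : {t : ℝ | t ∈ Ioo T (T + H) ∧ m ≤
          {i | t ∈ {t : ℝ | T < t ∧ t < T + H ∧ ∃ x : ℝ, t + a i < x ∧
            x < t + a i + r ∧ x ≤ T + a i + H ∧ SimpleAt (F i) x}}.ncard} ⊆
      ⋃ x ∈ Z, Ioo (x i0 - a i0 - r) (x i0 - a i0) := by
    rintro t ⟨ht, hm'⟩
    have hall : ∀ i, t ∈ {t : ℝ | T < t ∧ t < T + H ∧ ∃ x : ℝ, t + a i < x ∧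
            x < t + a i + r ∧ x ≤ T + a i + H ∧ SimpleAt (F i) x} := by
      set B : Set (Fin m) := {i | t ∈ {t : ℝ | T < t ∧ t < T + H ∧ ∃ x : ℝ, t + a i < x ∧
            x < t + a i + r ∧ x ≤ T + a i + H ∧ SimpleAt (F i) x}} with hB
      have h1 : B = Set.univ := by
        apply Set.eq_of_subset_of_ncard_le (Set.subset_univ _)
        rw [Set.ncard_univ, Nat.card_eq_fintype_card, Fintype.card_fin]
        exact hm'
      intro i
      have : i ∈ B := by rw [h1]; exact Set.mem_univ i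
      exact this
    choose h1 h2 x h3 h4 h5 h6 using hall
    rw [Set.mem_iUnion₂]
    refine ⟨x, ?_, ?_⟩
    · rw [hZ, Set.Finite.mem_toFinset]
      refine ⟨fun i => ⟨by linarith [h3 i, h1 i], h5 i, h6 i⟩, fun i j => ?_⟩
      rw [abs_lt]
      constructor <;> linarith [h3 i, h3 j, h4 i, h4 j]
    · constructor <;> linarith [h3 i0, h4 i0]
  have h1 := hV.trans ((measure_mono hcov).trans (measure_biUnion_finset_le Z _))
  have h2 : ∀ x ∈ Z, volume (Ioo (x i0 - a i0 - r) (x i0 - a i0)) = ENNReal.ofReal r := by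
    intro x _
    rw [Real.volume_Ioo]
    congr 1
    ring
  rw [Finset.sum_congr rfl h2, Finset.sum_const, nsmul_eq_mul, ← ENNReal.ofReal_natCast,
    ← ENNReal.ofReal_mul (by positivity), ENNReal.ofReal_le_ofReal_iff (by positivity)] at h1
  rw [div_le_iff₀ hr, Set.ncard_eq_toFinset_card _ hfin]
  exact h1

end Pool.Agent.TH342.CV
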