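import Pool.Agent.TH342.CV.Boxes
import Pool.Agent.W201.Asym

/-!
# Windows of length `7/5`: pairs of simple critical zeros of two L-functions
-/

open Complex Filter Topology Set MeasureTheory
open scoped BigOperators ComplexConjugate

namespace Pool.Agent.TH342.CV

open H370 Pool.Agent.W201

lemma disj1 {r a : ℝ} {S S' : Finset ℝ}
    (h : ∀ x ∈ S, ∀ y ∈ S', ¬ (a < y - x ∧ y - x < a + 2 * r)) :
    Disjoint (UU r S') ((fun t => t + (a + r)) '' WW r S) := by
  rw [Set.disjoint_left]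
  rintro t ⟨y, hy, hy1, hy2⟩ ⟨s, hs, hst⟩
  have h1 : y - (a + r) ∈ Ioo (s - r) (s + r) := by
    simp only at hst
    constructor <;> linarith
  obtain ⟨x, hx, hx1, hx2⟩ := hs h1
  exact h x hx y hy ⟨by linarith, by linarith⟩

lemma disj2 {r a : ℝ} {S S' : Finset ℝ}
    (h : ∀ x ∈ S, ∀ y ∈ S', ¬ (a < y - x ∧ y - x < a + 2 * r)) :
    Disjoint ((fun t => t + (a + r)) '' UU r S) (WW r S') := by
  rw [Set.disjoint_left]
  rintro t ⟨s, ⟨x, hx, hx1, hx2⟩, hst⟩ hy
  have h1 : x + (a + r) ∈ Ioo (t - r) (t + r) := by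
    simp only at hst
    constructor <;> linarith
  obtain ⟨y, hy, hy1, hy2⟩ := hy h1
  exact h x hx y hy ⟨by linarith, by linarith⟩

/-- the test matrix of a chain -/
lemma chain_any {Λ r ν δ A B : ℝ} (hr : 0 < r) (hν : 0 ≤ ν) (hδ : 0 ≤ δ) (hAB : A ≤ B)
    (hk : ∀ x y : ℝ, x < y → ∃ t : ℝ, |t| ≤ 1 / 2 ∧
      1 - (4 * t * (phi Λ ((x : ℂ) - y)).re - 2 * t ^ 2) ≤
        if y - x < 2 * r then (2 * ν + δ) * (y - x) else ν * (2 * r) + δ * (y - x))
    (S : Finset ℝ) (hS : ∀ x ∈ S, A ≤ x ∧ x ≤ B) :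
    ∃ Y : ℝ → ℝ → ℝ, (∀ v : ℝ → ℂ, ∑ x ∈ S, ∑ y ∈ S, Y x y * (conj (v x) * v y).re ≤
          ∑ x ∈ S, ‖v x‖ ^ 2) ∧
        (S.card : ℝ) - YT Λ S Y ≤ 1 + ν * ((volume (UU r S)).toReal + (volume (WW r S)).toReal) +
          δ * (B - A) := by
  classical
  rcases S.eq_empty_or_nonempty with hSe | hne
  · subst hSe
    refine ⟨fun _ _ => 0, fun v => by simp, ?_⟩
    have h1 : 0 ≤ ν * ((volume (UU r ∅)).toReal + (volume (WW r ∅)).toReal) :=
      mul_nonneg hν (add_nonneg ENNReal.toReal_nonneg ENNReal.toReal_nonneg)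
    have h2 : 0 ≤ δ * (B - A) := mul_nonneg hδ (by linarith)
    simp only [YT, Finset.sum_empty, Finset.card_empty]
    norm_num
    linarith
  · obtain ⟨Y, hY, hYc⟩ := chain hr hν hk S.card S rfl hne
    refine ⟨Y, fun v => (hY v).trans (by
      have : 0 ≤ ‖v (S.min' hne)‖ ^ 2 := by positivity
      linarith), hYc.trans ?_⟩
    have h3 : S.max' hne - S.min' hne ≤ B - A := by
      linarith [(hS _ (S.max'_mem hne)).2, (hS _ (S.min'_mem hne)).1]
    have h5 := mul_le_mul_of_nonneg_left h3 hδ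
    linarith

/-- the volumes of the neighbourhoods -/
lemma volumes {r a A B : ℝ} (hr : 0 < r) (hAB : A ≤ B) {S S' : Finset ℝ}
    (hS : ∀ x ∈ S, A ≤ x ∧ x ≤ B) (hS' : ∀ x ∈ S', A + a ≤ x ∧ x ≤ B + a)
    (h : ∀ x ∈ S, ∀ y ∈ S', ¬ (a < y - x ∧ y - x < a + 2 * r)) :
    (volume (UU r S)).toReal + (volume (WW r S)).toReal +
      ((volume (UU r S')).toReal + (volume (WW r S')).toReal) ≤ 2 * (B - A + 3 * r) := by
  have hC : volume (Icc (A + a - r) (B + a + 2 * r)) = ENNReal.ofReal (B - A + 3 * r) := by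
    rw [Real.volume_Icc]; congr 1; ring
  have h1 := vol_add (C := Icc (A + a - r) (B + a + 2 * r)) Subset.rfl
    (A := UU r S') (B := (fun t => t + (a + r)) '' WW r S) (UU_open r S').measurableSet
    (by
      refine ((UU_sub hS').trans Ioo_subset_Icc_self).trans (Icc_subset_Icc le_rfl (by linarith)))
    (by
      rintro _ ⟨t, ht, rfl⟩
      have := WW_sub hr hS ht
      simp only [mem_Icc] at this ⊢
      constructor <;> linarith [this.1, this.2]) (disj1 h)
  have himg : IsOpen ((fun t => t + (a + r)) '' UU r S) := by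
    rw [Set.image_add_right]
    exact (UU_open r S).preimage (by fun_prop)
  have h2 := vol_add (C := Icc (A + a - r) (B + a + 2 * r)) Subset.rfl
    (A := (fun t => t + (a + r)) '' UU r S) (B := WW r S') himg.measurableSet
    (by
      rintro _ ⟨t, ht, rfl⟩
      have := UU_sub hS ht
      simp only [mem_Ioo, mem_Icc] at this ⊢
      constructor <;> linarith [this.1, this.2])
    (by
      intro t ht
      have := WW_sub hr hS' ht
      simp only [mem_Icc] at this ⊢
      constructor <;> linarith [this.1, this.2]) (disj2 h)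
  have e1 : (volume ((fun t => t + (a + r)) '' WW r S)).toReal = (volume (WW r S)).toReal := by
    rw [Set.image_add_right, measure_preimage_add_right]
  have e2 : (volume ((fun t => t + (a + r)) '' UU r S)).toReal = (volume (UU r S)).toReal := by
    rw [Set.image_add_right, measure_preimage_add_right]
  rw [hC, ENNReal.toReal_ofReal (by linarith)] at h1 h2
  rw [e1] at h1
  rw [e2] at h2
  linarith

/-- the trace inequality with the asymptotic value of the form factor -/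
lemma lower {F : ℂ → ℂ} (hF : GoodL F) {U1 U2 Λ M η sl cc : ℝ} (hU : 1 ≤ U1) (hM : 0 ≤ M)
    (hsl : 0 ≤ sl) (hη : η = sl / 56) (hNN : |(NN F U1 U2 : ℝ) - M| ≤ η * (2 * Real.pi * M))
    (hQQ : QQ F Λ U1 U2 ≤ M * (cc + η)) (hcc : cc ≤ 1.327503 + sl / 4) (Y : ℝ → ℝ → ℝ)
    (hY : ∀ v : ℝ → ℂ, ∑ x ∈ SF F U1 U2, ∑ y ∈ SF F U1 U2, Y x y * (conj (v x) * v y).re
      ≤ ∑ x ∈ SF F U1 U2, ‖v x‖ ^ 2) :
    (2 - 1.327503 - 9 / 16 * sl) * M ≤ ((SF F U1 U2).card : ℝ) - YT Λ (SF F U1 U2) Y := by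
  have h1 := (trace_zeros hF hU Λ Y hY).1
  rw [Ns_card hF hU] at h1
  have h2 := (abs_le.mp hNN).1
  have hpi4 := Real.pi_lt_d2
  have h9 : M * (cc + η) ≤ M * (1.327503 + sl / 4 + η) :=
    mul_le_mul_of_nonneg_left (by linarith) hM
  have h11 : η * (2 * Real.pi * M) ≤ sl / 8 * M := by
    have : η * (2 * Real.pi * M) = (η * (2 * Real.pi)) * M := by ring
    rw [this]
    apply mul_le_mul_of_nonneg_right _ hM
    rw [hη]
    norm_num at hpi4
    nlinarith
  have h14 : M * (1.327503 + sl / 4 + η) = 1.327503 * M + 1 / 4 * (sl * M) + 1 / 56 * (sl * M) := by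
    rw [hη]; ring
  have h15 : 0 ≤ sl * M := by positivity
  have h16 : (2 - 1.327503 - 9 / 16 * sl) * M = 2 * M - 1.327503 * M - 9 / 16 * (sl * M) := by ring
  have h17 : sl / 8 * M = 1 / 8 * (sl * M) := by ring
  rw [h16]
  norm_num at h14 h9 ⊢
  linarith

/-- the ordinates `x` in `(T, T + H]` of the simple critical zeros of `F1` for which `F2` has a
simple critical zero with ordinate in `(x + a, x + b)` -/
def Part (F1 F2 : ℂ → ℂ) (T H a b : ℝ) : Set ℝ :=
  {x | T < x ∧ x ≤ T + H ∧ SimpleAt F1 x ∧ ∃ y, SimpleAt F2 y ∧ a < y - x ∧ y - x < b}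

theorem two_main {L ν δ c : ℝ} (hT : Tier L ν δ c) :
    ∃ d : ℝ, 0 < d ∧ d < 1 ∧ ∀ F1 F2 : ℂ → ℂ, GoodL F1 → GoodL F2 → ∃ T0 : ℝ, 10 ≤ T0 ∧
      ∀ T : ℝ, T0 ≤ T → ∀ H : ℝ, T ^ (1 - d) ≤ H → H ≤ T → ∀ a : ℝ, 0 ≤ a → a ≤ T ^ (1 + d) →
        2 * c * (H / (2 * Real.pi) * Real.log T) ≤
          ((Part F1 F2 T H a (a + L * (2 * Real.pi / Real.log T))).ncard : ℝ) := by
  classical
  have hpi := Real.pi_pos
  set sl : ℝ := 2 - 1.327503 - ν - δ - c with hsl
  have hsl0 : 0 < sl := by have := hT.cc; rw [hsl]; linarith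
  -- choice of the exponent
  obtain ⟨ρ, hρ0, hρ⟩ : ∃ ρ : ℝ, 0 < ρ ∧ ∀ θ : ℝ, |θ - 1| < ρ → H295Iso.c0 θ ≤ cMTinv + sl / 4 := by
    have hcont := H295Iso.c0_cont (h := 1) one_pos
    have h1 : ∀ᶠ x in 𝓝 (1 : ℝ), H295Iso.c0 x < H295Iso.c0 1 + sl / 4 :=
      hcont.eventually (gt_mem_nhds (by linarith))
    rw [Metric.eventually_nhds_iff] at h1
    obtain ⟨ρ, hρ0, hρ⟩ := h1
    refine ⟨ρ, hρ0, fun θ hθ => ?_⟩
    have := hρ (y := θ) (by rw [Real.dist_eq]; exact hθ)
    rw [Pool.Agent.H24R3.PairsShort.c0_one] at this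
    exact this.le
  set d0 : ℝ := min (ρ / 3) (1 / 10000) with hd0
  have hd00 : 0 < d0 := by rw [hd0]; positivity
  have hd01 : d0 ≤ 1 / 10000 := min_le_right _ _
  have hd02 : d0 ≤ ρ / 3 := min_le_left _ _
  have hcθ : H295Iso.c0 (1 - d0 - d0) ≤ cMTinv + sl / 4 := by
    apply hρ
    rw [show 1 - d0 - d0 - 1 = -(2 * d0) by ring, abs_neg, abs_of_pos (by linarith)]
    linarith
  have hcn := Expl.cMTinv_num
  have hcθ' : H295Iso.c0 (1 - d0 - d0) ≤ 1.327503 + sl / 4 := by linarith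
  set d : ℝ := d0 / 4 with hd
  have hdpos : 0 < d := by rw [hd]; positivity
  have hd4 : d0 = 4 * d := by rw [hd]; ring
  set η : ℝ := sl / 56 with hη
  have hη0 : 0 < η := by rw [hη]; positivity
  have hν0 := hT.ν0
  have hδ0 := hT.δ0
  have hLpos := hT.L0
  refine ⟨d, hdpos, by linarith, fun F1 F2 hF1 hF2 => ?_⟩
  obtain ⟨T1, hT1, hPC1⟩ := H295Iso.pairShort hF1 (1 - d0) d0 η hd00 (by linarith) (by linarith) hη0
  obtain ⟨T1', hT1', hPC2⟩ :=
    H295Iso.pairShort hF2 (1 - d0) d0 η hd00 (by linarith) (by linarith) hη0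
  -- large `T`
  set K : ℝ := (2 + 3 * ν * L) * 4 / sl with hK
  have htop : Tendsto (fun T : ℝ => T ^ (1 - d)) atTop atTop := tendsto_rpow_atTop (by linarith)
  obtain ⟨T2, hT2⟩ := (htop.eventually_ge_atTop (max K 3)).exists_forall_of_atTop
  obtain ⟨T3, hT3⟩ := (Real.tendsto_log_atTop.eventually_ge_atTop (200 * Real.pi)).exists_forall_of_atTop
  have htop2 : Tendsto (fun T : ℝ => T ^ d) atTop atTop := tendsto_rpow_atTop hdpos
  obtain ⟨T4, hT4⟩ := (htop2.eventually_ge_atTop 2).exists_forall_of_atTop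
  refine ⟨max (max (max T1 T1') T2) (max (max T3 T4) 10),
    (le_max_right _ _).trans (le_max_right _ _), fun T hTT H hH hHT a ha0 haT => ?_⟩
  have hTT1 : T1 ≤ T :=
    (((le_max_left _ _).trans (le_max_left _ _)).trans (le_max_left _ _)).trans hTT
  have hTT1' : T1' ≤ T :=
    (((le_max_right _ _).trans (le_max_left _ _)).trans (le_max_left _ _)).trans hTT
  have hTT2 := hT2 T (((le_max_right _ _).trans (le_max_left _ _)).trans hTT)
  have hTT3 := hT3 T ((((le_max_left _ _).trans (le_max_left _ _)).trans (le_max_right _ _)).trans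
    hTT)
  have hTd := hT4 T ((((le_max_right _ _).trans (le_max_left _ _)).trans (le_max_right _ _)).trans
    hTT)
  have hT10 : 10 ≤ T := ((le_max_right _ _).trans (le_max_right _ _)).trans hTT
  have hT0 : 0 < T := by linarith
  have hHK : K ≤ H := ((le_max_left _ _).trans hTT2).trans hH
  have hH3 : 3 ≤ H := ((le_max_right _ _).trans hTT2).trans hH
  have hlog : 0 < Real.log T := by
    have : 0 < 200 * Real.pi := by positivity
    linarith
  -- the shifted interval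
  set T' : ℝ := T + a with hT'
  have hTT' : T ≤ T' := by rw [hT']; linarith
  have hTa : T' ≤ T ^ (1 + 2 * d) := by
    have h1 : T ≤ T ^ (1 + d) := by
      conv_lhs => rw [← Real.rpow_one T]
      exact Real.rpow_le_rpow_of_exponent_le (by linarith) (by linarith)
    have h2 : T ^ (1 + 2 * d) = T ^ (1 + d) * T ^ d := by
      rw [← Real.rpow_add hT0]; congr 1; ring
    rw [h2, hT']
    have h3 : 0 ≤ T ^ (1 + d) := Real.rpow_nonneg hT0.le _
    have h4 : T ^ (1 + d) * 2 ≤ T ^ (1 + d) * T ^ d := mul_le_mul_of_nonneg_left hTd h3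
    linarith
  have hpow : T' ^ (1 - d0) ≤ H := by
    refine le_trans ?_ hH
    calc T' ^ (1 - d0) ≤ (T ^ (1 + 2 * d)) ^ (1 - d0) :=
          Real.rpow_le_rpow (by linarith) hTa (by linarith)
      _ = T ^ ((1 + 2 * d) * (1 - d0)) := by rw [← Real.rpow_mul hT0.le]
      _ ≤ T ^ (1 - d) := by
          apply Real.rpow_le_rpow_of_exponent_le (by linarith)
          rw [hd4]
          have : 0 ≤ d * d := by positivity
          have e : (1 + 2 * d) * (1 - 4 * d) = 1 - 2 * d - 8 * (d * d) := by ring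
          rw [e]; linarith
  have hpow1 : T ^ (1 - d0) ≤ H := by
    refine le_trans ?_ hH
    exact Real.rpow_le_rpow_of_exponent_le (by linarith) (by linarith)
  have hlogT' : Real.log T ≤ Real.log T' := Real.log_le_log hT0 hTT'
  have hlogT'2 : Real.log T' ≤ (1 + 2 * d) * Real.log T := by
    rw [← Real.log_rpow hT0]
    exact Real.log_le_log (by linarith) hTa
  have hlog' : 0 < Real.log T' := by linarith
  obtain ⟨U1, U2, hU1, hU1', hU2, hU2', hNN, hQQ⟩ := hPC1 T hTT1 H hpow1 hHT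
  obtain ⟨V1, V2, hV1, hV1', hV2, hV2', hNN', hQQ'⟩ := hPC2 T' (by linarith) H hpow (by linarith)
  set σ : ℝ := 2 * Real.pi / Real.log T with hσ
  have hσ0 : 0 < σ := by positivity
  have hσ1 : σ ≤ 1 / 100 := by
    rw [hσ, div_le_div_iff₀ hlog (by norm_num)]
    linarith
  set M : ℝ := H / (2 * Real.pi) * Real.log T with hM
  set M' : ℝ := H / (2 * Real.pi) * Real.log T' with hM'
  have hM0 : 0 < M := by positivity
  have hM0' : 0 < M' := by positivity
  have hMM' : M ≤ M' := mul_le_mul_of_nonneg_left hlogT' (by positivity)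
  have hMσ : M = H / σ := by rw [hM, hσ]; field_simp
  have hMH : H ≤ M := by
    rw [hMσ, le_div_iff₀ hσ0]
    nlinarith
  have hM1 : H * Real.log T / (2 * Real.pi) = M := by rw [hM]; ring
  have hM2 : H * Real.log T = 2 * Real.pi * M := by rw [hM]; field_simp
  have hM1' : H * Real.log T' / (2 * Real.pi) = M' := by rw [hM']; ring
  have hM2' : H * Real.log T' = 2 * Real.pi * M' := by rw [hM']; field_simp
  rw [hM1] at hNN hQQ
  rw [hM2] at hNN
  rw [hM1'] at hNN' hQQ'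
  rw [hM2'] at hNN'
  have hU : 1 ≤ U1 := by linarith
  have hV : 1 ≤ V1 := by linarith
  set Λ : ℝ := (1 - d0 - d0) * Real.log T with hΛ
  set Λ' : ℝ := (1 - d0 - d0) * Real.log T' with hΛ'
  set r : ℝ := L * σ / 2 with hr
  have hr0 : 0 < r := by positivity
  have h2r : a + 2 * r = a + L * σ := by rw [hr]; ring
  have hΛσ : Λ * σ = 2 * Real.pi * (1 - d0 - d0) := by
    rw [hΛ, hσ]; field_simp
  set θ' : ℝ := (1 - d0 - d0) * (Real.log T' / Real.log T) with hθ'
  have hΛσ' : Λ' * σ = 2 * Real.pi * θ' := by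
    rw [hΛ', hσ, hθ']; field_simp
  have hq1 : 1 ≤ Real.log T' / Real.log T := (one_le_div hlog).mpr hlogT'
  have hq2 : Real.log T' / Real.log T ≤ 1 + 2 * d := (div_le_iff₀ hlog).mpr hlogT'2
  have hθ0' : 1 - d0 - d0 ≤ θ' := by
    rw [hθ']
    exact le_mul_of_one_le_right (by linarith) hq1
  have hθ1' : θ' ≤ 1 := by
    rw [hθ']
    calc (1 - d0 - d0) * (Real.log T' / Real.log T) ≤ (1 - d0 - d0) * (1 + 2 * d) :=
          mul_le_mul_of_nonneg_left hq2 (by linarith)
      _ ≤ 1 := by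
          rw [hd4]
          have : 0 ≤ d * d := by positivity
          have e : (1 - 4 * d - 4 * d) * (1 + 2 * d) = 1 - 6 * d - 16 * (d * d) := by ring
          rw [e]; linarith
  have hk1 := hT.hk (σ := σ) (θ := 1 - d0 - d0) (Λ := Λ) hσ0 hσ1 (by linarith) (by linarith)
    (by norm_num; linarith) hΛσ
  have hk2 := hT.hk (σ := σ) (θ := θ') (Λ := Λ') hσ0 hσ1 (by linarith) hθ1'
    (by norm_num at hd01 ⊢; linarith) hΛσ'
  -- the two sets
  set S := SF F1 U1 U2 with hS
  set R := SF F2 V1 V2 with hR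
  have hSm : ∀ x ∈ S, T ≤ x ∧ x ≤ T + H := fun x hx => by
    have := SF_mem hF1 hU hx
    exact ⟨by linarith [this.1], by linarith [this.2]⟩
  have hSm' : ∀ x ∈ S, T < x := fun x hx => by
    have := SF_mem hF1 hU hx
    linarith [this.1]
  have hRm : ∀ x ∈ R, T + a ≤ x ∧ x ≤ T + H + a := fun x hx => by
    have := SF_mem hF2 hV hx
    exact ⟨by linarith [this.1], by linarith [this.2]⟩
  set Bad := S.filter (fun x => ∃ y ∈ R, a < y - x ∧ y - x < a + 2 * r) with hBad
  set S' := S \ Bad with hS'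
  have hBS : Bad ⊆ S := Finset.filter_subset _ _
  have hS'S : S' ⊆ S := Finset.sdiff_subset
  have hdis : Disjoint S' Bad := Finset.sdiff_disjoint
  have hun : S' ∪ Bad = S := Finset.sdiff_union_of_subset hBS
  have hno : ∀ x ∈ S', ∀ y ∈ R, ¬ (a < y - x ∧ y - x < a + 2 * r) := by
    intro x hx y hy hxy
    rw [hS', Finset.mem_sdiff] at hx
    apply hx.2
    rw [hBad, Finset.mem_filter]
    exact ⟨hx.1, y, hy, hxy⟩
  have hvol := volumes (A := T) (B := T + H) hr0 (by linarith) (fun x hx => hSm x (hS'S hx)) hRm hno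
  obtain ⟨Y1, hY1, hY1c⟩ := chain_any (A := T) (B := T + H) (ν := ν / σ) (δ := δ / σ) hr0
    (by positivity) (by positivity) (by linarith) hk1 S' (fun x hx => hSm x (hS'S hx))
  obtain ⟨Y2, hY2, hY2c⟩ := chain_any (A := T + a) (B := T + H + a) (ν := ν / σ) (δ := δ / σ) hr0
    (by positivity) (by positivity) (by linarith) hk2 R hRm
  obtain ⟨Y', hY', hYT⟩ := H344.glue Λ S' Bad hdis Y1 (fun _ _ => 0) hY1 (fun v => by
    simp only [zero_mul, Finset.sum_const_zero]
    exact Finset.sum_nonneg fun x _ => by positivity)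
  have h0 : YT Λ Bad (fun _ _ => 0) = 0 := by unfold YT; simp
  rw [hun] at hY' hYT
  rw [h0, add_zero] at hYT
  have hlow1 := lower hF1 hU hM0.le hsl0.le hη hNN hQQ hcθ' Y' hY'
  have hlow2 := lower hF2 hV hM0'.le hsl0.le hη hNN' hQQ' hcθ' Y2 hY2
  rw [hYT, ← hS] at hlow1
  rw [← hR] at hlow2
  have hcard : (S.card : ℝ) = S'.card + Bad.card := by
    rw [← hun, Finset.card_union_of_disjoint hdis]; push_cast; ring
  have hpos : 0 ≤ 2 - 1.327503 - 9 / 16 * sl := by
    have h1 : sl ≤ 2 - 1.327503 := by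
      rw [hsl]; have := hT.c0; linarith
    linarith
  have hlow2' : (2 - 1.327503 - 9 / 16 * sl) * M ≤ (R.card : ℝ) - YT Λ' R Y2 :=
    (mul_le_mul_of_nonneg_left hMM' hpos).trans hlow2
  have hνvol := mul_le_mul_of_nonneg_left hvol (by positivity : 0 ≤ ν / σ)
  have e1 : ν / σ * (2 * (T + H - T + 3 * r)) = 2 * (ν * M) + 3 * ν * L := by
    rw [hMσ, hr]; field_simp; ring
  have e2 : δ / σ * (T + H - T) = δ * M := by rw [hMσ]; ring
  have e3 : δ / σ * (T + H + a - (T + a)) = δ * M := by rw [hMσ]; ring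
  rw [e1] at hνvol
  rw [e2] at hY1c
  rw [e3] at hY2c
  have h10 : 2 + 3 * ν * L ≤ 1 / 4 * (sl * M) := by
    have : K ≤ M := hHK.trans hMH
    rw [hK, div_le_iff₀ hsl0] at this
    linarith
  have hBadlow : 2 * c * M ≤ (Bad.card : ℝ) := by
    have h15 : 0 < sl * M := by positivity
    have h13 : 2 * c * M = 2 * ((2 - 1.327503 - 9 / 16 * sl) * M) - 2 * (ν * M) - 2 * (δ * M)
        - 7 / 8 * (sl * M) := by rw [hsl]; ring
    rw [h13]
    linarith
  refine hBadlow.trans ?_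
  have hfin : (Part F1 F2 T H a (a + L * σ)).Finite := by
    refine (simple_finite hF1 (T1 := T) (T2 := T + H) (by linarith)).subset ?_
    rintro x ⟨h1, h2, h3, -⟩
    exact ⟨h1, h2, h3⟩
  rw [← Set.ncard_coe_finset]
  have hsub : (Bad : Set ℝ) ⊆ Part F1 F2 T H a (a + L * σ) := by
    intro x hx
    rw [Finset.mem_coe, hBad, Finset.mem_filter] at hx
    obtain ⟨hxS, y, hy, h1, h2⟩ := hx
    exact ⟨hSm' x hxS, (hSm x hxS).2, SF_simple hF1 hU hxS, y, SF_simple hF2 hV hy, h1,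
      by rw [← h2r]; exact h2⟩
  exact_mod_cast Set.ncard_le_ncard hsub hfin

end Pool.Agent.TH342.CV
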